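/-! The programs that the kernel runs (no imports). -/

namespace Pool.Agent.IvT

/-- Binary trees of numbers. -/
inductive Tr : Type
  | lf : Nat → Tr
  | nd : Nat → Tr → Tr → Tr

/-- The leaf reached by comparing with the pivots. -/
noncomputable def Tr.get (t : Tr) (i : Nat) : Nat :=
  Tr.rec (motive := fun _ => Nat) (fun a => a)
    (fun p _ _ l r => Bool.rec (motive := fun _ => Nat) l r (Nat.ble p i)) t
/-- A test holds at all leaves. -/
noncomputable def Tr.all (c : Nat → Bool) (t : Tr) : Bool :=
  Tr.rec (motive := fun _ => Bool) (fun a => c a)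
    (fun _ _ _ l r => Bool.rec (motive := fun _ => Bool) false r l) t

/-- Binary trees of trees. -/
inductive TT : Type
  | lf : Tr → TT
  | nd : Nat → TT → TT → TT
/-- The leaf reached by comparing with the pivots. -/
noncomputable def TT.get (t : TT) (i : Nat) : Tr :=
  TT.rec (motive := fun _ => Tr) (fun a => a)
    (fun p _ _ l r => Bool.rec (motive := fun _ => Tr) l r (Nat.ble p i)) t

/-- Evaluate `x`, then continue. -/
noncomputable def frc (x : Nat) (f : Nat → Bool) : Bool :=
  Nat.rec (motive := fun _ => Bool) (f 0) (fun n _ => f (Nat.succ n)) x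
/-- A test holds below `n`. -/
noncomputable def allLt (n : Nat) (f : Nat → Bool) : Bool :=
  Nat.rec (motive := fun _ => Bool) true
    (fun i r => Bool.rec (motive := fun _ => Bool) false r (f i)) n
/-- Conjunction. -/
noncomputable def bnd (a b : Bool) : Bool := Bool.rec (motive := fun _ => Bool) false b a

/-- The source block. -/
def sbk (a : Nat) : Nat := Nat.mod (Nat.shiftRight a 2880) 28

/-- `∑ i < n, c * 2 ^ (s * i)`. -/
def rep (c s : Nat) : Nat → Nat
  | 0 => 0
  | n + 1 => Nat.add c (Nat.shiftLeft (rep c s n) s)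
/-- The modulus `X ^ 144 + 1`; the imaginary unit is sent to `X ^ 72`. -/
def NN : Nat := Nat.succ (Nat.shiftLeft 1 2880)
def mC : Nat := rep 15 180 16
def bC : Nat := Nat.sub NN (rep 8 180 16)
def dup (x : Nat) : Nat := Nat.add x (Nat.shiftLeft x 1440)
def mR : Nat := dup (rep 15 20 9)
def bR : Nat := Nat.sub NN (dup (rep 8 20 9))
def mH : Nat := dup (rep 1048575 20 9)
def bH : Nat := Nat.sub NN (dup (rep 524288 20 9))
def pH : Nat := rep 524288 20 144
def x4 : Nat := Nat.shiftLeft 4 160
def x16 : Nat := Nat.shiftLeft 16 160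
/-- Column `s / 20`, evaluated at the powers of `X ^ 9`. -/
def col (a s : Nat) : Nat := Nat.add (Nat.land (Nat.shiftRight a s) mC) bC
/-- Row `s / 180`, evaluated at the powers of `X`. -/
def row (a s : Nat) : Nat := Nat.add (Nat.land (Nat.shiftRight a s) mR) bR
/-- The same for a computed product with full digits and offset `2 ^ 19`. -/
def rowH (a s : Nat) : Nat := Nat.add (Nat.land (Nat.shiftRight a (Nat.add s 64)) mH) bH
/-- Shift by 64 bits and fill the low bits (this only spreads the hash values in the kernel). -/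
def slt (h : Nat) : Nat := Nat.add (Nat.shiftLeft h 64) (Nat.mod h 18446744073709551557)
/-- The product of the block `a` with the matrix of rows `w` and corner `z`. -/
def dotw (a : Nat) (w : Nat → Nat) (z : Nat) : Nat :=
  Nat.add (Nat.mul (col a 0) (w 0)) (Nat.add (Nat.mul (col a 20) (w 180))
    (Nat.add (Nat.mul (col a 40) (w 360)) (Nat.add (Nat.mul (col a 60) (w 540))
    (Nat.add (Nat.mul (col a 80) (w 720)) (Nat.add (Nat.mul (col a 100) (w 900))
    (Nat.add (Nat.mul (col a 120) (w 1080)) (Nat.add (Nat.mul (col a 140) (w 1260))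
    (Nat.mul (col a 160) z))))))))
def dot (a b : Nat) : Nat := Nat.mod (dotw a (row b) x4) NN

/-- Check of `f a ∘ f b = f c ∘ f d`. -/
noncomputable def chk22 (dat : Nat → Nat → Nat) (a b c d : Nat) : Bool := allLt 28 fun p =>
  frc (dat a p) fun A => frc (sbk A) fun s => frc (dat b s) fun B =>
  frc (dat c p) fun C => frc (sbk C) fun t => frc (dat d t) fun E =>
  bnd (Nat.beq (sbk B) (sbk E)) (Nat.beq (dot A B) (dot C E))

/-- Check of `f a ∘ f b ∘ f c = f d ∘ f e`. -/
noncomputable def chk32 (dat : Nat → Nat → Nat) (a b c d e : Nat) : Bool := allLt 28 fun p =>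
  frc (dat a p) fun A => frc (sbk A) fun s => frc (dat b s) fun B =>
  frc (sbk B) fun s' => frc (dat c s') fun C =>
  frc (dat d p) fun D => frc (sbk D) fun t => frc (dat e t) fun E =>
  frc (Nat.mod (Nat.add (dotw B (row C) x4) pH) NN) fun h => frc (slt h) fun h' =>
  bnd (Nat.beq (sbk C) (sbk E)) (bnd (Nat.beq (Nat.shiftRight h 2880) 0)
    (Nat.beq (Nat.mod (dotw A (rowH h') x16) NN) (Nat.mod (Nat.mul 4 (dot D E)) NN)))

/-- The inverse label. -/
def iv (x : Nat) : Nat := Nat.xor x 1
/-- Digit `i / 10` in base `1024`. -/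
def dk (k i : Nat) : Nat := Nat.land (Nat.shiftRight k i) 1023
/-- Check of the relation whose labels are the digits of `k`. -/
noncomputable def relK (dat : Nat → Nat → Nat) (k : Nat) : Bool :=
  frc (dk k 0) fun a => frc (dk k 10) fun b => frc (dk k 20) fun c => frc (iv c) fun c' =>
  frc (iv (dk k 30)) fun d => frc (Nat.shiftRight k 40) fun e =>
  Bool.rec (motive := fun _ => Bool)
    (bnd (Nat.ble e 1023) (frc (iv e) fun e' => chk32 dat a b c e' d)) (chk22 dat a b d c')
    (Nat.beq e 0)
/-- Check that the labels `2 m` and `2 m + 1` are inverse to each other. -/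
noncomputable def invK (dat : Nat → Nat → Nat) (m : Nat) : Bool :=
  frc (Nat.mul 2 m) fun a => frc (Nat.succ a) fun b => bnd (chk22 dat a b 0 0) (chk22 dat b a 0 0)

end Pool.Agent.IvT
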