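import Pool.Agent.Work.MP_497bf6_gt.K0

/-! The programs that check the table of slides and the cells (no Mathlib imports). -/

namespace Pool.Agent.IvT

/-- Evaluate `x`, then continue. -/
noncomputable def frn (x : Nat) (f : Nat → Nat) : Nat :=
  Nat.rec (motive := fun _ => Nat) (f 0) (fun n _ => f (Nat.succ n)) x
/-- Choice between numbers. -/
noncomputable def cn (b : Bool) (x y : Nat) : Nat := Bool.rec (motive := fun _ => Nat) y x b
/-- Choice between tests. -/
noncomputable def cb (b : Bool) (x y : Bool) : Bool := Bool.rec (motive := fun _ => Bool) y x b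

/-- The partner of position `k`. -/
def pt (a k : Nat) : Nat := Nat.land (Nat.shiftRight a (Nat.mul 4 k)) 15
/-- Entry `i`: target index and label. -/
def en (a i : Nat) : Nat := Nat.land (Nat.shiftRight a (Nat.add 48 (Nat.mul 21 i))) 2097151
/-- Packing of entry, moved position and new position. -/
def pk (e m q : Nat) : Nat := Nat.add (Nat.mul (Nat.add (Nat.mul e 16) m) 16) q
/-- Data of a slide, zero if the slide is not available. -/
noncomputable def info (a v u : Nat) : Nat :=
  frn (pt a u) fun du => frn (pt a v) fun dv =>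
  cn (Nat.beq (Nat.succ du) v)
    (Nat.succ (pk (en a (Nat.mul 2 du)) du (cn (Nat.ble (Nat.succ du) dv) dv (Nat.succ dv))))
    (cn (Nat.beq (Nat.succ dv) u)
      (Nat.succ (pk (en a (Nat.succ (Nat.mul 2 dv))) u (cn (Nat.ble (Nat.succ u) v) (Nat.pred v) v)))
      0)
def tg (w : Nat) : Nat := Nat.shiftRight w 18
def lb (w : Nat) : Nat := Nat.land (Nat.shiftRight w 8) 1023
noncomputable def nx (w p : Nat) : Nat :=
  frn (Nat.land (Nat.shiftRight w 4) 15) fun m => frn (Nat.land w 15) fun q =>
  cn (Nat.beq p m) q (cn (Nat.ble m p) (cn (Nat.ble p q) (Nat.pred p) p)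
    (cn (Nat.ble q p) (Nat.succ p) p))

noncomputable def r1 (a v u : Nat) (k : Nat → Bool) : Bool :=
  Nat.rec (motive := fun _ => Bool) false (fun w _ => k w) (info a v u)
noncomputable def r2 (tb : Nat → Nat) (a v u v' u' : Nat) (k : Nat → Nat → Bool) : Bool :=
  r1 a v u fun w => frc (tg w) fun n => frc (tb n) fun a' => frc (nx w v') fun x =>
  frc (nx w u') fun y => r1 a' x y fun w' => k w w'
noncomputable def r3 (tb : Nat → Nat) (a v u v' u' v'' u'' : Nat) (k : Nat → Nat → Nat → Bool) :
    Bool :=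
  r1 a v u fun w => frc (tg w) fun n => frc (tb n) fun a' => frc (nx w v') fun x =>
  frc (nx w u') fun y => frc (nx w v'') fun x' => frc (nx w u'') fun y' =>
  r2 tb a' x y x' y' fun w' w'' => k w w' w''

/-- Put the label `x` in front of the word `k`, with cancellation. -/
noncomputable def sp (k x : Nat) : Nat := frn k fun k => frn x fun x =>
  cn (Nat.ble x 1) k (cn (Nat.beq (Nat.land k 1023) (iv x)) (Nat.shiftRight k 10)
    (Nat.add (Nat.shiftLeft k 10) x))
noncomputable def tp (k : Nat) : Nat :=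
  cn (Nat.ble 1073741824 k) (cn (Nat.ble 1099511627776 k) 40 30)
    (cn (Nat.ble 1048576 k) 20 (cn (Nat.ble 1024 k) 10 0))
def rot (s k : Nat) : Nat := Nat.add (Nat.shiftRight k 10) (Nat.shiftLeft (Nat.land k 1023) s)
noncomputable def mi (x y : Nat) : Nat := frn x fun x => frn y fun y => cn (Nat.ble x y) x y
noncomputable def mn (k : Nat) : Nat := frn (tp k) fun s => frn (rot s k) fun k1 =>
  frn (rot s k1) fun k2 => frn (rot s k2) fun k3 => mi (mi (mi k k1) (mi k2 k3)) (rot s k3)
noncomputable def rv (k : Nat) : Nat :=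
  sp (sp (sp (sp (sp 0 (iv (dk k 0))) (iv (dk k 10))) (iv (dk k 20))) (iv (dk k 30))) (iv (dk k 40))
/-- The word `k` is trivial or, up to rotation and inversion, in the list `db`. -/
noncomputable def okKey (db : Tr) (k : Nat) : Bool :=
  cb (Nat.beq k 0) true (bnd (Nat.ble k 1125899906842623)
    (frc (rv k) fun k' => frc (mi (mn k) (mn k')) fun c => Nat.beq (db.get c) c))
noncomputable def fin (db : Tr) (k : Nat) : Bool := frc k fun k => cb (okKey db k) true false

noncomputable def c20 (tb : Nat → Nat) (db : Tr) (a v1 u1 v2 u2 : Nat) : Bool :=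
  r2 tb a v1 u1 v2 u2 fun w1 w2 => fin db (sp (sp 0 (iv (lb w1))) (iv (lb w2)))
noncomputable def c21 (tb : Nat → Nat) (db : Tr) (a v1 u1 v2 u2 x1 y1 : Nat) : Bool :=
  r2 tb a v1 u1 v2 u2 fun w1 w2 => r1 a x1 y1 fun z1 =>
  fin db (sp (sp (sp 0 (lb z1)) (iv (lb w1))) (iv (lb w2)))
noncomputable def c22 (tb : Nat → Nat) (db : Tr) (a v1 u1 v2 u2 : Nat) : Bool :=
  r2 tb a v1 u1 v2 u2 fun w1 w2 => r2 tb a v2 u2 v1 u1 fun z1 z2 =>
  fin db (sp (sp (sp (sp 0 (lb z2)) (lb z1)) (iv (lb w1))) (iv (lb w2)))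
noncomputable def c32 (tb : Nat → Nat) (db : Tr) (a v1 u1 v2 u2 v3 u3 x1 y1 x2 y2 : Nat) : Bool :=
  r3 tb a v1 u1 v2 u2 v3 u3 fun w1 w2 w3 => r2 tb a x1 y1 x2 y2 fun z1 z2 =>
  fin db (sp (sp (sp (sp (sp 0 (lb z2)) (lb z1)) (iv (lb w1))) (iv (lb w2))) (iv (lb w3)))

/-- The side removed by move number `i`. -/
noncomputable def mV (a i : Nat) : Nat :=
  cn (Nat.beq (Nat.land i 1) 0) (Nat.succ (Nat.shiftRight i 1)) (pt a (Nat.shiftRight i 1))
/-- The side kept by move number `i`. -/
noncomputable def mU (a i : Nat) : Nat :=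
  cn (Nat.beq (Nat.land i 1) 0) (pt a (Nat.shiftRight i 1)) (Nat.succ (Nat.shiftRight i 1))

noncomputable def asym (tb : Nat → Nat) (db : Tr) (a v u v' u' : Nat) : Bool :=
  cb (Nat.beq v' u) (c32 tb db a u u' v u' v u v u u u')
    (cb (c32 tb db a v u v' u' v u' v' u' v u) true (c32 tb db a v u v u' v' u' v' u' v u))
noncomputable def cf (dv u v' du' : Nat) : Bool :=
  bnd (Nat.beq v' (Nat.succ u)) (bnd (Nat.beq du' u) (Nat.beq (Nat.succ dv) u))
noncomputable def bor (a b : Bool) : Bool := Bool.rec (motive := fun _ => Bool) b true a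
noncomputable def both (tb : Nat → Nat) (db : Tr) (a v u dv du v' u' : Nat) : Bool :=
  frc (pt a v') fun dv' => frc (pt a u') fun du' =>
  cb (bor (cf dv u v' du') (cf dv' u' v du)) true
    (cb (bor (Nat.beq u' v) (Nat.beq u' dv))
      (cb (bor (Nat.beq u v') (Nat.beq u dv')) true (asym tb db a v' u' v u))
      (cb (bor (Nat.beq u v') (Nat.beq u dv')) (asym tb db a v u v' u')
        (cb (Nat.beq v' v) (cb (Nat.beq u' du) false (c32 tb db a v u u' u v u' v u' u' u))
          (c22 tb db a v u v' u'))))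

/-- All cells at the diagram number `n`. -/
noncomputable def k2 (tb : Nat → Nat) (db : Tr) (n : Nat) : Bool := frc (tb n) fun a =>
  allLt 22 fun i => frc (mV a i) fun v => frc (mU a i) fun u => frc (pt a v) fun dv =>
  frc (pt a u) fun du => bnd (c20 tb db a v u v du) (bnd (c21 tb db a v u du v u v)
    (allLt i fun j => frc (mV a j) fun v' => frc (mU a j) fun u' => both tb db a v u dv du v' u'))

/-- The key of a pairing. -/
def keyF (D : Nat → Nat) : Nat → Nat
  | 0 => 0
  | n + 1 => Nat.add (Nat.mul (keyF D n) 16) (D n)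

/-- The table is correct at the diagram number `n`. -/
noncomputable def k1 (tb : Nat → Nat) (fd : Tr) (n : Nat) : Bool := frc (tb n) fun a =>
  bnd (Nat.beq (fd.get (keyF (pt a) 12)) n)
  (bnd (allLt 12 fun k => frc (pt a k) fun d => bnd (Nat.ble d 11) (bnd (Nat.beq (pt a d) k)
      (cb (Nat.beq d k) false (cb (Nat.beq d (Nat.succ k)) false true))))
    (allLt 22 fun i => frc (mV a i) fun v => frc (mU a i) fun u => r1 a v u fun w =>
      frc (tg w) fun m => frc (tb m) fun a' => bnd (Nat.ble m 1484)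
        (allLt 12 fun p => frc (nx w p) fun p' => frc (pt a p) fun d =>
          Nat.beq (pt a' p') (nx w d))))

/-- A test holds on an interval. -/
noncomputable def rng (lo n : Nat) (f : Nat → Bool) : Bool :=
  allLt n fun i => frc (Nat.add lo i) f

/-- A long list of slides: `hs` names the products so far, the last one is `z`. -/
noncomputable def runC (tb : Nat → Nat) (db : Tr) (z : Nat) (ms : List (Nat × Nat)) :
    List Nat → Nat → (Nat → Nat) → Nat → Bool :=
  List.rec (motive := fun _ => List Nat → Nat → (Nat → Nat) → Nat → Bool)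
    (fun _ _ _ acc => Nat.beq acc z)
    (fun m _ ih hs n f acc => frc (f m.1) fun v => frc (f m.2) fun u => frc (hs.headD 0) fun h =>
      bnd (Nat.ble v 11) (bnd (Nat.ble u 11) (bnd (Nat.ble h 1023) (r1 (tb n) v u fun w =>
        bnd (fin db (sp (sp (sp 0 (iv h)) (lb w)) acc))
          (frc (tg w) fun n' => ih hs.tail n' (fun p => nx w (f p)) h))))) ms

/-- Bit test. -/
def tbit (m i : Nat) : Bool := Nat.beq (Nat.land (Nat.shiftRight m i) 1) 1
/-- Each relation expresses its first label through labels met before. -/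
noncomputable def dagK (db : Tr) (ks : List Nat) : Nat → Bool :=
  List.rec (motive := fun _ => Nat → Bool)
    (fun m => allLt 1024 fun i => tbit m i)
    (fun k _ ih m => bnd (Nat.ble k 1125899906842623) (bnd (fin db k)
      (bnd (tbit m (dk k 10)) (bnd (tbit m (dk k 20)) (bnd (tbit m (dk k 30)) (bnd (tbit m (dk k 40))
        (frc (Nat.lor m (Nat.lor (Nat.shiftLeft 1 (dk k 0)) (Nat.shiftLeft 1 (iv (dk k 0))))) ih)))))))
    ks

end Pool.Agent.IvT
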