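import Pool.Agent.Work.MP_497bf6_gt.Nu

/-! Plan. For reduced nonempty `w` starting with `l`: `|thw w - pos l| < 1/3` and `thw w ≠ pos l`; the `pos` are distinct
integers in `0..11`, `thw [] = -1`. So `th g ≠ pos l` for all `g, l`. Letter formula for ALL `g`:
`th (lt l * g) = pos l - (1/9) / (th g - pos (bar l))` (if `g` starts with `bar l` the map of `l` undoes the map of `bar l`).
`Cyc a b c ↔ 0 < (th a - th b) * (th b - th c) * (th c - th a)`; the letter map multiplies this by a positive number
(`1/9^3` over a square). `cyc_mul` by induction on the word of `g`. `pl_y0`: twelve explicit inequalities (`decide +kernel`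
on `toWord`, or `norm_num`). `planar_four`: translate by `B⁻¹` (three `Cyc` facts suffice), put `u = B⁻¹ C`, `x = B⁻¹ E`, `v = B⁻¹ A`;
by `norm_gp` the claim is `gp u v ≤ gp u x`. If not, let `q = take (gp u x) u.toWord` and `l` the next letter of `u` (and of `v`);
translate by `(mk q)⁻¹`: the images of `u, v` start with `l`, the images of `x` and of `1` do not (reducedness), and points
starting with `l` fill the interval of radius `1/3` about `pos l`, which contains no other point; this contradicts the
cyclic order `1, u, x, v`. -/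

namespace Pool.Agent.IvT

/-- Three group elements in cyclic order. -/
def Cyc (a b c : F) : Prop :=
  (th a < th b ∧ th b < th c) ∨ (th b < th c ∧ th c < th a) ∨ (th c < th a ∧ th a < th b)

theorem theta_sep : ∀ l l' : L, l ≠ l' → 1 ≤ |pos l - pos l'| := by decide +kernel

theorem theta_nonneg : ∀ l : L, 0 ≤ pos l := by decide +kernel

theorem theta_cons (l : L) (w : List L) :
    thw (l :: w) = pos l - (1 / 9) / (thw w - pos (bar l)) := rfl

theorem theta_place : ∀ w : List L, FreeGroup.IsReduced w → ∀ l : L,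
    (w.head? = some l → |thw w - pos l| < 1 / 3 ∧ thw w ≠ pos l) ∧
    (w.head? ≠ some l → 2 / 3 < |thw w - pos l|)
  | [], _, l => by
    refine ⟨fun h => by simp at h, fun _ => ?_⟩
    have h0 := theta_nonneg l
    have e : thw [] = -1 := rfl
    rw [e, lt_abs]
    right
    linarith
  | a :: w, h, l => by
    have hw : FreeGroup.IsReduced w := List.IsChain.tail h
    have hne : w.head? ≠ some (bar a) := by
      rw [isReduced_iff, List.isChain_cons] at h
      exact fun e => h.1 _ e rfl
    have h1 := (theta_place w hw (bar a)).2 hne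
    have h2 : thw w - pos (bar a) ≠ 0 := by
      intro e
      rw [e, abs_zero] at h1
      linarith
    have h3 : |thw (a :: w) - pos a| < 1 / 3 := by
      rw [theta_cons, sub_sub_cancel_left, abs_neg, abs_div, div_lt_iff₀ (abs_pos.2 h2),
        abs_of_pos (by norm_num : (0 : ℚ) < 1 / 9)]
      linarith
    refine ⟨fun e => ?_, fun e => ?_⟩
    · obtain rfl : a = l := by simpa using e
      refine ⟨h3, ?_⟩
      rw [theta_cons, ne_eq, sub_eq_self]
      exact div_ne_zero (by norm_num) h2
    · have h4 := theta_sep a l fun k => e (by simp [k])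
      have h5 := abs_sub_le (pos a) (thw (a :: w)) (pos l)
      rw [abs_sub_comm (pos a) (thw (a :: w))] at h5
      linarith

theorem theta_ne {w : List L} (h : FreeGroup.IsReduced w) (l : L) : thw w - pos l ≠ 0 := by
  by_cases k : w.head? = some l
  · exact sub_ne_zero.2 ((theta_place w h l).1 k).2
  · have h1 := (theta_place w h l).2 k
    intro e
    rw [e, abs_zero] at h1
    linarith

theorem theta_lt (l : L) (g : F) :
    th (lt l * g) = pos l - (1 / 9) / (th g - pos (bar l)) := by
  have hg : FreeGroup.IsReduced g.toWord := FreeGroup.isReduced_toWord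
  have e : g = FreeGroup.mk g.toWord := FreeGroup.mk_toWord.symm
  unfold th
  by_cases k : g.toWord.head? = some (bar l)
  · obtain ⟨w, hw⟩ := List.head?_eq_some_iff.1 k
    have hr : FreeGroup.IsReduced w := by
      rw [hw] at hg
      exact List.IsChain.tail hg
    have e2 : lt l * g = FreeGroup.mk w := by
      rw [e, hw, ← List.singleton_append, ← FreeGroup.mul_mk]
      change lt l * (lt (bar l) * _) = _
      rw [lt_bar, mul_inv_cancel_left]
    have h2 := theta_ne hr l
    rw [e2, toWord_mk_of_reduced hr, hw, theta_cons, bar_bar, sub_sub_cancel_left]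
    field_simp
    ring
  · have hr : FreeGroup.IsReduced (l :: g.toWord) := by
      rw [isReduced_iff] at hg ⊢
      rw [List.isChain_cons]
      exact ⟨fun y hy e' => k (e' ▸ hy), hg⟩
    have e2 : lt l * g = FreeGroup.mk (l :: g.toWord) := by
      rw [← List.singleton_append, ← FreeGroup.mul_mk, ← e]
      rfl
    rw [e2, toWord_mk_of_reduced hr, theta_cons]

theorem theta_cyc (a b c : F) :
    Cyc a b c ↔ 0 < (th a - th b) * (th b - th c) * (th c - th a) := by
  unfold Cyc
  generalize th a = x
  generalize th b = y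
  generalize th c = z
  constructor
  · rintro (⟨h1, h2⟩ | ⟨h1, h2⟩ | ⟨h1, h2⟩) <;>
    · have := mul_pos (mul_pos (sub_pos.2 h1) (sub_pos.2 h2)) (sub_pos.2 (h1.trans h2))
      linarith
  · intro h
    have key : ∀ p q s : ℚ, 0 < (p - q) * (q - s) * (s - p) → p < q ∨ q < s := fun p q s k => by
      by_contra hn
      push Not at hn
      have := mul_nonneg (mul_nonneg (sub_nonneg.2 hn.1) (sub_nonneg.2 hn.2))
        (sub_nonneg.2 (hn.2.trans hn.1))
      linarith
    have k1 := key x y z h
    have k2 := key y z x (by linarith)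
    have k3 := key z x y (by linarith)
    tauto

theorem theta_step (l : L) {a b c : F} (h : Cyc a b c) : Cyc (lt l * a) (lt l * b) (lt l * c) := by
  rw [theta_cyc] at h ⊢
  have ha : th a - pos (bar l) ≠ 0 := theta_ne FreeGroup.isReduced_toWord _
  have hb : th b - pos (bar l) ≠ 0 := theta_ne FreeGroup.isReduced_toWord _
  have hc : th c - pos (bar l) ≠ 0 := theta_ne FreeGroup.isReduced_toWord _
  rw [theta_lt, theta_lt, theta_lt]
  generalize th a = x at *
  generalize th b = y at *
  generalize th c = z at *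
  generalize pos (bar l) = q at *
  generalize pos l = p
  have e : (p - 1 / 9 / (x - q) - (p - 1 / 9 / (y - q))) * (p - 1 / 9 / (y - q) - (p - 1 / 9 / (z - q)))
      * (p - 1 / 9 / (z - q) - (p - 1 / 9 / (x - q)))
      = (x - y) * (y - z) * (z - x) / (729 * ((x - q) * (y - q) * (z - q)) ^ 2) := by
    field_simp
    ring
  rw [e]
  positivity

theorem cyc_mul (g : F) {a b c : F} (h : Cyc a b c) : Cyc (g * a) (g * b) (g * c) := by
  induction g using FreeGroup.induction_on generalizing a b c with
  | C1 => simpa using h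
  | of x => exact theta_step (x, true) h
  | inv_of x _ =>
    have e : (FreeGroup.of x : F)⁻¹ = lt (x, false) := (lt_bar (x, true)).symm
    rw [e]
    exact theta_step _ h
  | mul x y hx hy =>
    rw [mul_assoc, mul_assoc, mul_assoc]
    exact hx (hy h)

theorem pl_y0 : Pl y0 := by
  unfold Pl
  decide +kernel

theorem theta_drop (Q : List L) (n : ℕ) (g : F) (h : g.toWord.take n = Q) :
    ((FreeGroup.mk Q)⁻¹ * g).toWord = g.toWord.drop n := by
  have hr : FreeGroup.IsReduced (g.toWord.drop n) := List.IsChain.drop FreeGroup.isReduced_toWord _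
  have e : g = FreeGroup.mk Q * FreeGroup.mk (g.toWord.drop n) := by
    rw [← h, FreeGroup.mul_mk, List.take_append_drop, FreeGroup.mk_toWord]
  rw [← toWord_mk_of_reduced hr]
  congr 1
  rw [inv_mul_eq_iff_eq_mul]
  exact e

theorem theta_gp {u v x : F} (h1 : Cyc v 1 u) (h2 : Cyc u x v) : gp u v ≤ gp u x := by
  by_contra hn
  push Not at hn
  obtain ⟨a1, a2, a3⟩ := (le_gp _ u v).1 (Nat.succ_le_of_lt hn)
  obtain ⟨-, -, a4⟩ := (le_gp _ u v).1 hn.le
  have a5 := gp_take u x
  have a6 := gp_drop u x
  generalize gp u x = n at *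
  have hlen : n < u.toWord.length := a1
  have b1 : (u.toWord.drop n).head? = some u.toWord[n] := by
    rw [List.head?_drop, List.getElem?_eq_getElem hlen]
  have b2 : (v.toWord.drop n).head? = some u.toWord[n] := by
    have := congrArg (fun w : List L => w[n]?) a3
    simp only [List.getElem?_take, Nat.succ_eq_add_one, Nat.lt_succ_self, if_true] at this
    rw [List.head?_drop, ← this, List.getElem?_eq_getElem hlen]
  have b3 : (x.toWord.drop n).head? ≠ some u.toWord[n] := fun e => a6 _ _ b1 e rfl
  generalize u.toWord[n] = l at *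
  have hQ : FreeGroup.IsReduced (u.toWord.take n) := List.IsChain.take FreeGroup.isReduced_toWord _
  have b4 : ((FreeGroup.mk (u.toWord.take n))⁻¹ * 1).toWord.head? ≠ some l := by
    have hu : FreeGroup.IsReduced (u.toWord.take n ++ u.toWord.drop n) := by
      rw [List.take_append_drop]
      exact FreeGroup.isReduced_toWord
    rw [isReduced_iff, List.isChain_append] at hu
    rw [mul_one, FreeGroup.toWord_inv, toWord_mk_of_reduced hQ, FreeGroup.invRev,
      List.head?_reverse, List.getLast?_map]
    intro e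
    obtain ⟨y, hy, e'⟩ := Option.map_eq_some_iff.1 e
    exact hu.2.2 y hy l b1 e'.symm
  rw [← theta_drop _ n u rfl] at b1
  rw [← theta_drop _ n v a4.symm] at b2
  rw [← theta_drop _ n x a5.symm] at b3
  have c1 := ((theta_place _ FreeGroup.isReduced_toWord l).1 b1).1
  have c2 := ((theta_place _ FreeGroup.isReduced_toWord l).1 b2).1
  have c3 := (theta_place _ FreeGroup.isReduced_toWord l).2 b3
  have c4 := (theta_place _ FreeGroup.isReduced_toWord l).2 b4
  have d1 := cyc_mul (FreeGroup.mk (u.toWord.take n))⁻¹ h1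
  have d2 := cyc_mul (FreeGroup.mk (u.toWord.take n))⁻¹ h2
  unfold Cyc th at d1 d2
  rw [abs_lt] at c1 c2
  rw [lt_abs] at c3 c4
  rcases d1 with d1 | ⟨-, d1⟩ | ⟨d1, -⟩
  · rcases c4 with c4 | c4 <;> linarith only [d1.1, d1.2, c1.2, c2.1, c4]
  all_goals
    rcases d2 with d2 | ⟨-, d2⟩ | ⟨d2, -⟩
    · rcases c3 with c3 | c3 <;> linarith only [d2.1, d2.2, c1.1, c2.2, c3]
    · exact lt_asymm d1 d2
    · exact lt_asymm d1 d2

theorem planar_four {A B C E : F} (h1 : th A < th B) (h2 : th B < th C) (h3 : th C < th E) :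
    (A⁻¹ * B).norm + (C⁻¹ * E).norm ≤ (A⁻¹ * C).norm + (B⁻¹ * E).norm := by
  have c1 : Cyc A B C := Or.inl ⟨h1, h2⟩
  have c2 : Cyc C E A := Or.inr (Or.inr ⟨h1.trans h2, h3⟩)
  have d1 := cyc_mul B⁻¹ c1
  rw [inv_mul_cancel] at d1
  have k := theta_gp d1 (cyc_mul B⁻¹ c2)
  have n1 := norm_gp (B⁻¹ * C) (B⁻¹ * E)
  have n2 := norm_gp (B⁻¹ * A) (B⁻¹ * C)
  have e1 : (B⁻¹ * C)⁻¹ * (B⁻¹ * E) = C⁻¹ * E := by group
  have e2 : (B⁻¹ * A)⁻¹ * (B⁻¹ * C) = A⁻¹ * C := by group
  have e3 : (A⁻¹ * B).norm = (B⁻¹ * A).norm := by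
    rw [← FreeGroup.norm_inv_eq, mul_inv_rev, inv_inv]
  rw [e1] at n1
  rw [e2, gp_comm] at n2
  omega

end Pool.Agent.IvT
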