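import Pool.Agent.Work.MP_497bf6_gt.Nu
import Pool.Agent.Work.MP_497bf6_gt.Theta

-- merged part: Pool.Agent.Work.MP_497bf6_gt.State
section
namespace Pool.Agent.IvT

theorem mv_mv (m q p : ℕ) : mv q m (mv m q p) = p := by
  unfold mv; split_ifs <;> omega
theorem mv_lt {m q p : ℕ} (hm : m < 12) (hq : q < 12) (hp : p < 12) : mv m q p < 12 := by
  unfold mv; split_ifs <;> omega
theorem mv_out {m q p : ℕ} (hm : m < 12) (hq : q < 12) (hp : 12 ≤ p) : mv m q p = p := by
  unfold mv; split_ifs <;> omega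

theorem Adj.symm {D : ℕ → ℕ} {v u : ℕ} (h : Adj D v u) : Adj D u v :=
  ⟨h.2.1, h.1, h.2.2.symm⟩
theorem Adj.ne {D : ℕ → ℕ} {v u : ℕ} (hD : Dg D) (h : Adj D v u) :
    u ≠ v ∧ u ≠ D v ∧ D u ≠ v ∧ D u ≠ D v := by
  obtain ⟨hv, hu, h⟩ := h
  have a1 := hD.inv u
  have a2 := hD.inv v
  have a3 := hD.ne1 _ (hD.lt u hu)
  have a4 := hD.ne1 _ (hD.lt v hv)
  have k : u ≠ v := by
    rintro rfl
    omega
  refine ⟨k, ?_, ?_, fun e => k (by rw [← a1, e, a2])⟩
  · rintro rfl; omega
  · rintro rfl; omega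
theorem src_lt {D : ℕ → ℕ} {v u : ℕ} (hD : Dg D) (h : Adj D v u) : src D v u < 12 := by
  have := hD.lt u h.2.1; have := h.2.1
  unfold src; split_ifs <;> omega
theorem dst_lt {D : ℕ → ℕ} {v u : ℕ} (hD : Dg D) (h : Adj D v u) : dst D v u < 12 := by
  have := hD.lt u h.2.1; have := hD.lt v h.1; have := h.1; have := h.2.1
  have := (h.ne hD).2.2.2
  unfold dst; split_ifs <;> omega
theorem fw_bw (D : ℕ → ℕ) (v u p : ℕ) : fw D v u (bw D v u p) = p := mv_mv _ _ _
theorem bw_fw (D : ℕ → ℕ) (v u p : ℕ) : bw D v u (fw D v u p) = p := mv_mv _ _ _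
theorem fw_lt {D : ℕ → ℕ} {v u p : ℕ} (hD : Dg D) (h : Adj D v u) (hp : p < 12) :
    fw D v u p < 12 := mv_lt (src_lt hD h) (dst_lt hD h) hp
theorem bw_lt {D : ℕ → ℕ} {v u p : ℕ} (hD : Dg D) (h : Adj D v u) (hp : p < 12) :
    bw D v u p < 12 := mv_lt (dst_lt hD h) (src_lt hD h) hp

theorem Ok.inv {D : ℕ → ℕ} {y : ℕ → F} (h : Ok D y) {k : ℕ} (hk : k < 12) :
    y (D k) = (y k)⁻¹ := by
  obtain ⟨φ, e, h1, _, h3⟩ := h.free
  rw [h1 _ (h.dg.lt k hk), h1 k hk, h3 k hk, lt_bar, map_inv]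
theorem Ok.inj {D : ℕ → ℕ} {y : ℕ → F} (h : Ok D y) {k j : ℕ} (hk : k < 12) (hj : j < 12)
    (e : y k = y j) : k = j := by
  obtain ⟨φ, f, h1, h2, _⟩ := h.free
  rw [h1 k hk, h1 j hj] at e
  exact h2 k j hk hj (lt_inj (φ.injective e))
theorem Ok.ne_one {D : ℕ → ℕ} {y : ℕ → F} (h : Ok D y) {k : ℕ} (hk : k < 12) : y k ≠ 1 := by
  intro e
  have := h.inv hk
  rw [e, inv_one, ← e] at this
  exact h.dg.ne k hk (h.inj (h.dg.lt k hk) hk this)

theorem mu_sY {D : ℕ → ℕ} (y : ℕ → F) {v u : ℕ} (hD : Dg D) (h : Adj D v u) :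
    mu (sY D y v u) = mu (up D y v u) := by
  unfold mu sY
  refine Finset.sum_nbij' (bw D v u) (fw D v u) ?_ ?_ ?_ ?_ ?_
  · intro a ha; simpa using bw_lt hD h (by simpa using ha)
  · intro a ha; simpa using fw_lt hD h (by simpa using ha)
  · intro a _; exact fw_bw _ _ _ _
  · intro a _; exact bw_fw _ _ _ _
  · intro a _; rfl

theorem mu_lt {y z : ℕ → F} {t : ℕ} (ht : t < 12)
    (h : ∀ k, k < 12 → (z k = y k ∧ k ≠ t) ∨ nu (z k) < nu (y t)) : mu z < mu y := by
  have ht' : t ∈ Finset.range 12 := by simpa using ht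
  have h0 : nu (z t) < nu (y t) := by
    rcases h t ht with h | h
    · exact absurd rfl h.2
    · exact h
  obtain ⟨T, hT⟩ : ∃ T, nu (y t) = T + 1 := ⟨nu (y t) - 1, by omega⟩
  have hb : ∀ k ∈ Finset.range 12,
      13 ^ nu (z k) ≤ (if k = t then 0 else 13 ^ nu (y k)) + 13 ^ T := by
    intro k hk
    rcases h k (by simpa using hk) with h | h
    · rw [if_neg h.2, h.1]; exact Nat.le_add_right _ _
    · have : 13 ^ nu (z k) ≤ 13 ^ T := Nat.pow_le_pow_right (by norm_num) (by omega)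
      exact this.trans (Nat.le_add_left _ _)
  have h1 := Finset.sum_le_sum hb
  rw [Finset.sum_add_distrib, Finset.sum_const, Finset.card_range, smul_eq_mul] at h1
  have h2 : mu y = ∑ k ∈ Finset.range 12, (if k = t then 0 else 13 ^ nu (y k)) + 13 ^ (T + 1) := by
    unfold mu
    rw [← Finset.add_sum_erase _ _ ht', ← Finset.add_sum_erase _ _ ht', if_pos rfl, hT,
      zero_add, add_comm]
    congr 1
    refine Finset.sum_congr rfl fun k hk => ?_
    rw [if_neg (Finset.ne_of_mem_erase hk)]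
  have h3 : 0 < 13 ^ T := by positivity
  unfold mu at h2 ⊢
  rw [h2, pow_succ]
  omega

end Pool.Agent.IvT
end

-- merged part: Pool.Agent.Work.MP_497bf6_gt.State2
section
/-! Plan. `ok_step`: product: split on the two branches of `src`/`dst` and on the order of the two positions (four cases); give
`P (sY ..) i` in terms of `P y` by induction on `i` (unchanged before and after the window, shifted by one inside it), or
rewrite `P y 12` as a list product. Freeness: Nielsen automorphism `N a b : MulAut F` for letters `a, b` with `a.1 ≠ b.1`: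
`lt a ↦ (lt b)⁻¹ * lt a`, other generators fixed (`FreeGroup.lift`, inverse `N a (bar b)`); new data `φ * N (e v) (e u)` and
`e ∘ bw`. `rigid`: `k ↦ j` is an injective map `τ` of `range 12` with `y' k = y (τ k)`; the words `[e k]` and `[e (τ k)]` are
reduced (`ne1` of `D`, of `D'`, with `Ok.inv`, `Ok.inj`) and have the same image under `φ`, so they are equal, `τ = id`;
`D' = D` from `Ok.inv`, `Ok.inj`, `out`. `exists_stab`: `e` and `e0` are bijections from `range 12` to `L` that commute with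
`D0` and `bar`; a `bar`-equivariant bijection `β` of `L` gives `σ : MulAut F` with `σ (lt l) = lt (β l)`; take `φ * σ`. -/

namespace Pool.Agent.IvT

theorem State2_word {y : ℕ → F} {φ : MulAut F} {e : ℕ → L} (n : ℕ)
    (h : ∀ k, k < n → y k = φ (lt (e k))) :
    P y n = φ (FreeGroup.mk ((List.range n).map e)) := by
  induction n with
  | zero => exact (map_one φ).symm
  | succ n ih =>
    rw [P, ih fun k hk => h k (by omega), h n (by omega), ← map_mul, lt, FreeGroup.mul_mk,
      List.range_succ, List.map_append]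
    rfl

theorem State2_map (φ : MulAut F) (y : ℕ → F) (n : ℕ) : P (fun k => φ (y k)) n = φ (P y n) := by
  induction n with
  | zero => exact (map_one φ).symm
  | succ n ih => rw [P, P, ih, map_mul]

theorem State2_run {y z : ℕ → F} {a c : ℕ} (h0 : P z a = P y c) (n : ℕ)
    (h : ∀ i, i < n → z (a + i) = y (c + i)) : P z (a + n) = P y (c + n) := by
  induction n with
  | zero => exact h0
  | succ n ih =>
    rw [← add_assoc, ← add_assoc, P, P, ih fun i hi => h i (by omega), h n (by omega)]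

theorem State2_prod {y z : ℕ → F} {s t : ℕ} (hs : s + 1 ≤ t) (ht : t + 1 < 12)
    (h1 : ∀ i, i < s → z i = y i) (h2 : z s = y s * y (s + 1))
    (h3 : ∀ i, s < i → i < t → z i = y (i + 1)) (h4 : z t * z (t + 1) = y (t + 1))
    (h5 : ∀ i, t + 1 < i → z i = y i) : P z 12 = P y 12 := by
  have a1 := State2_run (y := y) (z := z) (a := 0) (c := 0) rfl s fun i hi => by
    rw [zero_add, h1 i hi]
  rw [zero_add] at a1
  have a2 : P z (s + 1) = P y (s + 2) := by rw [P, P, P, a1, h2, mul_assoc]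
  obtain ⟨n, rfl⟩ := Nat.exists_eq_add_of_le hs
  have a3 := State2_run a2 n fun i hi => by
    rw [h3 _ (by omega) (by omega), show s + 1 + i + 1 = s + 2 + i by omega]
  rw [show s + 2 + n = s + 1 + n + 1 by omega] at a3
  have a4 : P z (s + 1 + n + 2) = P y (s + 1 + n + 2) := by
    rw [P, P, a3, mul_assoc, h4]
    rfl
  have a5 := State2_run a4 (12 - (s + 1 + n + 2)) fun i _ => h5 _ (by omega)
  rwa [show s + 1 + n + 2 + (12 - (s + 1 + n + 2)) = 12 by omega] at a5

theorem State2_of (i : Fin 6) : FreeGroup.of i = lt (i, true) := rfl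

theorem State2_fst {a c : L} (h : c.1 = a.1) : c = a ∨ c = bar a := by
  obtain ⟨i, x⟩ := a
  obtain ⟨j, w⟩ := c
  obtain rfl : j = i := h
  cases x <;> cases w <;> simp [bar]

theorem State2_hom (a : L) (g : F) : ∃ n : F →* F, n (lt a) = g * lt a ∧
    ∀ c : L, c.1 ≠ a.1 → n (lt c) = lt c := by
  obtain ⟨i, x⟩ := a
  refine ⟨FreeGroup.lift fun j => if j = i then
    (if x = true then g * FreeGroup.of j else FreeGroup.of j * g⁻¹) else FreeGroup.of j, ?_, ?_⟩
  · cases x
    · have : lt (i, false) = (FreeGroup.of i)⁻¹ := lt_bar (i, true)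
      simp [this]
    · simp [← State2_of]
  · rintro ⟨j, w⟩ h
    have h' : j ≠ i := h
    cases w
    · have : lt (j, false) = (FreeGroup.of j)⁻¹ := lt_bar (j, true)
      simp [this, h']
    · simp [← State2_of, h']

theorem State2_id {a : L} {n : F →* F} (h : n (lt a) = lt a)
    (h' : ∀ c : L, c.1 ≠ a.1 → n (lt c) = lt c) : n = MonoidHom.id F := by
  refine FreeGroup.ext_hom _ _ fun i => ?_
  rw [State2_of, MonoidHom.id_apply]
  by_cases c : i = a.1
  · rcases State2_fst (c := (i, true)) c with e | e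
    · rw [e, h]
    · rw [e, lt_bar, map_inv, h]
  · exact h' _ c

theorem State2_niel {a b : L} (h : b.1 ≠ a.1) : ∃ N : MulAut F, N (lt a) = (lt b)⁻¹ * lt a ∧
    ∀ c : L, c.1 ≠ a.1 → N (lt c) = lt c := by
  obtain ⟨n, n1, n2⟩ := State2_hom a (lt b)⁻¹
  obtain ⟨m, m1, m2⟩ := State2_hom a (lt b)
  refine ⟨MonoidHom.toMulEquiv n m (State2_id (a := a) ?_ fun c hc => ?_)
    (State2_id (a := a) ?_ fun c hc => ?_), n1, n2⟩
  · rw [MonoidHom.comp_apply, n1, map_mul, map_inv, m1, m2 b h, inv_mul_cancel_left]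
  · rw [MonoidHom.comp_apply, n2 c hc, m2 c hc]
  · rw [MonoidHom.comp_apply, m1, map_mul, n1, n2 b h, mul_inv_cancel_left]
  · rw [MonoidHom.comp_apply, m2 c hc, n2 c hc]

theorem State2_red {D : ℕ → ℕ} {y : ℕ → F} (h : Ok D y) {φ : MulAut F} {e : ℕ → L}
    (he : ∀ k, k < 12 → y k = φ (lt (e k))) : (φ⁻¹ r).toWord = (List.range 12).map e := by
  rw [← h.prod, State2_word 12 he, MulAut.inv_apply_self]
  refine toWord_mk_of_reduced ((isReduced_iff _).2 (List.isChain_iff_getElem.2 fun i hi => ?_))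
  have hi' : i + 1 < 12 := by simpa using hi
  simp only [List.getElem_map, List.getElem_range]
  intro c
  have := h.inv (k := i) (by omega)
  rw [he i (by omega), ← map_inv, ← lt_bar, ← c, ← he _ hi'] at this
  exact h.dg.ne1 i (by omega) (h.inj (h.dg.lt i (by omega)) hi' this)

theorem State2_surj {e : ℕ → L} (h : ∀ k j, k < 12 → j < 12 → e k = e j → k = j) (l : L) :
    ∃ k, k < 12 ∧ e k = l := by
  have b : Function.Bijective fun k : Fin 12 => e k :=
    (Fintype.bijective_iff_injective_and_card _).2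
      ⟨fun k j q => Fin.ext (h k j k.2 j.2 q), by simp⟩
  obtain ⟨k, hk⟩ := b.2 l
  exact ⟨k, k.2, hk⟩

theorem State2_perm {D : ℕ → ℕ} (hD : Dg D) {e e' : ℕ → L}
    (h : ∀ k j, k < 12 → j < 12 → e k = e j → k = j) (h1 : ∀ k, k < 12 → e (D k) = bar (e k))
    (h2 : ∀ k, k < 12 → e' (D k) = bar (e' k)) :
    ∃ σ : F →* F, ∀ k, k < 12 → σ (lt (e k)) = lt (e' k) := by
  choose κ k1 k2 using State2_surj h
  have key : ∀ k, k < 12 → (e k).2 = true →
      FreeGroup.lift (fun i => lt (e' (κ (i, true)))) (lt (e k)) = lt (e' k) := by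
    intro k hk q
    have a : e k = ((e k).1, true) := Prod.ext rfl q
    rw [a, ← State2_of, FreeGroup.lift_apply_of, ← a, h _ _ (k1 _) hk (k2 _)]
  refine ⟨FreeGroup.lift fun i => lt (e' (κ (i, true))), fun k hk => ?_⟩
  cases q : (e k).2
  · have := key (D k) (hD.lt k hk) (by rw [h1 k hk, bar, q]; rfl)
    rw [h1 k hk, h2 k hk, lt_bar, lt_bar, map_inv] at this
    exact inv_injective this
  · exact key k hk q

theorem State2_D0 : Dg D0 := by
  refine ⟨fun k hk => ?_, fun k => ?_, fun k hk => ?_, fun k hk => ?_, fun k hk => ?_⟩ <;>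
    unfold D0 <;> split_ifs <;> omega

theorem State2_inj : ∀ k j, k < 12 → j < 12 → e0 k = e0 j → k = j := by
  have : ∀ k, k < 12 → ∀ j, j < 12 → e0 k = e0 j → k = j := by decide
  exact fun k j hk hj => this k hk j hj

theorem State2_bar : ∀ k, k < 12 → e0 (D0 k) = bar (e0 k) := by decide

theorem ok_base : Ok D0 y0 := by
  have h : ∀ k, k < 12 → y0 k = (1 : MulAut F) (lt (e0 k)) := fun k hk => if_pos hk
  refine ⟨State2_D0, ?_, fun k hk => if_neg (by omega), 1, e0, h, State2_inj, State2_bar⟩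
  rw [State2_word 12 h, show (List.range 12).map e0 = rw0 by decide]
  rfl

theorem Ok.map {D : ℕ → ℕ} {y : ℕ → F} (h : Ok D y) (γ : Stab) :
    Ok D (fun k => (γ : MulAut F) (y k)) := by
  obtain ⟨φ, e, h1, h2, h3⟩ := h.free
  refine ⟨h.dg, ?_, fun k hk => by rw [h.out k hk, map_one], γ * φ, e,
    fun k hk => by rw [h1 k hk]; rfl, h2, h3⟩
  rw [State2_map, h.prod]
  exact γ.2

theorem ok_step {D : ℕ → ℕ} {y : ℕ → F} {v u : ℕ} (h : Ok D y) (ha : Adj D v u)
    (hD : Dg (sD D v u)) : Ok (sD D v u) (sY D y v u) := by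
  obtain ⟨n1, n2, n3, n4⟩ := ha.ne h.dg
  have hv := ha.1
  have hu := ha.2.1
  have dv := h.dg.lt v hv
  have du := h.dg.lt u hu
  have nv := h.dg.ne v hv
  have u1 : up D y v u v = (y u)⁻¹ * y v := if_pos rfl
  have u2 : up D y v u (D v) = (y v)⁻¹ * y u := by rw [up, if_neg nv, if_pos rfl]
  have u3 : ∀ k, k ≠ v → k ≠ D v → up D y v u k = y k := fun k a b => by
    rw [up, if_neg a, if_neg b]
  have iu := h.inv hu
  have iv := h.inv hv
  refine ⟨hD, ?_, fun k hk => ?_, ?_⟩
  · rw [← h.prod]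
    have ev : ∀ {m q : ℕ}, src D v u = m → dst D v u = q → ∀ i j, mv q m i = j →
        sY D y v u i = up D y v u j := fun hs hd i j e => by rw [sY, bw, hs, hd, e]
    by_cases c : D u + 1 = v
    · have hs : src D v u = D u := if_pos c
      by_cases c' : D u < D v
      · have hd : dst D v u = D v := by rw [dst, if_pos c, if_pos c']
        have ev := ev hs hd
        obtain ⟨t, ht⟩ : ∃ t, D v = t + 1 := ⟨D v - 1, by omega⟩
        refine State2_prod (s := D u) (t := t) (by omega) (by omega) (fun i a => ?_) ?_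
          (fun i a b => ?_) ?_ fun i a => ?_
        · rw [ev i i (by unfold mv; split_ifs <;> omega), u3 i (by omega) (by omega)]
        · rw [ev _ v (by unfold mv; split_ifs <;> omega), u1, c, iu]
        · rw [ev i (i + 1) (by unfold mv; split_ifs <;> omega), u3 _ (by omega) (by omega)]
        · rw [ev t (D v) (by unfold mv; split_ifs <;> omega),
            ev _ (D u) (by unfold mv; split_ifs <;> omega), u2, u3 _ n3 n4, ← ht, iu, iv,
            mul_inv_cancel_right]
        · rw [ev i i (by unfold mv; split_ifs <;> omega), u3 i (by omega) (by omega)]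
      · have hd : dst D v u = D v + 1 := by rw [dst, if_pos c, if_neg c']
        have ev := ev hs hd
        refine (State2_prod (s := D v) (t := D u) (by omega) (by omega) (fun i a => ?_) ?_
          (fun i a b => ?_) ?_ fun i a => ?_).symm
        · rw [ev i i (by unfold mv; split_ifs <;> omega), u3 i (by omega) (by omega)]
        · rw [ev (D v) (D v) (by unfold mv; split_ifs <;> omega),
            ev _ (D u) (by unfold mv; split_ifs <;> omega), u2, u3 _ n3 n4, iu, iv,
            mul_inv_cancel_right]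
        · rw [ev (i + 1) i (by unfold mv; split_ifs <;> omega), u3 _ (by omega) (by omega)]
        · rw [ev _ v (by unfold mv; split_ifs <;> omega), u1, c, iu]
        · rw [ev i i (by unfold mv; split_ifs <;> omega), u3 i (by omega) (by omega)]
    · have hs : src D v u = u := if_neg c
      have c1 : D v + 1 = u := ha.2.2.resolve_left c
      by_cases c' : u < v
      · have hd : dst D v u = v - 1 := by rw [dst, if_neg c, if_pos c']
        have ev := ev hs hd
        obtain ⟨t, ht⟩ : ∃ t, v = t + 1 := ⟨v - 1, by omega⟩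
        refine State2_prod (s := D v) (t := t) (by omega) (by omega) (fun i a => ?_) ?_
          (fun i a b => ?_) ?_ fun i a => ?_
        · rw [ev i i (by unfold mv; split_ifs <;> omega), u3 i (by omega) (by omega)]
        · rw [ev _ (D v) (by unfold mv; split_ifs <;> omega), u2, c1, iv]
        · rw [ev i (i + 1) (by unfold mv; split_ifs <;> omega), u3 _ (by omega) (by omega)]
        · rw [ev t u (by unfold mv; split_ifs <;> omega),
            ev _ v (by unfold mv; split_ifs <;> omega), u1, u3 _ n1 n2, ← ht, mul_inv_cancel_left]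
        · rw [ev i i (by unfold mv; split_ifs <;> omega), u3 i (by omega) (by omega)]
      · have hd : dst D v u = v := by rw [dst, if_neg c, if_neg c']
        have ev := ev hs hd
        refine (State2_prod (s := v) (t := D v) (by omega) (by omega) (fun i a => ?_) ?_
          (fun i a b => ?_) ?_ fun i a => ?_).symm
        · rw [ev i i (by unfold mv; split_ifs <;> omega), u3 i (by omega) (by omega)]
        · rw [ev v u (by unfold mv; split_ifs <;> omega),
            ev _ v (by unfold mv; split_ifs <;> omega), u1, u3 _ n1 n2, mul_inv_cancel_left]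
        · rw [ev (i + 1) i (by unfold mv; split_ifs <;> omega), u3 _ (by omega) (by omega)]
        · rw [ev _ (D v) (by unfold mv; split_ifs <;> omega), u2, c1, iv]
        · rw [ev i i (by unfold mv; split_ifs <;> omega), u3 i (by omega) (by omega)]
  · rw [sY, bw, mv_out (dst_lt h.dg ha) (src_lt h.dg ha) hk, u3 k (by omega) (by omega), h.out k hk]
  · obtain ⟨φ, e, h1, h2, h3⟩ := h.free
    have f : ∀ j, j < 12 → j ≠ v → j ≠ D v → (e j).1 ≠ (e v).1 := fun j a b c q => by
      rcases State2_fst q with q | q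
      · exact b (h2 j v a hv q)
      · exact c (h2 j _ a dv (q.trans (h3 v hv).symm))
    obtain ⟨N, N1, N2⟩ := State2_niel (f u hu n1 n2)
    have g : ∀ j, j < 12 → up D y v u j = φ (N (lt (e j))) := fun j hj => by
      by_cases a : j = v
      · rw [a, u1, N1, map_mul, map_inv, h1 u hu, h1 v hv]
      by_cases b : j = D v
      · rw [b, u2, h3 v hv, lt_bar, map_inv, N1, mul_inv_rev, inv_inv, map_mul, map_inv, h1 u hu,
          h1 v hv]
      · rw [u3 j a b, N2 _ (f j hj a b), h1 j hj]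
    refine ⟨φ * N, fun k => e (bw D v u k), fun k hk => g _ (bw_lt h.dg ha hk),
      fun k j hk hj q => ?_, fun k hk => ?_⟩
    · rw [← fw_bw D v u k, h2 _ _ (bw_lt h.dg ha hk) (bw_lt h.dg ha hj) q, fw_bw]
    · simp only [sD, bw_fw]
      exact h3 _ (bw_lt h.dg ha hk)

theorem rigid {D D' : ℕ → ℕ} {y y' : ℕ → F} (h : Ok D y) (h' : Ok D' y')
    (hr : ∀ k, k < 12 → ∃ j, j < 12 ∧ y' k = y j) : D' = D ∧ y' = y := by
  obtain ⟨φ, e, h1, h2, h3⟩ := h.free
  choose! τ t1 t2 using hr
  have a := (State2_red h h1).symm.trans (State2_red h' (e := fun k => e (τ k)) fun k hk => by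
    rw [t2 k hk, h1 _ (t1 k hk)])
  have b : y' = y := funext fun k => by
    rcases Nat.lt_or_ge k 12 with hk | hk
    · have := List.map_inj_left.1 a k (List.mem_range.2 hk)
      rw [t2 k hk, h1 _ (t1 k hk), h1 k hk, this]
    · rw [h.out k hk, h'.out k hk]
  subst b
  refine ⟨funext fun k => ?_, rfl⟩
  rcases Nat.lt_or_ge k 12 with hk | hk
  · exact h.inj (h'.dg.lt k hk) (h.dg.lt k hk) ((h'.inv hk).trans (h.inv hk).symm)
  · rw [h.dg.out k hk, h'.dg.out k hk]

theorem exists_stab {y : ℕ → F} (h : Ok D0 y) :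
    ∃ γ : Stab, ∀ k, y k = (γ : MulAut F) (y0 k) := by
  obtain ⟨φ, e, h1, h2, h3⟩ := h.free
  obtain ⟨σ, hσ⟩ := State2_perm h.dg State2_inj State2_bar h3
  obtain ⟨ρ, hρ⟩ := State2_perm h.dg h2 h3 State2_bar
  have a1 : ρ.comp σ = MonoidHom.id F := FreeGroup.ext_hom _ _ fun i => by
    obtain ⟨k, hk, q⟩ := State2_surj State2_inj (i, true)
    rw [State2_of, ← q, MonoidHom.comp_apply, hσ k hk, hρ k hk, MonoidHom.id_apply]
  have a2 : σ.comp ρ = MonoidHom.id F := FreeGroup.ext_hom _ _ fun i => by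
    obtain ⟨k, hk, q⟩ := State2_surj h2 (i, true)
    rw [State2_of, ← q, MonoidHom.comp_apply, hρ k hk, hσ k hk, MonoidHom.id_apply]
  obtain ⟨γ, hγ⟩ : ∃ γ : MulAut F, ∀ x, γ x = φ (σ x) :=
    ⟨φ * (MonoidHom.toMulEquiv σ ρ a1 a2 : MulAut F), fun _ => rfl⟩
  have b : y = fun k => γ (y0 k) := funext fun k => by
    rcases Nat.lt_or_ge k 12 with hk | hk
    · rw [hγ, h1 k hk, ← hσ k hk, y0, if_pos hk]
    · rw [h.out k hk, ok_base.out k hk, map_one]
  have c : γ r = r := by
    conv_lhs => rw [← ok_base.prod, ← State2_map, ← b, h.prod]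
  exact ⟨⟨γ, c⟩, congrFun b⟩

end Pool.Agent.IvT
end

-- merged part: Pool.Agent.Work.MP_497bf6_gt.Plan
section
/-! Plan. `pl_step`: the new vertex list is the old one with one vertex removed and one vertex `Q` inserted between `P y t`
and `P y (t+1)`, `t` the position paired with the removed side (`t = D v` in the first branch, `t = v` in the second).
`Q` is the image of the removed ear under the translation that glues the removed side to its partner, so `cyc_mul` gives
`Cyc (P y t) Q (P y (t+1))`, and with `th (P y t) < th (P y (t+1))` this puts `th Q` between them. Four cases as for the product in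
`ok_step`: compute `P (sY ..) i` by induction on `i`. `not_conf`: with `k = D v`, the sides `a, e, b` at `k, k+1, k+2` satisfy
`nu e, nu (a e) < nu a` and `nu e, nu (e b) < nu b`; `nu_cross` with `(u, v, w) = (e, a⁻¹, e b)` contradicts `planar_four` at the
vertices `k, .., k+3`. -/

namespace Pool.Agent.IvT

theorem plan_PB_aux {y z : ℕ → F} {a t : ℕ} {c d : F} (_hat : t < a)
    (h1 : ∀ p, p < t → z p = y p) (h2 : z t = c) (h3 : z (t + 1) = d) (hcd : c * d = y t)
    (h4 : ∀ p, t < p → p < a → z (p + 1) = y p) (i : ℕ) (hi : t < i) (hia : i ≤ a) :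
    P z (i + 1) = P y i := by
  have n1 : ∀ j, j ≤ t → P z j = P y j := by
    intro j
    induction j with
    | zero => exact fun _ => rfl
    | succ j ih => intro h; rw [P, P, ih (by omega), h1 j (by omega)]
  induction i with
  | zero => omega
  | succ i ih =>
    rcases Nat.lt_or_ge t i with k | k
    · rw [P, ih k (by omega), h4 i k (by omega)]; rfl
    · obtain rfl : i = t := by omega
      rw [P, P, n1 i le_rfl, h2, h3, mul_assoc, hcd]; rfl

theorem plan_PA {y z : ℕ → F} {a t : ℕ} {c d : F} (hat : a + 2 ≤ t)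
    (h1 : ∀ p, p < a → z p = y p) (h2 : z a = y a * y (a + 1))
    (h3 : ∀ p, a < p → p + 1 < t → z p = y (p + 1)) (h4 : ∀ p, p + 1 = t → z p = c)
    (h5 : z t = d) (hcd : c * d = y t) (h6 : ∀ p, t < p → z p = y p) (i : ℕ) :
    (i ≤ a → P z i = P y i) ∧ (a < i → i < t → P z i = P y (i + 1)) ∧
      (i = t → P z i = P y t * c) ∧ (t < i → P z i = P y i) := by
  induction i with
  | zero => exact ⟨fun _ => rfl, fun h => by omega, fun h => by omega, fun h => by omega⟩
  | succ i ih =>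
    obtain ⟨i1, i2, i3, i4⟩ := ih
    refine ⟨fun h => ?_, fun h h' => ?_, fun h => ?_, fun h => ?_⟩
    · rw [P, P, i1 (by omega), h1 i (by omega)]
    · rcases Nat.lt_or_ge a i with k | k
      · rw [P, i2 k (by omega), h3 i k h']; rfl
      · obtain rfl : i = a := by omega
        rw [P, i1 le_rfl, h2, P, P, mul_assoc]
    · rw [P, i2 (by omega) (by omega), h4 i h, h]
    · rcases Nat.lt_or_ge t i with k | k
      · rw [P, P, i4 k, h6 i k]
      · obtain rfl : i = t := by omega
        rw [P, P, i3 rfl, h5, mul_assoc, hcd]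

theorem plan_plA {y z : ℕ → F} {a t : ℕ} {c d : F} (hp : Pl y) (hat : a + 2 ≤ t) (ht : t < 12)
    (h1 : ∀ p, p < a → z p = y p) (h2 : z a = y a * y (a + 1))
    (h3 : ∀ p, a < p → p + 1 < t → z p = y (p + 1)) (h4 : ∀ p, p + 1 = t → z p = c)
    (h5 : z t = d) (hcd : c * d = y t) (h6 : ∀ p, t < p → z p = y p)
    (q1 : th (P y t) < th (P y t * c)) (q2 : th (P y t * c) < th (P y (t + 1))) : Pl z := by
  intro k hk
  obtain ⟨i1, i2, i3, i4⟩ := plan_PA hat h1 h2 h3 h4 h5 hcd h6 k
  obtain ⟨j1, j2, j3, j4⟩ := plan_PA hat h1 h2 h3 h4 h5 hcd h6 (k + 1)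
  rcases lt_trichotomy k a with b | b | b
  · rw [i1 b.le, j1 b]; exact hp k hk
  · subst b
    rw [i1 le_rfl, j2 (by omega) (by omega)]
    exact (hp k hk).trans (hp (k + 1) (by omega))
  · rcases lt_trichotomy (k + 1) t with e | e | e
    · rw [i2 b (by omega), j2 (by omega) e]; exact hp (k + 1) (by omega)
    · rw [i2 b (by omega), j3 e, e]; exact q1
    · rcases Nat.lt_or_ge t k with f | f
      · rw [i4 f, j4 e]; exact hp k hk
      · obtain rfl : k = t := by omega
        rw [i3 rfl, j4 e]; exact q2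

theorem plan_PB {y z : ℕ → F} {a t : ℕ} {c d : F} (hat : t < a)
    (h1 : ∀ p, p < t → z p = y p) (h2 : z t = c) (h3 : z (t + 1) = d) (hcd : c * d = y t)
    (h4 : ∀ p, t < p → p < a → z (p + 1) = y p) (h5 : z (a + 1) = y a * y (a + 1))
    (h6 : ∀ p, a + 1 < p → z p = y p) (i : ℕ) :
    (i ≤ t → P z i = P y i) ∧ (i = t → P z (i + 1) = P y t * c) ∧
      (t < i → i ≤ a → P z (i + 1) = P y i) ∧ (a + 1 < i → P z i = P y i) := by
  induction i with
  | zero =>
    refine ⟨fun _ => rfl, fun h => ?_, fun h => by omega, fun h => by omega⟩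
    subst h
    rw [P.eq_2 z 0, h2]; rfl
  | succ i ih =>
    obtain ⟨i1, i2, i3, i4⟩ := ih
    have n1 : i + 1 ≤ t → P z (i + 1) = P y (i + 1) := fun h => by
      rw [P, P, i1 (by omega), h1 i (by omega)]
    refine ⟨n1, fun h => ?_, fun h h' => ?_, fun h => ?_⟩
    · rw [P, n1 h.le, h, h2]
    · rcases Nat.lt_or_ge t i with k | k
      · rw [P, i3 k (by omega), h4 i k (by omega)]; rfl
      · obtain rfl : i = t := by omega
        rw [P, i2 rfl, h3, mul_assoc, hcd]; rfl
    · rcases Nat.lt_or_ge (a + 1) i with k | k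
      · rw [P, P, i4 k, h6 i k]
      · obtain rfl : i = a + 1 := by omega
        have := (plan_PB_aux hat h1 h2 h3 hcd h4 a hat le_rfl)
        rw [P, this, h5, P, P, mul_assoc]

theorem plan_plB {y z : ℕ → F} {a t : ℕ} {c d : F} (hp : Pl y) (hat : t < a) (ha : a + 1 < 12)
    (h1 : ∀ p, p < t → z p = y p) (h2 : z t = c) (h3 : z (t + 1) = d) (hcd : c * d = y t)
    (h4 : ∀ p, t < p → p < a → z (p + 1) = y p) (h5 : z (a + 1) = y a * y (a + 1))
    (h6 : ∀ p, a + 1 < p → z p = y p)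
    (q1 : th (P y t) < th (P y t * c)) (q2 : th (P y t * c) < th (P y (t + 1))) : Pl z := by
  intro k hk
  have H := plan_PB hat h1 h2 h3 hcd h4 h5 h6
  rcases lt_trichotomy k t with b | b | b
  · rw [(H k).1 b.le, (H (k + 1)).1 b]; exact hp k hk
  · subst b
    rw [(H k).1 le_rfl, (H k).2.1 rfl]; exact q1
  · obtain ⟨j, rfl⟩ : ∃ j, k = j + 1 := ⟨k - 1, by omega⟩
    rcases Nat.lt_or_ge t j with e | e
    · rcases lt_trichotomy j a with f | f | f
      · rw [(H j).2.2.1 e f.le, (H (j + 1)).2.2.1 b f]; exact hp j (by omega)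
      · subst f
        rw [(H j).2.2.1 e le_rfl, (H (j + 1 + 1)).2.2.2 (by omega)]
        exact (hp j (by omega)).trans (hp (j + 1) hk)
      · rw [(H (j + 1)).2.2.2 (by omega), (H (j + 1 + 1)).2.2.2 (by omega)]
        exact hp (j + 1) hk
    · obtain rfl : j = t := by omega
      rw [(H j).2.1 rfl, (H (j + 1)).2.2.1 b hat]; exact q2

theorem plan_ear {y : ℕ → F} (hp : Pl y) {a : ℕ} (ha : a + 1 < 12) (g : F) :
    Cyc (g * P y a) (g * P y (a + 1)) (g * P y (a + 1 + 1)) :=
  cyc_mul g (Or.inl ⟨hp a (by omega), hp (a + 1) ha⟩)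

theorem pl_step {D : ℕ → ℕ} {y : ℕ → F} {v u : ℕ} (h : Ok D y) (ha : Adj D v u) (hp : Pl y) :
    Pl (sY D y v u) := by
  have hD := h.dg
  obtain ⟨n1, n2, n3, n4⟩ := ha.ne hD
  obtain ⟨hv, hu, hc⟩ := ha
  have lv := hD.lt v hv
  have lu := hD.lt u hu
  have nv := hD.ne v hv
  have iv := h.inv hv
  have iu := h.inv hu
  by_cases b : D u + 1 = v
  · have hc := plan_ear hp (a := D u) (by omega) (P y (D v + 1) * (P y (D u + 1))⁻¹)
    have e1 : P y (D v + 1) * (P y (D u + 1))⁻¹ * P y (D u) = P y (D v) * ((y v)⁻¹ * y u) := by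
      rw [P, P, iv, iu]; group
    have e2 : P y (D v + 1) * (P y (D u + 1))⁻¹ * P y (D u + 1) = P y (D v + 1) := by group
    have e3 : P y (D v + 1) * (P y (D u + 1))⁻¹ * P y (D u + 1 + 1) = P y (D v) := by
      rw [P, P.eq_2 y (D u + 1), iv, b]; group
    rw [e1, e2, e3] at hc
    have q := hp (D v) lv
    have q12 : th (P y (D v)) < th (P y (D v) * ((y v)⁻¹ * y u)) ∧
        th (P y (D v) * ((y v)⁻¹ * y u)) < th (P y (D v + 1)) := by
      rcases hc with c | c | c
      · exact absurd c.2 (not_lt.2 q.le)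
      · exact absurd c.1 (not_lt.2 q.le)
      · exact c
    have hcd : (y v)⁻¹ * y u * y (D u) = y (D v) := by rw [iu, iv]; group
    by_cases o : D u < D v
    · have hs : ∀ p, sY D y v u p = up D y v u (mv (D v) (D u) p) := by
        intro p; simp only [sY, bw, src, dst, if_pos b, if_pos o]
      refine plan_plA (a := D u) (t := D v) (d := y (D u)) hp (by omega) lv ?_ ?_ ?_ ?_ ?_ hcd ?_
        q12.1 q12.2
      · intro p k
        have : mv (D v) (D u) p = p := by unfold mv; split_ifs <;> omega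
        rw [hs, this, up, if_neg (by omega), if_neg (by omega)]
      · have : mv (D v) (D u) (D u) = v := by unfold mv; split_ifs <;> omega
        rw [hs, this, up, if_pos rfl, b, iu]
      · intro p k k'
        have : mv (D v) (D u) p = p + 1 := by unfold mv; split_ifs <;> omega
        rw [hs, this, up, if_neg (by omega), if_neg (by omega)]
      · intro p k
        have : mv (D v) (D u) p = D v := by unfold mv; split_ifs <;> omega
        rw [hs, this, up, if_neg nv, if_pos rfl]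
      · have : mv (D v) (D u) (D v) = D u := by unfold mv; split_ifs <;> omega
        rw [hs, this, up, if_neg n3, if_neg n4]
      · intro p k
        have : mv (D v) (D u) p = p := by unfold mv; split_ifs <;> omega
        rw [hs, this, up, if_neg (by omega), if_neg (by omega)]
    · have hs : ∀ p, sY D y v u p = up D y v u (mv (D v + 1) (D u) p) := by
        intro p; simp only [sY, bw, src, dst, if_pos b, if_neg o]
      refine plan_plB (a := D u) (t := D v) (d := y (D u)) hp (by omega) (by omega) ?_ ?_ ?_ hcd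
        ?_ ?_ ?_ q12.1 q12.2
      · intro p k
        have : mv (D v + 1) (D u) p = p := by unfold mv; split_ifs <;> omega
        rw [hs, this, up, if_neg (by omega), if_neg (by omega)]
      · have : mv (D v + 1) (D u) (D v) = D v := by unfold mv; split_ifs <;> omega
        rw [hs, this, up, if_neg nv, if_pos rfl]
      · have : mv (D v + 1) (D u) (D v + 1) = D u := by unfold mv; split_ifs <;> omega
        rw [hs, this, up, if_neg n3, if_neg n4]
      · intro p k k'
        have : mv (D v + 1) (D u) (p + 1) = p := by unfold mv; split_ifs <;> omega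
        rw [hs, this, up, if_neg (by omega), if_neg (by omega)]
      · have : mv (D v + 1) (D u) (D u + 1) = v := by unfold mv; split_ifs <;> omega
        rw [hs, this, up, if_pos rfl, b, iu]
      · intro p k
        have : mv (D v + 1) (D u) p = p := by unfold mv; split_ifs <;> omega
        rw [hs, this, up, if_neg (by omega), if_neg (by omega)]
  · have b' : D v + 1 = u := hc.resolve_left b
    have hc := plan_ear hp (a := D v) (by omega) (P y v * (P y (D v + 1))⁻¹)
    have e1 : P y v * (P y (D v + 1))⁻¹ * P y (D v) = P y (v + 1) := by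
      rw [P, P, iv]; group
    have e2 : P y v * (P y (D v + 1))⁻¹ * P y (D v + 1) = P y v := by group
    have e3 : P y v * (P y (D v + 1))⁻¹ * P y (D v + 1 + 1) = P y v * y u := by
      rw [P.eq_2 y (D v + 1), b']; group
    rw [e1, e2, e3] at hc
    have q := hp v hv
    have q12 : th (P y v) < th (P y v * y u) ∧ th (P y v * y u) < th (P y (v + 1)) := by
      rcases hc with c | c | c
      · exact absurd c.1 (not_lt.2 q.le)
      · exact c
      · exact absurd c.2 (not_lt.2 q.le)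
    have hcd : y u * ((y u)⁻¹ * y v) = y v := by group
    by_cases o : u < v
    · have hs : ∀ p, sY D y v u p = up D y v u (mv (v - 1) u p) := by
        intro p; simp only [sY, bw, src, dst, if_neg b, if_pos o]
      refine plan_plA (a := D v) (t := v) (d := (y u)⁻¹ * y v) hp (by omega) hv ?_ ?_ ?_ ?_ ?_ hcd
        ?_ q12.1 q12.2
      · intro p k
        have : mv (v - 1) u p = p := by unfold mv; split_ifs <;> omega
        rw [hs, this, up, if_neg (by omega), if_neg (by omega)]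
      · have : mv (v - 1) u (D v) = D v := by unfold mv; split_ifs <;> omega
        rw [hs, this, up, if_neg nv, if_pos rfl, b', iv]
      · intro p k k'
        have : mv (v - 1) u p = p + 1 := by unfold mv; split_ifs <;> omega
        rw [hs, this, up, if_neg (by omega), if_neg (by omega)]
      · intro p k
        have : mv (v - 1) u p = u := by unfold mv; split_ifs <;> omega
        rw [hs, this, up, if_neg n1, if_neg n2]
      · have : mv (v - 1) u v = v := by unfold mv; split_ifs <;> omega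
        rw [hs, this, up, if_pos rfl]
      · intro p k
        have : mv (v - 1) u p = p := by unfold mv; split_ifs <;> omega
        rw [hs, this, up, if_neg (by omega), if_neg (by omega)]
    · have hs : ∀ p, sY D y v u p = up D y v u (mv v u p) := by
        intro p; simp only [sY, bw, src, dst, if_neg b, if_neg o]
      refine plan_plB (a := D v) (t := v) (d := (y u)⁻¹ * y v) hp (by omega) (by omega) ?_ ?_ ?_ hcd
        ?_ ?_ ?_ q12.1 q12.2
      · intro p k
        have : mv v u p = p := by unfold mv; split_ifs <;> omega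
        rw [hs, this, up, if_neg (by omega), if_neg (by omega)]
      · have : mv v u v = u := by unfold mv; split_ifs <;> omega
        rw [hs, this, up, if_neg n1, if_neg n2]
      · have : mv v u (v + 1) = v := by unfold mv; split_ifs <;> omega
        rw [hs, this, up, if_pos rfl]
      · intro p k k'
        have : mv v u (p + 1) = p := by unfold mv; split_ifs <;> omega
        rw [hs, this, up, if_neg (by omega), if_neg (by omega)]
      · have : mv v u (D v + 1) = D v := by unfold mv; split_ifs <;> omega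
        rw [hs, this, up, if_neg nv, if_pos rfl, b', iv]
      · intro p k
        have : mv v u p = p := by unfold mv; split_ifs <;> omega
        rw [hs, this, up, if_neg (by omega), if_neg (by omega)]

theorem not_conf {D : ℕ → ℕ} {y : ℕ → F} {v u v' u' : ℕ} (h : Ok D y) (hp : Pl y)
    (h1 : Down D y v u) (h2 : Down D y v' u') : ¬ Conf D v u v' u' := by
  rintro ⟨c1, c2, c3⟩
  obtain ⟨⟨hv, hu, -⟩, a1, a2⟩ := h1
  obtain ⟨⟨hv', hu', -⟩, b1, b2⟩ := h2
  have iv := h.inv hv
  have iu := h.inv hu'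
  rw [c2] at iu
  have iu' : y u' = (y u)⁻¹ := by rw [iu, inv_inv]
  rw [iu'] at b1 b2
  rw [nu_inv] at b1
  rw [inv_inv] at b2
  have e0 : (y u)⁻¹ * (y u * y v') = y v' := by group
  have hx := nu_cross (u := y u) (v := y v) (w := y u * y v') a2 a1 (by rw [e0]; exact b2)
    (by rw [e0]; exact b1)
  rw [e0] at hx
  have hf := planar_four (hp (D v) (by omega)) (hp (D v + 1) (by omega))
    (hp (D v + 1 + 1) (by omega))
  have e1 : (P y (D v))⁻¹ * P y (D v + 1) = (y v)⁻¹ := by rw [P, iv]; group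
  have e2 : (P y (D v + 1 + 1))⁻¹ * P y (D v + 1 + 1 + 1) = y v' := by
    rw [P.eq_2 y (D v + 1 + 1), c1, c3]; group
  have e3 : (P y (D v))⁻¹ * P y (D v + 1 + 1) = ((y u)⁻¹ * y v)⁻¹ := by
    rw [P, P, iv, c1]; group
  have e4 : (P y (D v + 1))⁻¹ * P y (D v + 1 + 1 + 1) = y u * y v' := by
    rw [P.eq_2 y (D v + 1 + 1), P.eq_2 y (D v + 1), c1, c3]; group
  rw [e1, e2, e3, e4, FreeGroup.norm_inv_eq, FreeGroup.norm_inv_eq] at hf
  omega

end Pool.Agent.IvT
end

-- merged part: Pool.Agent.Work.MP_497bf6_gt.Sink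
section
/-! Plan. For `k < 11` both `(k+1, D k)` and `(D k, k+1)` are `Adj`, so by `nu_um` the diagonal is the largest:
`nu (y k), nu (y (k+1)) < nu (y k * y (k+1))`. Put `Lf e a := a = 1 ∨ (nu a < nu (a e) ∧ nu e < nu (a e))`. From `nu_cross`:
`e ≠ 1 → Lf e a → Lf e⁻¹ b → gp e a⁻¹ + gp e⁻¹ b⁻¹ < norm e` (and `2 * gp e a⁻¹ ≤ norm e`). Let `c k = gp (y k) (y (k-1))⁻¹`, `c 0 = c 12 = 0`,
`α k = take (c k) (y k).toWord`. Then `(y k).toWord = α k ++ m k ++ invRev (α (k+1))` with `m k ≠ []`; `m 0 ++ .. ++ m 11` is reduced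
(`gp_drop`) and its product is `r`, so each `m k = [e0 k]`. For `j = D k` the same inequality for (left of `k`, left of `j`) and
(right of `k`, right of `j`) gives `c j = c (k+1)` and `c (j+1) = c k`, so comparing `y j = (y k)⁻¹` letter by letter,
`e0 j = bar (e0 k)`, hence `j = D0 k`; and `c (D0 k + 1) = c k` from `c 0 = 0` gives `c = 0` along the chain 0,3,2,1,4,7,6,5,8,11,10,9. -/

namespace Pool.Agent.IvT
open FreeGroup

/-- The product with the left neighbour is the largest side. -/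
def Lf (e a : F) : Prop := a = 1 ∨ (nu a < nu (a * e) ∧ nu e < nu (a * e))

theorem tri_max {a b : F} (ha : a ≠ 1) (hb : b ≠ 1) (hab : a * b ≠ 1)
    (h1 : ¬ (nu a < nu b ∧ nu (a * b) < nu b)) (h2 : ¬ (nu b < nu a ∧ nu (a * b) < nu a)) :
    nu a < nu (a * b) ∧ nu b < nu (a * b) := by
  have e1 : nu a = nu b → nu (a * b) ≤ nu a → False := fun x y =>
    hab (nu_um (v := a) (by rw [show (a * b)⁻¹ * a = b⁻¹ by group, nu_inv, x]) y)
  have e2 : nu (a * b) = nu b → nu a ≤ nu b → False := fun x y =>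
    ha (inv_eq_one.1 (nu_um (u := a⁻¹) (v := b) (by rw [inv_inv, x]) (by rwa [nu_inv])))
  have e3 : nu (a * b) = nu a → nu b ≤ nu a → False := fun x y =>
    hb (nu_um (v := a⁻¹) (by rw [← mul_inv_rev, nu_inv, nu_inv, x]) (by rwa [nu_inv]))
  have f1 : ¬ (nu a = nu b ∧ nu (a * b) ≤ nu a) := fun x => e1 x.1 x.2
  have f2 : ¬ (nu (a * b) = nu b ∧ nu a ≤ nu b) := fun x => e2 x.1 x.2
  have f3 : ¬ (nu (a * b) = nu a ∧ nu b ≤ nu a) := fun x => e3 x.1 x.2
  omega

theorem gp_one (e : F) : gp e 1 = 0 := by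
  have := gp_le_right e 1
  rwa [FreeGroup.norm_one, Nat.le_zero] at this

theorem Lf.half {e a : F} (h : Lf e a) : 2 * gp e a⁻¹ ≤ e.norm := by
  rcases h with rfl | h
  · simp [gp_one]
  · have h1 := norm_gp a⁻¹ e
    have h2 := norm_le_of_nu_le h.1.le
    rw [inv_inv, norm_inv_eq, gp_comm] at h1
    omega

theorem Lf.sum {e a b : F} (he : e ≠ 1) (ha : Lf e a) (hb : Lf e⁻¹ b) :
    gp e a⁻¹ + gp e⁻¹ b⁻¹ < e.norm := by
  have h0 : 0 < e.norm := Nat.pos_of_ne_zero fun h => he (norm_eq_zero.1 h)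
  have h1 := ha.half
  have h2 := hb.half
  rw [norm_inv_eq] at h2
  rcases ha with rfl | ha
  · rw [inv_one, gp_one]
    omega
  rcases hb with rfl | hb
  · rw [inv_one, gp_one]
    omega
  have e1 : (e⁻¹)⁻¹ * (a * e)⁻¹ = a⁻¹ := by group
  have e2 : (e⁻¹)⁻¹ * b⁻¹ = (b * e⁻¹)⁻¹ := by group
  have h3 := nu_cross (u := e⁻¹) (v := (a * e)⁻¹) (w := b⁻¹)
    (by rw [e1, nu_inv, nu_inv]; exact ha.1) (by rw [nu_inv, nu_inv]; exact ha.2)
    (by rw [e2, nu_inv, nu_inv]; exact hb.1) (by rw [e2, nu_inv (b * e⁻¹)]; exact hb.2)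
  rw [e1, e2, norm_inv_eq, norm_inv_eq, norm_inv_eq, norm_inv_eq] at h3
  have h4 := norm_gp a⁻¹ e
  have h5 := norm_gp b⁻¹ e⁻¹
  rw [inv_inv, norm_inv_eq, gp_comm] at h4
  rw [inv_inv, norm_inv_eq, norm_inv_eq, gp_comm] at h5
  omega

/-- The left neighbour. -/
def lnb (y : ℕ → F) : ℕ → F
  | 0 => 1
  | k + 1 => y k
/-- The cancellation at a vertex. -/
def cnc (y : ℕ → F) (k : ℕ) : ℕ := gp (y k) (lnb y k)⁻¹
/-- The cancelled word. -/
def al (y : ℕ → F) (k : ℕ) : List L := (y k).toWord.take (cnc y k)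
/-- The concatenation of the middle parts. -/
def cat (m : ℕ → List L) : ℕ → List L
  | 0 => []
  | k + 1 => cat m k ++ m k

theorem al_len (y : ℕ → F) (k : ℕ) : (al y k).length = cnc y k := by
  rw [al, List.length_take, min_eq_left]
  exact gp_le_left _ _

theorem split_word {y : ℕ → F} {k : ℕ} (h : cnc y k + cnc y (k + 1) < (y k).norm) :
    ∃ m : List L, m ≠ [] ∧ (y k).toWord = al y k ++ m ++ invRev (al y (k + 1)) := by
  have e1 : al y (k + 1) = (invRev (y k).toWord).take (cnc y (k + 1)) := by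
    rw [al, ← toWord_inv]
    exact gp_take _ _
  have e2 : (y k).toWord = invRev ((invRev (y k).toWord).drop (cnc y (k + 1))) ++
      invRev (al y (k + 1)) := by
    rw [e1, ← invRev_append, List.take_append_drop, invRev_invRev]
  generalize invRev ((invRev (y k).toWord).drop (cnc y (k + 1))) = t at e2
  have e3 : t.length + cnc y (k + 1) = (y k).norm := by
    rw [norm_def, e2, List.length_append, invRev_length, al_len]
  have e4 : al y k = t.take (cnc y k) := by
    rw [al, e2, List.take_append_of_le_length (by omega)]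
  refine ⟨t.drop (cnc y k), fun e => ?_, by rw [e4, List.take_append_drop]; exact e2⟩
  rw [List.drop_eq_nil_iff] at e
  omega

theorem cat_len {m : ℕ → List L} {n : ℕ} (h : ∀ k, k < n → m k ≠ []) (k : ℕ) :
    ∀ i, k + i ≤ n → ∃ t, cat m (k + i) = cat m k ++ t ∧ i ≤ t.length
  | 0, _ => ⟨[], by simp, le_rfl⟩
  | i + 1, hi => by
    obtain ⟨t, e, ht⟩ := cat_len h k i (by omega)
    have := List.length_pos_iff.2 (h (k + i) (by omega))
    refine ⟨t ++ m (k + i), by rw [← add_assoc, cat, e, List.append_assoc], ?_⟩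
    rw [List.length_append]
    omega

theorem cat_mid {m : ℕ → List L} (h : ∀ k, k < 12 → m k ≠ []) (e : cat m 12 = rw0) {k : ℕ}
    (hk : k < 12) : m k = [e0 k] := by
  obtain ⟨t, e1, h1⟩ := cat_len h 0 k (by omega)
  obtain ⟨s, e2, h2⟩ := cat_len h (k + 1) (11 - k) (by omega)
  rw [zero_add, cat, List.nil_append] at e1
  rw [show k + 1 + (11 - k) = 12 by omega, e, cat, e1] at e2
  have h3 := List.length_pos_iff.2 (h k hk)
  have h4 : (t ++ m k ++ s).length = 12 := e2 ▸ rfl
  simp only [List.length_append] at h4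
  obtain ⟨a, ha⟩ := List.length_eq_one_iff.1 (show (m k).length = 1 by omega)
  rw [ha, e0, e2, ha, List.append_assoc, List.getD_append_right _ _ _ _ (by omega),
    show k - t.length = 0 by omega]
  rfl

theorem e0_bar : ∀ k, k < 12 → ∀ j, j < 12 → e0 j = bar (e0 k) → j = D0 k := by decide

theorem sink {D : ℕ → ℕ} {y : ℕ → F} (h : Ok D y) (hs : ∀ v u, ¬ Down D y v u) :
    D = D0 ∧ y = y0 := by
  have hD := h.dg
  have tri : ∀ k, k < 11 → nu (y k) < nu (y k * y (k + 1)) ∧
      nu (y (k + 1)) < nu (y k * y (k + 1)) := fun k hk => by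
    have i1 := h.inv (show k < 12 by omega)
    have a1 : Adj D (k + 1) (D k) := ⟨by omega, hD.lt k (by omega), Or.inl (by rw [hD.inv])⟩
    refine tri_max (h.ne_one (by omega)) (h.ne_one (by omega)) (fun e => ?_) (fun e => ?_)
      (fun e => ?_)
    · refine hD.ne1 k (by omega) (h.inj (hD.lt k (by omega)) (by omega) ?_)
      rw [i1]
      exact inv_eq_of_mul_eq_one_right e
    · exact hs _ _ ⟨a1, by rw [i1, nu_inv]; exact e.1, by rw [i1, inv_inv]; exact e.2⟩
    · exact hs _ _ ⟨a1.symm, by rw [i1, nu_inv]; exact e.1,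
        by rw [i1, ← mul_inv_rev, nu_inv, nu_inv]; exact e.2⟩
  have lf : ∀ k, k < 12 → Lf (y k) (lnb y k) := fun k hk => by
    cases k with
    | zero => exact Or.inl rfl
    | succ k => exact Or.inr (tri k (by omega))
  have rf : ∀ k, k < 12 → Lf (y k)⁻¹ (y (k + 1))⁻¹ := fun k hk => by
    by_cases h11 : k < 11
    · refine Or.inr ?_
      rw [← mul_inv_rev, nu_inv, nu_inv, nu_inv]
      exact (tri k h11).symm
    · exact Or.inl (by rw [h.out _ (by omega), inv_one])
  have cs : ∀ k, gp (y k)⁻¹ (y (k + 1))⁻¹⁻¹ = cnc y (k + 1) := fun k => by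
    rw [inv_inv, gp_comm]
    rfl
  have c0 : cnc y 0 = 0 := by rw [cnc, lnb, inv_one, gp_one]
  have c12 : cnc y 12 = 0 := by rw [cnc, h.out 12 le_rfl, gp_comm, gp_one]
  have hsp : ∀ k, ∃ m : List L, k < 12 →
      m ≠ [] ∧ (y k).toWord = al y k ++ m ++ invRev (al y (k + 1)) := fun k => by
    by_cases hk : k < 12
    · have := Lf.sum (h.ne_one hk) (lf k hk) (rf k hk)
      rw [cs] at this
      obtain ⟨m, hm⟩ := split_word this
      exact ⟨m, fun _ => hm⟩
    · exact ⟨[], fun e => absurd e hk⟩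
  choose m hm using hsp
  have hred : ∀ k, k < 12 → (m k).IsChain fun a b => b ≠ bar a := fun k hk => by
    have := (isReduced_iff _).1 (isReduced_toWord (x := y k))
    rw [(hm k hk).2] at this
    exact this.left_of_append.right_of_append
  have hP : ∀ k, k ≤ 12 → P y k = FreeGroup.mk (cat m k) * (FreeGroup.mk (al y k))⁻¹ := by
    intro k
    induction k with
    | zero => intro _; simp [P, cat, al, c0, ← one_eq_mk]
    | succ k ih =>
      intro hk
      rw [P, ih (by omega), cat, ← mul_mk]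
      conv_lhs => rw [← mk_toWord (x := y k), (hm k hk).2, ← mul_mk, ← mul_mk, ← inv_mk]
      group
  have hC : ∀ k, k < 12 → (cat m (k + 1)).IsChain fun a b => b ≠ bar a := by
    intro k
    induction k with
    | zero => intro hk; simpa [cat] using hred 0 hk
    | succ k ih =>
      intro hk
      refine List.IsChain.append (ih (by omega)) (hred _ hk) fun a ha b hb => ?_
      obtain ⟨n1, e1⟩ := hm k (by omega)
      obtain ⟨n2, e2⟩ := hm (k + 1) hk
      rw [cat, List.getLast?_append_of_ne_nil _ n1] at ha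
      obtain ⟨s, hs'⟩ := List.getLast?_eq_some_iff.1 ha
      obtain ⟨t, ht⟩ := List.head?_eq_some_iff.1 hb
      refine gp_drop (y (k + 1)) (y k)⁻¹ b (bar a) ?_ ?_
      · change ((y (k + 1)).toWord.drop (cnc y (k + 1))).head? = _
        rw [e2, List.append_assoc, List.drop_left' (al_len _ _), ht]
        rfl
      · change ((y k)⁻¹.toWord.drop (cnc y (k + 1))).head? = _
        rw [toWord_inv, e1, invRev_append, invRev_invRev, List.drop_left' (al_len _ _), hs',
          ← List.append_assoc, invRev_append]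
        rfl
  have hcat : cat m 12 = rw0 := by
    have e := hP 12 le_rfl
    rw [h.prod, al, c12, List.take_zero, ← one_eq_mk, inv_one, mul_one] at e
    rw [← toWord_mk_of_reduced ((isReduced_iff _).2 (hC 11 (by omega))), ← e]
    rfl
  have hw : ∀ k, k < 12 → (y k).toWord = al y k ++ [e0 k] ++ invRev (al y (k + 1)) := fun k hk => by
    rw [← cat_mid (fun k hk => (hm k hk).1) hcat hk]
    exact (hm k hk).2
  have hn : ∀ k, k < 12 → (y k).norm = cnc y k + 1 + cnc y (k + 1) := fun k hk => by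
    rw [norm_def, hw k hk]
    simp only [List.length_append, invRev_length, al_len, List.length_singleton]
  have key : ∀ k, k < 12 → D k = D0 k ∧ cnc y (D0 k + 1) = cnc y k := fun k hk => by
    have hj := hD.lt k hk
    have i1 := h.inv hk
    have s1 := Lf.sum (h.ne_one hk) (lf k hk) (i1 ▸ lf _ hj)
    have s2 := Lf.sum (inv_ne_one.2 (h.ne_one hk)) (rf k hk) (i1 ▸ rf _ hj)
    rw [cs, norm_inv_eq, ← i1, cs] at s2
    rw [← i1] at s1
    change cnc y k + cnc y (D k) < _ at s1
    have n1 := hn k hk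
    have n2 := hn _ hj
    rw [i1, norm_inv_eq] at n2
    have w1 := hw _ hj
    rw [i1, toWord_inv, hw k hk, invRev_append, invRev_append, invRev_invRev,
      List.append_assoc (al y (D k))] at w1
    have w2 := (List.append_inj w1 (by rw [al_len, al_len]; omega)).2
    have w3 : D k = D0 k := e0_bar k hk _ hj (List.cons.inj w2).1.symm
    exact ⟨w3, by rw [← w3]; omega⟩
  have cz : ∀ k, k ≤ 12 → cnc y k = 0 := by
    have a0 : cnc y 3 = cnc y 0 := (key 0 (by omega)).2
    have a1 : cnc y 4 = cnc y 1 := (key 1 (by omega)).2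
    have a2 : cnc y 1 = cnc y 2 := (key 2 (by omega)).2
    have a3 : cnc y 2 = cnc y 3 := (key 3 (by omega)).2
    have a4 : cnc y 7 = cnc y 4 := (key 4 (by omega)).2
    have a5 : cnc y 8 = cnc y 5 := (key 5 (by omega)).2
    have a6 : cnc y 5 = cnc y 6 := (key 6 (by omega)).2
    have a7 : cnc y 6 = cnc y 7 := (key 7 (by omega)).2
    have a8 : cnc y 11 = cnc y 8 := (key 8 (by omega)).2
    have a10 : cnc y 9 = cnc y 10 := (key 10 (by omega)).2
    have a11 : cnc y 10 = cnc y 11 := (key 11 (by omega)).2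
    intro k hk
    interval_cases k <;> omega
  refine ⟨funext fun k => ?_, funext fun k => ?_⟩
  · by_cases hk : k < 12
    · exact (key k hk).1
    · rw [hD.out k (by omega), D0, if_neg hk]
  · by_cases hk : k < 12
    · rw [y0, if_pos hk, ← mk_toWord (x := y k), hw k hk, al, al, cz k hk.le, cz (k + 1) hk]
      rfl
    · rw [h.out k (by omega), y0, if_neg hk]

theorem base_sink (v u : ℕ) : ¬ Down D0 y0 v u := by
  rintro ⟨⟨hv, hu, -⟩, h, -⟩
  have e : ∀ l : L, nu (lt l) = 48 := fun l => by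
    simp [nu, norm_lt, rk]
  rw [y0, y0, if_pos hv, if_pos hu, e, e] at h
  exact lt_irrefl _ h

end Pool.Agent.IvT
end

-- merged part: Pool.Agent.Work.MP_497bf6_gt.Track
section
/-! Tracking of positions along a list of slides; values along descending paths. -/

namespace Pool.Agent.IvT

theorem up_v (D : ℕ → ℕ) (y : ℕ → F) (v u : ℕ) : up D y v u v = (y u)⁻¹ * y v := by
  simp [up]
theorem up_Dv {D : ℕ → ℕ} (y : ℕ → F) {v : ℕ} (u : ℕ) (h : D v ≠ v) :
    up D y v u (D v) = (y v)⁻¹ * y u := by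
  simp [up, h]
theorem up_ne {D : ℕ → ℕ} (y : ℕ → F) {v k : ℕ} (u : ℕ) (h : k ≠ v) (h' : k ≠ D v) :
    up D y v u k = y k := by
  simp [up, h, h']

/-- The current state `(D, y)` seen through the first pairing `B`. -/
structure Trk (B : ℕ → ℕ) (Y : ℕ → F) (D f : ℕ → ℕ) (y : ℕ → F) : Prop where
  lt : ∀ p, p < 12 → f p < 12
  out : ∀ p, 12 ≤ p → f p = p
  inj : ∀ p q, f p = f q → p = q
  surj : ∀ k, k < 12 → ∃ p, p < 12 ∧ f p = k
  val : ∀ p, y (f p) = Y p
  pair : ∀ p, D (f p) = f (B p)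

theorem Trk.refl (D : ℕ → ℕ) (y : ℕ → F) : Trk D y D id y :=
  ⟨fun _ h => h, fun _ _ => rfl, fun _ _ h => h, fun k h => ⟨k, h, rfl⟩, fun _ => rfl, fun _ => rfl⟩

theorem Trk.step {B D f : ℕ → ℕ} {Y y : ℕ → F} (t : Trk B Y D f y) (hD : Dg D) {v u : ℕ}
    (ha : Adj D (f v) (f u)) : Trk B (up B Y v u) (sD D (f v) (f u))
      (fun p => fw D (f v) (f u) (f p)) (sY D y (f v) (f u)) where
  lt p hp := fw_lt hD ha (t.lt p hp)
  out p hp := by
    rw [t.out p hp]; exact mv_out (src_lt hD ha) (dst_lt hD ha) hp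
  inj p q h := by
    have := congrArg (bw D (f v) (f u)) h
    simp only [bw_fw] at this
    exact t.inj p q this
  surj k hk := by
    obtain ⟨p, hp, e⟩ := t.surj _ (bw_lt hD ha hk)
    exact ⟨p, hp, by rw [e, fw_bw]⟩
  val p := by
    simp only [sY, bw_fw, up, t.val, t.pair]
    by_cases h1 : p = v
    · simp [h1]
    · have h1' : f p ≠ f v := fun e => h1 (t.inj _ _ e)
      by_cases h2 : p = B v
      · subst h2; simp [h1, h1']
      · have h2' : f p ≠ f (B v) := fun e => h2 (t.inj _ _ e)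
        simp [h1, h1', h2, h2']
  pair p := by simp only [sD, bw_fw, t.pair]

theorem Trk.mu_eq {B D f : ℕ → ℕ} {Y y : ℕ → F} (t : Trk B Y D f y) : mu y = mu Y := by
  unfold mu
  symm
  refine Finset.sum_bij (fun p _ => f p) ?_ ?_ ?_ ?_
  · intro a ha; simpa using t.lt a (by simpa using ha)
  · intro a _ b _ h; exact t.inj a b h
  · intro b hb
    obtain ⟨p, hp, e⟩ := t.surj b (by simpa using hb)
    exact ⟨p, by simpa using hp, e⟩
  · intro a _; rw [t.val]

theorem Trk.close {B D D' f f' : ℕ → ℕ} {Y Y' y y' : ℕ → F} (t : Trk B Y D f y)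
    (t' : Trk B Y' D' f' y') (h : Ok D y) (h' : Ok D' y')
    (hr : ∀ p, p < 12 → ∃ q, q < 12 ∧ Y' p = Y q) : D' = D ∧ y' = y := by
  refine rigid h h' fun k hk => ?_
  obtain ⟨p, hp, rfl⟩ := t'.surj k hk
  obtain ⟨q, hq, e⟩ := hr p hp
  exact ⟨f q, t.lt q hq, by rw [t'.val, t.val, e]⟩

/-- Unchanged or smaller than the side `t`. -/
def Lw0 (y : ℕ → F) (t : ℕ) (z : ℕ → F) : Prop :=
  ∀ k, k < 12 → z k = y k ∨ nu (z k) < nu (y t)
/-- Unchanged or smaller than the side `t`, which is gone. -/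
def Lw (y : ℕ → F) (t : ℕ) (z : ℕ → F) : Prop :=
  ∀ k, k < 12 → (z k = y k ∧ k ≠ t) ∨ nu (z k) < nu (y t)

theorem nu_swap (a b : F) : nu (a⁻¹ * b) = nu (b⁻¹ * a) := by
  rw [← nu_inv]; simp

theorem Lw0.refl (y : ℕ → F) (t : ℕ) : Lw0 y t y := fun _ _ => Or.inl rfl
theorem Lw0.up {y z : ℕ → F} {t : ℕ} (h : Lw0 y t z) (D : ℕ → ℕ) (v u : ℕ)
    (hn : nu ((z u)⁻¹ * z v) < nu (y t)) : Lw0 y t (up D z v u) := by
  intro k hk
  unfold IvT.up
  split_ifs
  · exact Or.inr hn
  · exact Or.inr (by rwa [nu_swap])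
  · exact h k hk
theorem Lw0.top {y z : ℕ → F} {t : ℕ} (h : Lw0 y t z) (D : ℕ → ℕ) (u : ℕ)
    (hn : nu ((z u)⁻¹ * z t) < nu (y t)) : Lw y t (IvT.up D z t u) := by
  intro k hk
  unfold IvT.up
  split_ifs with h1 h2
  · exact Or.inr hn
  · exact Or.inr (by rwa [nu_swap])
  · exact (h k hk).imp (fun e => ⟨e, h1⟩) id
theorem Lw.up {y z : ℕ → F} {t : ℕ} (h : Lw y t z) (D : ℕ → ℕ) (v u : ℕ)
    (hn : nu ((z u)⁻¹ * z v) < nu (y t)) : Lw y t (up D z v u) := by
  intro k hk
  unfold IvT.up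
  split_ifs
  · exact Or.inr hn
  · exact Or.inr (by rwa [nu_swap])
  · exact h k hk
theorem Lw.mu {y z : ℕ → F} {t : ℕ} (h : Lw y t z) (ht : t < 12) : mu z < mu y := mu_lt ht h

theorem Down.mu_up {D : ℕ → ℕ} {y : ℕ → F} {v u : ℕ} (h : Down D y v u) :
    mu (up D y v u) < mu y := ((Lw0.refl y v).top D u h.2.2).mu h.1.1
theorem Down.mu_sY {D : ℕ → ℕ} {y : ℕ → F} {v u : ℕ} (h : Down D y v u) (hD : Dg D) :
    mu (sY D y v u) < mu y := by
  rw [IvT.mu_sY y hD h.1]; exact h.mu_up

variable {G : Type} [Group G] (S : Sys G)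

/-- Valid states with a pairing in the table. -/
def St (D : ℕ → ℕ) (y : ℕ → F) : Prop := D ∈ S.T ∧ Ok D y

/-- Values along descending paths to the base state. -/
inductive Vl : (ℕ → ℕ) → (ℕ → F) → G → Prop
  | base : Vl D0 y0 1
  | step {D : ℕ → ℕ} {y : ℕ → F} {v u : ℕ} {h : G} : Down D y v u →
      Vl (sD D v u) (sY D y v u) h → Vl D y (h * (S.g D v u)⁻¹)

/-- Uniqueness of the value. -/
def Un (D : ℕ → ℕ) (y : ℕ → F) : Prop := ∀ h h', Vl S D y h → Vl S D y h' → h = h'

variable {S}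

theorem St.step {D : ℕ → ℕ} {y : ℕ → F} (h : St S D y) {v u : ℕ} (ha : Adj D v u) :
    St S (sD D v u) (sY D y v u) :=
  ⟨S.closed D h.1 v u ha, ok_step h.2 ha (S.dg _ (S.closed D h.1 v u ha))⟩

theorem St.induct {C : (ℕ → ℕ) → (ℕ → F) → Prop} (h0 : C D0 y0)
    (h1 : ∀ D y v u, St S D y → Down D y v u → C (sD D v u) (sY D y v u) → C D y) :
    ∀ D y, St S D y → C D y := by
  suffices H : ∀ n D y, mu y = n → St S D y → C D y from fun D y => H _ D y rfl
  intro n
  induction n using Nat.strong_induction_on with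
  | _ n ih =>
    rintro D y rfl h
    by_cases hs : ∀ v u, ¬ Down D y v u
    · obtain ⟨rfl, rfl⟩ := sink h.2 hs
      exact h0
    · push Not at hs
      obtain ⟨v, u, hd⟩ := hs
      exact h1 D y v u h hd (ih _ (hd.mu_sY h.2.dg) _ _ rfl (h.step hd.1))

theorem exists_vl : ∀ D y, St S D y → ∃ h, Vl S D y h :=
  St.induct ⟨1, Vl.base⟩ fun _ _ _ _ _ hd ⟨_, hv⟩ => ⟨_, Vl.step hd hv⟩

theorem rev_step {D : ℕ → ℕ} {y : ℕ → F} (h : St S D y) {v u : ℕ} (ha : Adj D v u) :
    Adj (sD D v u) (fw D v u v) (fw D v u (D u)) ∧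
    sD (sD D v u) (fw D v u v) (fw D v u (D u)) = D ∧
    sY (sD D v u) (sY D y v u) (fw D v u v) (fw D v u (D u)) = y ∧
    S.g D v u * S.g (sD D v u) (fw D v u v) (fw D v u (D u)) = 1 := by
  obtain ⟨⟨_, a2, _⟩, _, hg⟩ := S.cInv D h.1 v u ha
  have a2 : Adj (sD D v u) (fw D v u v) (fw D v u (D u)) := a2
  have t1 := (Trk.refl D y).step h.2.dg (v := v) (u := u) ha
  have s1 := h.step ha
  have t2 := t1.step s1.2.dg (v := v) (u := D u) a2
  obtain ⟨n1, n2, n3, n4⟩ := ha.ne h.2.dg
  have c := (Trk.refl D y).close t2 h.2 (s1.step a2).2 fun p hp => ⟨p, hp, by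
    have hv := h.2.dg.ne v ha.1
    by_cases h1 : p = v
    · rw [h1, up_v, up_v, up_ne _ _ n3 n4, h.2.inv ha.2.1]; group
    · by_cases h2 : p = D v
      · rw [h2, up_Dv _ _ hv, up_v, up_ne _ _ n3 n4, h.2.inv ha.2.1, h.2.inv ha.1]; group
      · rw [up_ne _ _ h1 h2, up_ne _ _ h1 h2]⟩
  exact ⟨a2, c.1, c.2, by simpa [run] using hg⟩

theorem tri_step {D : ℕ → ℕ} {y : ℕ → F} (h : St S D y) {v u : ℕ} (ha : Adj D v u) :
    Adj (sD D v u) (fw D v u (D u)) (fw D v u v) ∧
    sD (sD D v u) (fw D v u (D u)) (fw D v u v) = sD D u v ∧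
    sY (sD D v u) (sY D y v u) (fw D v u (D u)) (fw D v u v) = sY D y u v ∧
    S.g D v u * S.g (sD D v u) (fw D v u (D u)) (fw D v u v) = S.g D u v := by
  obtain ⟨⟨_, a2, _⟩, _, hg⟩ := S.cTri D h.1 v u ha
  have a2 : Adj (sD D v u) (fw D v u (D u)) (fw D v u v) := a2
  have t1 := (Trk.refl D y).step h.2.dg (v := v) (u := u) ha
  have s1 := h.step ha
  have t2 := t1.step s1.2.dg (v := D u) (u := v) a2
  have t3 := (Trk.refl D y).step h.2.dg (v := u) (u := v) ha.symm
  obtain ⟨n1, n2, n3, n4⟩ := ha.ne h.2.dg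
  have hD := h.2.dg
  have hv := hD.ne v ha.1
  have hu := hD.ne u ha.2.1
  have c := t3.close t2 (h.step ha.symm).2 (s1.step a2).2 fun p hp => by
    have e1 : up D y v u (D u) = (y u)⁻¹ := by rw [up_ne _ _ n3 n4, h.2.inv ha.2.1]
    have hu' : D (D u) ≠ D u := hD.ne _ (hD.lt u ha.2.1)
    by_cases h1 : p = D u
    · refine ⟨D v, hD.lt v ha.1, ?_⟩
      rw [h1, up_v, up_v, e1, up_ne _ _ n2.symm n4.symm, h.2.inv ha.1]; group
    · by_cases h2 : p = D (D u)
      · refine ⟨v, ha.1, ?_⟩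
        rw [h2, up_Dv _ _ hu', up_v, e1, up_ne _ _ n1.symm n3.symm]; group
      · rw [up_ne _ _ h1 h2]
        by_cases h3 : p = v
        · refine ⟨D u, hD.lt u ha.2.1, ?_⟩
          rw [h3, up_v, up_Dv _ _ hu]
        · by_cases h4 : p = D v
          · refine ⟨u, ha.2.1, ?_⟩
            rw [h4, up_Dv _ _ hv, up_v]
          · rw [hD.inv] at h2
            exact ⟨p, hp, by rw [up_ne _ _ h3 h4, up_ne _ _ h2 h1]⟩
  exact ⟨a2, c.1, c.2, by simpa [run] using hg⟩

theorem St.pl : ∀ D y, St S D y → Pl y := by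
  refine St.induct pl_y0 fun D y v u h hd hp => ?_
  obtain ⟨a, _, e, _⟩ := rev_step h hd.1
  rw [← e]
  exact pl_step (h.step hd.1).2 a hp

theorem edge {D : ℕ → ℕ} {y : ℕ → F} (h : St S D y) {v u : ℕ} (ha : Adj D v u)
    (U1 : Un S D y) (U2 : Un S (sD D v u) (sY D y v u)) {a : G} (hv : Vl S D y a) :
    Vl S (sD D v u) (sY D y v u) (a * S.g D v u) := by
  have s1 := h.step ha
  obtain ⟨b, hb⟩ := exists_vl _ _ s1
  suffices b = a * S.g D v u from this ▸ hb
  obtain ⟨n1, n2, n3, n4⟩ := ha.ne h.2.dg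
  have t1 := (Trk.refl D y).step h.2.dg (v := v) (u := u) ha
  have v1 : sY D y v u (fw D v u v) = (y u)⁻¹ * y v := (t1.val v).trans (up_v _ _ _ _)
  have v2 : sY D y v u (fw D v u (D u)) = (y u)⁻¹ :=
    (t1.val (D u)).trans ((up_ne _ _ n3 n4).trans (h.2.inv ha.2.1))
  have k1 : y u ≠ 1 := h.2.ne_one ha.2.1
  have k2 : y v ≠ 1 := h.2.ne_one ha.1
  have k3 : (y u)⁻¹ * y v ≠ 1 := fun e => n1 (h.2.inj ha.2.1 ha.1 (inv_mul_eq_one.1 e))
  have m1 : ¬ (nu ((y u)⁻¹ * y v) = nu (y v) ∧ nu (y u) ≤ nu (y v)) := fun e => k1 (nu_um e.1 e.2)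
  have m2 : ¬ (nu ((y u)⁻¹ * y v) = nu (y u) ∧ nu (y v) ≤ nu (y u)) :=
    fun e => k2 (nu_um (by rw [nu_swap]; exact e.1) e.2)
  have m3 : ¬ (nu (y v) = nu (y u) ∧ nu ((y u)⁻¹ * y v) ≤ nu (y u)) := fun e => k3 <| by
    refine nu_um (v := (y u)⁻¹) ?_ (by rw [nu_inv]; exact e.2)
    rw [nu_inv, ← e.1, ← nu_inv (y v)]; congr 1; group
  by_cases c1 : nu (y u) < nu (y v) ∧ nu ((y u)⁻¹ * y v) < nu (y v)
  · have := U1 _ _ hv (Vl.step ⟨ha, c1⟩ hb)
    rw [this]; group
  by_cases c2 : nu (y u) < nu ((y u)⁻¹ * y v) ∧ nu (y v) < nu ((y u)⁻¹ * y v)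
  · obtain ⟨a2, e1, e2, e3⟩ := rev_step h ha
    have d : Down (sD D v u) (sY D y v u) (fw D v u v) (fw D v u (D u)) := by
      refine ⟨a2, ?_, ?_⟩
      · rw [v1, v2, nu_inv]; exact c2.1
      · rw [v1, v2]; simpa using c2.2
    have := U2 _ _ hb (Vl.step d (by rw [e1, e2]; exact hv))
    rw [this, ← eq_inv_of_mul_eq_one_left e3]
  · have c3 : nu (y v) < nu (y u) ∧ nu ((y u)⁻¹ * y v) < nu (y u) := by omega
    obtain ⟨a2, e1, e2, e3⟩ := tri_step h ha
    obtain ⟨c, hc⟩ := exists_vl _ _ (h.step ha.symm)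
    have d1 : Down D y u v := ⟨ha.symm, c3.1, by rw [nu_swap]; exact c3.2⟩
    have d2 : Down (sD D v u) (sY D y v u) (fw D v u (D u)) (fw D v u v) := by
      refine ⟨a2, ?_, ?_⟩
      · rw [v1, v2, nu_inv]; exact c3.2
      · rw [v1, v2, nu_inv, show ((y u)⁻¹ * y v)⁻¹ * (y u)⁻¹ = (y v)⁻¹ by group, nu_inv]
        exact c3.1
    have r1 := U1 _ _ hv (Vl.step d1 hc)
    have r2 := U2 _ _ hb (Vl.step d2 (by rw [e1, e2]; exact hc))
    rw [r1, r2, ← e3]; group

/-- The potential satisfies `Q` all along a list of slides. -/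
def low (Q : ℕ → Prop) (B : ℕ → ℕ) : (ℕ → F) → List (ℕ × ℕ) → Prop
  | Y, [] => Q (mu Y)
  | Y, m :: ms => Q (mu Y) ∧ low Q B (up B Y m.1 m.2) ms

theorem low.head {Q : ℕ → Prop} {B : ℕ → ℕ} {Y : ℕ → F} {ms : List (ℕ × ℕ)}
    (h : low Q B Y ms) : Q (mu Y) := by
  cases ms
  · exact h
  · exact h.1

theorem run_val {Q : ℕ → Prop} (H : ∀ D y, St S D y → Q (mu y) → Un S D y) {B : ℕ → ℕ} :
    ∀ (ms : List (ℕ × ℕ)) (D f : ℕ → ℕ) (y Y : ℕ → F) (a : G), St S D y → Trk B Y D f y →
      okrun D f ms → low Q B Y ms → Vl S D y a →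
      ∃ y' f', St S (endD D f ms) y' ∧ Trk B (ups B Y ms) (endD D f ms) f' y' ∧
        Q (mu y') ∧ Vl S (endD D f ms) y' (a * run S.g D f ms)
  | [], D, f, y, Y, a, h, t, _, hl, hv =>
    ⟨y, f, h, t, by rw [t.mu_eq]; exact hl, by simpa [run, endD] using hv⟩
  | m :: ms, D, f, y, Y, a, h, t, ho, hl, hv => by
    have s1 := h.step ho.1
    have t1 := t.step h.2.dg ho.1
    have e := edge h ho.1 (H _ _ h (by rw [t.mu_eq]; exact hl.1))
      (H _ _ s1 (by rw [t1.mu_eq]; exact hl.2.head)) hv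
    obtain ⟨y', f', r⟩ := run_val H ms _ _ _ _ _ s1 t1 ho.2 hl.2 e
    exact ⟨y', f', by simpa [run, endD, ups, mul_assoc] using r⟩

theorem cell_use {Q : ℕ → Prop} (H : ∀ D y, St S D y → Q (mu y) → Un S D y)
    {D : ℕ → ℕ} {y : ℕ → F} (h : St S D y) {v u v' u' : ℕ} {p q : List (ℕ × ℕ)}
    (hc : Cell S.g D ((v, u) :: p) ((v', u') :: q))
    (l1 : low Q D (up D y v u) p) (l2 : low Q D (up D y v' u') q)
    (he : ∀ k, k < 12 → ups D (up D y v u) p k = ups D (up D y v' u') q k)
    {a b : G} (ha : Vl S (sD D v u) (sY D y v u) a) (hb : Vl S (sD D v' u') (sY D y v' u') b) :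
    a * (S.g D v u)⁻¹ = b * (S.g D v' u')⁻¹ := by
  obtain ⟨o1, o2, hg⟩ := hc
  obtain ⟨y1, f1, s1, t1, q1, w1⟩ := run_val H p _ _ _ _ a (h.step o1.1)
    ((Trk.refl D y).step h.2.dg (v := v) (u := u) o1.1) o1.2 l1 ha
  obtain ⟨y2, f2, s2, t2, _, w2⟩ := run_val H q _ _ _ _ b (h.step o2.1)
    ((Trk.refl D y).step h.2.dg (v := v') (u := u') o2.1) o2.2 l2 hb
  obtain ⟨e1, e2⟩ := t1.close t2 s1.2 s2.2 fun k hk => ⟨k, hk, (he k hk).symm⟩
  rw [e1, e2] at w2
  have := H _ _ s1 q1 _ _ w1 w2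
  simp only [run, id] at hg this
  rw [eq_mul_inv_of_mul_eq this, eq_mul_inv_of_mul_eq hg]
  group

end Pool.Agent.IvT
end
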