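import Pool.Agent.Work.MP_497bf6_gt.GChk
import Pool.Agent.Work.MP_497bf6_gt.M0.Fin

/-! A packed affine map whose blocks pass the test `chkL` keeps the lattice. -/

set_option autoImplicit false

namespace Pool.Agent.IvT

open Finset Pool.Agent.IV Matrix

/-- The basis of the lattice, packed. -/
def pkQ : Nat := 0x80000600006000060000700006000070000700008000080000800006000080000700008000070000800008000080000800008000060000700008000080000700008000080000800008000080000700008000080000800008000080000800008000080000800006000070000700008000080000800008000080000800008000070000800008000080000800008000080000800008000080000700008000080000800008000080000800008000080000800008000080000600008000080000900008000090000900009000080000800008000080000900008000090000800009000080000800008000080000900008000080000900009000080000800008000080000900008000080000800009000080000800008000080000800008000090000900009000080000800008000080000800008000090000800009000080000800008000080000800008000080000900009000080000800008000080000800008000080000800009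
/-- Four times the inverse of the basis, packed. -/
def pkP : Nat := 0x8000090000700007000090000700009000090000700008000080000a00008000060000800006000080000a0000800008000080000a000060000800008000060000a000080000800008000080000a0000800008000080000600008000080000800008000080000a00006000060000a0000800008000080000800008000080000a0000800006000080000800008000080000800008000080000a00006000080000800008000080000800008000080000800008000080000700009000090000700009000070000700009000080000800008000080000800008000080000800008000080000800008000080000800008000080000800008000080000800008000080000a000080000800008000060000800008000080000800008000080000800008000080000800008000080000800008000080000a0000800006000080000800008000080000800008000080000a0000600008000080000800008000080000800008000080000c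
/-- The low four bits of all digits. -/
def mL : Nat := rep 15 20 144

/-- Check of one block: `P * A * Q` is divisible by sixteen. -/
noncomputable def blkL (A : Nat) : Bool :=
  frc (Nat.mod (Nat.add (dotw A (row pkQ) 0) pH) NN) fun h => frc (slt h) fun h' =>
  frc (Nat.mod (Nat.add (dotw pkP (rowH h') 0) pH) NN) fun k =>
  bnd (Nat.beq (Nat.shiftRight h 2880) 0) (bnd (Nat.beq (Nat.shiftRight k 2880) 0)
    (Nat.beq (Nat.land k mL) 0))

/-- Check that the linear part keeps the lattice. -/
noncomputable def chkL (d : Nat → Nat) : Bool := allLt 28 fun p => frc (d p) blkL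

theorem GLat_H {M : ℕ → ℕ → GaussianInt} {y h : ℕ} (e : h = (y + pH) % NN)
    (hy : (y : ZMod NN) = val M) (hl : Nat.shiftRight h 2880 = 0)
    (hb : ∀ i k, nrm (M i k) < 524288) {i k : ℕ} (hi : i < 8) (hk : k < 9) :
    entH h i k = M i k := by
  have hg : h < 2 ^ (20 * 144) := by
    have : h / 2 ^ (20 * 144) = 0 := by rw [← Nat.shiftRight_eq_div_pow]; exact hl
    exact (Nat.div_eq_zero_iff_lt (Nat.two_pow_pos _)).1 this
  refine GChk_uniq (M := entH h) ?_ (fun i k => ?_) hi hk
  · have h1 := GChk_digits GChk_ones hg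
    have h2 : (h : ZMod NN) = val M + (rep 524288 20 144 : ℕ) := by
      rw [e, ZMod.natCast_mod, Nat.cast_add, hy]; rfl
    rw [GChk_val (M := entH h) (d := fun t => (dg 20 h t : ℤ) - (524288 : ℕ)) fun _ _ _ _ => rfl,
      eq_sub_of_add_eq h2.symm, GChk_rep]
    conv_rhs => rw [h1]
    simp only [Nat.cast_sum, Nat.cast_mul, Nat.cast_pow, Nat.cast_ofNat, GChk_pow,
      ← sum_sub_distrib, Int.cast_sub, Int.cast_natCast, Int.cast_ofNat, sub_mul]
  · have h1 := hb i k
    have h2 : dg 20 h (9 * i + k) < 2 ^ 20 := Nat.mod_lt _ (by norm_num)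
    have h3 : dg 20 h (72 + 9 * i + k) < 2 ^ 20 := Nat.mod_lt _ (by norm_num)
    have h4 := abs_nonneg (M i k).re
    have h5 := abs_nonneg (M i k).im
    have h6 := abs_lt.1 (show |(M i k).re| < 524288 by rw [nrm] at h1; linarith)
    have h7 := abs_lt.1 (show |(M i k).im| < 524288 by rw [nrm] at h1; linarith)
    simp only [Zsqrtd.re_sub, Zsqrtd.im_sub, entH, abs_lt]
    omega

theorem GLat_dig {k t : ℕ} (h : Nat.land k mL = 0) (ht : t < 144) :
    (16 : ℤ) ∣ (dg 20 k t : ℤ) - (524288 : ℕ) := by
  have h1 : k &&& rep (2 ^ 4 - 1) 20 144 = 0 := h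
  rw [GChk_mask (by norm_num), sum_eq_zero_iff] at h1
  have h2 := (mul_eq_zero.1 (h1 t (mem_range.2 ht))).resolve_right (Nat.two_pow_pos _).ne'
  rw [dg]
  generalize k / 2 ^ (20 * t) = n at h2 ⊢
  omega

/-- The basis, with a zero last row. -/
def qm (j k : ℕ) : GaussianInt := if j < 8 then ent pkQ j k else 0

theorem qm_eq (j k : Fin 8) : qm j k = BM j k :=
  congrFun (congrFun (by decide +kernel : (Matrix.of fun j k : Fin 8 => qm j k) = BM) j) k

theorem BM_P : BM * (Matrix.of fun j k : Fin 8 => ent pkP j k) = (4 : GaussianInt) • 1 := by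
  decide +kernel

theorem pr_fin {A B : ℕ → ℕ → GaussianInt} (h : ∀ k, B 8 k = 0) (i k : ℕ) :
    pr A B i k = ∑ j : Fin 8, A i j * B j k := by
  rw [pr, sum_range_succ, h, mul_zero, add_zero, sum_range]

theorem blkL_sound {A : ℕ} (h : blkL A = true) : ∃ M : Matrix (Fin 8) (Fin 8) GaussianInt,
    (Matrix.of fun j k : Fin 8 => ent A j k) * BM = (4 : GaussianInt) • (BM * M) := by
  simp only [blkL, frc_eq, bnd_eq, Bool.and_eq_true, Nat.beq_eq] at h
  obtain ⟨h1, h2, h3⟩ := h
  have q8 : ∀ k, qm 8 k = 0 := fun k => rfl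
  have b0 : ∀ i k, nrm (qm i k) ≤ 16 := fun i k => by
    rw [qm]
    split_ifs with hi
    · simpa only [hm, if_pos hi] using GChk_nrm_hm pkQ i k
    · decide
  have b1 := GChk_nrm_pr (GChk_nrm_hm A) b0
  have b2 := GChk_nrm_pr (GChk_nrm_hm pkP) b1
  have r8 : ∀ k, pr (hm A) qm 8 k = 0 := fun k => by
    rw [pr_fin q8]
    refine sum_eq_zero fun j _ => ?_
    rw [hm, if_neg (lt_irrefl 8), if_neg (by omega), zero_mul]
  have e1 := GChk_dotw A (row pkQ) 0 qm
    (fun j hj => by simp only [GChk_row, qm, if_pos hj]) (by simp [q8])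
  generalize hh : (Nat.add (dotw A (row pkQ) 0) pH).mod NN = g at h1 h2 h3
  have e2 := GChk_dotw pkP (rowH (slt g)) 0 (pr (hm A) qm) (fun j hj => by
    rw [GChk_rowH]
    exact sum_congr rfl fun k hk => by
      rw [GLat_H hh.symm e1 h1 (fun i k => (b1 i k).trans_lt (by norm_num)) hj (mem_range.1 hk)])
    (by simp [r8])
  generalize hk : (Nat.add (dotw pkP (rowH (slt g)) 0) pH).mod NN = n at h2 h3
  have e3 : ∀ j k : Fin 8, ∃ m, pr (hm pkP) (pr (hm A) qm) j k = 16 * m := fun j k => by
    rw [← GLat_H hk.symm e2 h2 (fun i k => (b2 i k).trans_lt (by norm_num)) j.2 (by omega)]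
    obtain ⟨a, ha⟩ := GLat_dig (t := 9 * j + k) h3 (by omega)
    obtain ⟨b, hb⟩ := GLat_dig (t := 72 + 9 * j + k) h3 (by omega)
    refine ⟨⟨a, b⟩, ?_⟩
    have e : (16 : GaussianInt) = ⟨16, 0⟩ := rfl
    rw [entH, ha, hb, e]
    ext <;> simp
  choose m hm' using e3
  refine ⟨Matrix.of m, ?_⟩
  have e4 : (Matrix.of fun j k : Fin 8 => ent pkP j k) *
      ((Matrix.of fun j k : Fin 8 => ent A j k) * BM) = (16 : GaussianInt) • Matrix.of m := by
    ext1 j k
    have := hm' j k
    rw [pr_fin r8] at this
    simp only [pr_fin q8, hm, Fin.is_lt, if_true, qm_eq] at this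
    simpa only [Matrix.mul_apply, Matrix.of_apply, Matrix.smul_apply, smul_eq_mul] using this
  have e5 := congrArg (BM * ·) e4
  simp only [← Matrix.mul_assoc, BM_P] at e5
  rw [Matrix.mul_assoc, Matrix.smul_mul, Matrix.one_mul, Matrix.mul_smul,
    show (16 : GaussianInt) = 4 * 4 by norm_num, ← smul_smul] at e5
  exact smul_right_injective _ (by decide : (4 : GaussianInt) ≠ 0) e5

theorem InL_back {u : V ≃ₗᵢ[ℂ] V} (h : ∀ v, InL v → InL (u v)) {v : V} (hv : InL (u v)) :
    InL v := by
  have h1 : ∀ n : ℕ, InL ((u ^ (n + 1)) v) := fun n => by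
    induction n with
    | zero => simpa using hv
    | succ n ih => rw [pow_succ']; exact h _ ih
  obtain ⟨a, b, hab, e⟩ := Set.Finite.exists_lt_map_eq_of_forall_mem
    (f := fun n : ℕ => (u ^ (n + 1)) v)
    (fun n => show InL _ ∧ _ ≤ _ from ⟨h1 n, (LinearIsometryEquiv.norm_map _ _).le⟩) (fin_ball ‖v‖)
  obtain ⟨c, rfl⟩ := Nat.exists_eq_add_of_lt hab
  have e' : (u ^ (a + 1)) v = (u ^ (a + 1)) ((u ^ (c + 1)) v) := by
    rw [e, show a + c + 1 + 1 = a + 1 + (c + 1) by ring, pow_add]; rfl
  rw [(u ^ (a + 1)).injective e']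
  exact h1 c

theorem chkL_sound {d : ℕ → ℕ} (h : chkL d = true) {e : V ≃ᵃⁱ[ℂ] V} (he : ∀ v, e v = fmap d v) :
    e ∈ LatG := by
  have k : ∀ v, InL v → InL (linPart e v) := fun v hv q => by
    have h1 := (allLt_iff _ _).1 h q q.2
    rw [frc_eq] at h1
    obtain ⟨M, hM⟩ := blkL_sound h1
    obtain ⟨z, hz⟩ := hv (sb d q)
    refine ⟨M *ᵥ z, fun j => ?_⟩
    have h2 : linPart e v = fmap d v - fmap d 0 := by
      rw [← he, ← he, eq_sub_iff_add_eq]
      have := e.map_vadd 0 v
      rw [vadd_eq_add, vadd_eq_add, add_zero] at this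
      exact this.symm
    have h3 := congrArg (fun N => GaussianInt.toComplex ((N *ᵥ z) j)) hM
    simp only [← Matrix.mulVec_mulVec, Matrix.smul_mulVec, Pi.smul_apply, smul_eq_mul, map_mul,
      map_ofNat] at h3
    have h4 : ∀ k, v (⟨sbk (d q), sbk_lt _⟩, k) = _ := hz
    rw [h2, PiLp.sub_apply, ← mul_div_cancel_left₀ (GaussianInt.toComplex _)
      (by norm_num : (4 : ℂ) ≠ 0), ← h3]
    simp only [fmap, h4, PiLp.zero_apply, mul_zero, sum_const_zero, zero_add]
    generalize BM *ᵥ z = u
    simp only [Matrix.mulVec, dotProduct, Matrix.of_apply, map_sum, map_mul]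
    ring
  exact fun v => ⟨InL_back k, k v⟩

/-- The inclusion of `LatG` has finitely many linear parts. -/
theorem finite_subtype :
    (Set.range fun g : LatG => (LatG.subtype g).linearIsometryEquiv).Finite :=
  finite_LatG.subset <| by
    rintro _ ⟨g, rfl⟩
    exact ⟨g, g.2, rfl⟩

end Pool.Agent.IvT
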