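import Pool.Agent.Work.MP_497bf6_gt.Track

/-! Conjugation by the relator as a list of slides. -/

namespace Pool.Agent.IvT

/-- The slides of the conjugation by the relator. -/
def msr : List (ℕ × ℕ) :=
  [(4, 1), (7, 1), (1, 2), (6, 2), (5, 2), (8, 2), (11, 2), (10, 2), (9, 2), (2, 3), (4, 0), (7, 0),
   (3, 0), (8, 5), (11, 5), (5, 6), (10, 6), (9, 6), (0, 6), (6, 1), (1, 2), (2, 3), (3, 6), (6, 7),
   (8, 4), (11, 4), (7, 4), (2, 9), (1, 9), (0, 9), (3, 9), (4, 9), (9, 10), (10, 5), (5, 6), (6, 7),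
   (7, 10), (10, 11), (2, 8), (1, 8), (0, 8), (3, 8), (6, 8), (5, 8), (4, 8), (11, 8), (7, 9),
   (8, 9), (9, 10), (10, 11)]

/-- A map on positions read from the base sixteen digits of a number. -/
def dec (n k : ℕ) : ℕ := if k < 12 then n / 16 ^ k % 16 else k

/-- The number with the given digits. -/
def enc (g : ℕ → ℕ) : ℕ := (List.range 12).foldr (fun k a => g k + 16 * a) 0

/-- Evaluate a number before using it. -/
def frcR (n : ℕ) (k : ℕ → Bool) : Bool := Nat.rec (k 0) (fun m _ => k (m + 1)) n

theorem frcR_eq (n : ℕ) (k : ℕ → Bool) : frcR n k = k n := by cases n <;> rfl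

instance decAdj (D : ℕ → ℕ) (v u : ℕ) : Decidable (Adj D v u) :=
  inferInstanceAs (Decidable (_ ∧ _ ∧ _))

/-- Availability of a list of slides, computed on digits. -/
def okT : List (ℕ × ℕ) → ℕ → ℕ → Bool
  | [], _, _ => true
  | m :: ms, n, f => frcR (dec f m.1) fun v => frcR (dec f m.2) fun u =>
      decide (Adj (dec n) v u) && decide (src (dec n) v u < 12) && decide (dst (dec n) v u < 12) &&
      frcR (enc (sD (dec n) v u)) fun n' => frcR (enc fun p => fw (dec n) v u (dec f p)) fun f' =>
        (List.range 12).all (fun k => dec n' k == sD (dec n) v u k) &&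
        (List.range 12).all (fun k => dec f' k == fw (dec n) v u (dec f k)) && okT ms n' f'

theorem okrun_of_okT (ms : List (ℕ × ℕ)) : ∀ n f, okT ms n f = true → okrun (dec n) (dec f) ms := by
  induction ms with
  | nil => intro _ _ _; trivial
  | cons m ms ih =>
    intro n f h
    simp only [okT, frcR_eq, Bool.and_eq_true, decide_eq_true_eq, List.all_eq_true,
      List.mem_range, beq_iff_eq] at h
    obtain ⟨⟨⟨h1, h2⟩, h3⟩, ⟨h4, h5⟩, h6⟩ := h
    have o : ∀ a k, 12 ≤ k → dec a k = k := fun a k hk => if_neg (by omega)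
    refine ⟨h1, ?_⟩
    have e1 : sD (dec n) (dec f m.1) (dec f m.2) =
        dec (enc (sD (dec n) (dec f m.1) (dec f m.2))) := by
      funext k
      rcases Nat.lt_or_ge k 12 with hk | hk
      · exact (h4 k hk).symm
      · rw [o _ k hk, sD, bw, mv_out h3 h2 hk, o _ k hk, fw, mv_out h2 h3 hk]
    have e2 : (fun p => fw (dec n) (dec f m.1) (dec f m.2) (dec f p)) =
        dec (enc fun p => fw (dec n) (dec f m.1) (dec f m.2) (dec f p)) := by
      funext k
      rcases Nat.lt_or_ge k 12 with hk | hk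
      · exact (h5 k hk).symm
      · rw [o _ k hk, o _ k hk, fw, mv_out h2 h3 hk]
    rw [e2, e1]
    exact ih _ _ h6

theorem dec_D0 : dec (enc D0) = D0 := by
  funext k
  rcases Nat.lt_or_ge k 12 with hk | hk
  · revert k; decide
  · rw [dec, D0, if_neg (by omega), if_neg (by omega)]

theorem dec_id : dec (enc id) = id := by
  funext k
  rcases Nat.lt_or_ge k 12 with hk | hk
  · revert k; decide
  · rw [dec, if_neg (by omega)]; rfl

theorem ok_msr : okrun D0 id msr := by
  rw [← dec_D0, ← dec_id]
  exact okrun_of_okT msr _ _ (by decide +kernel)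

/-- The sides read from a table of words. -/
def tabY (t : List (List L)) (k : ℕ) : F := FreeGroup.mk (t.getD k [])

/-- One slide on a table of words. -/
def upL (t : List (List L)) (v u : ℕ) : List (List L) :=
  (t.set v (FreeGroup.reduce (FreeGroup.invRev (t.getD u []) ++ t.getD v []))).set (D0 v)
    (FreeGroup.reduce (FreeGroup.invRev (t.getD v []) ++ t.getD u []))

theorem tabY_upL {t : List (List L)} {v : ℕ} (u : ℕ) (ht : t.length = 12) (hv : v < 12) :
    tabY (upL t v u) = up D0 (tabY t) v u := by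
  have h1 : D0 v < 12 ∧ D0 v ≠ v := by revert v; decide
  funext k
  simp only [tabY, upL, up, List.getD_eq_getElem?_getD, List.getElem?_set, List.length_set, ht]
  by_cases a : k = v
  · subst a
    simp [h1.2, hv, FreeGroup.inv_mk, FreeGroup.mul_mk, FreeGroup.reduce.self]
  · by_cases b : k = D0 v
    · subst b
      simp [h1.1, h1.2, FreeGroup.inv_mk, FreeGroup.mul_mk, FreeGroup.reduce.self]
    · simp [a, b, Ne.symm a, Ne.symm b]

/-- Several slides on a table of words. -/
def upsL : List (List L) → List (ℕ × ℕ) → List (List L)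
  | t, [] => t
  | t, m :: ms => upsL (upL t m.1 m.2) ms

theorem tabY_upsL (ms : List (ℕ × ℕ)) : ∀ t : List (List L), t.length = 12 →
    (∀ m ∈ ms, m.1 < 12) → tabY (upsL t ms) = ups D0 (tabY t) ms := by
  induction ms with
  | nil => intro _ _ _; rfl
  | cons m ms ih =>
    intro t ht h
    rw [upsL, ups, ih _ (by simp [upL, ht]) fun a ha => h a (List.mem_cons_of_mem _ ha),
      tabY_upL _ ht (h m List.mem_cons_self)]

theorem tabY_y0 : tabY (rw0.map fun l => [l]) = y0 := by
  funext k
  rcases Nat.lt_or_ge k 12 with hk | hk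
  · revert k; decide
  · rw [y0, if_neg (by omega), tabY, List.getD_eq_default _ _ (by simpa [rw0] using hk)]
    rfl

theorem ups_msr : ∀ k, k < 12 → ∃ j, j < 12 ∧ r * y0 k * r⁻¹ = ups D0 y0 msr j := by
  rw [← tabY_y0, ← tabY_upsL msr _ (by decide) (by decide)]
  decide +kernel

/-- If the labels along `msr` multiply to one then the conjugation by the relator is killed. -/
theorem conj_r {G : Type} [Group G] (g : (ℕ → ℕ) → ℕ → ℕ → G) (Φ : Stab →* G)
    (hΦ : ∀ (γ : Stab) (ms : List (ℕ × ℕ)), okrun D0 id ms →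
      (∀ k, k < 12 → ∃ j, j < 12 ∧ (γ : MulAut F) (y0 k) = ups D0 y0 ms j) →
      Φ γ = run g D0 id ms) (h : run g D0 id msr = 1) (γ : Stab)
    (e : (γ : MulAut F) = MulAut.conj r) : Φ γ = 1 := by
  rw [hΦ γ msr ok_msr fun k hk => by rw [e, MulAut.conj_apply]; exact ups_msr k hk, h]

end Pool.Agent.IvT
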