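import Pool.Agent.Work.MP_497bf6_gt.Track

/-! Local confluence, uniqueness of values, and the homomorphism on the stabiliser. -/

namespace Pool.Agent.IvT

variable {G : Type} [Group G] {S : Sys G}

theorem max3 {a b c t : ℕ} (h1 : a ≤ t) (h2 : b ≤ t) (h3 : c ≤ t) : max a (max b c) ≤ t := by
  omega

/-- The pentagon for two slides of the same side. -/
theorem pentA {D : ℕ → ℕ} {y : ℕ → F} (h : St S D y)
    (H : ∀ D' y', St S D' y' → mu y' < mu y → Un S D' y') {v u u' : ℕ}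
    (d1 : Down D y v u) (d2 : Down D y v u') (n : u' ≠ u) (n' : u' ≠ D u)
    (hc : Cell S.g D [(v,u),(u',u),(v,u')] [(v,u'),(u',u)])
    {a b : G} (ha : Vl S (sD D v u) (sY D y v u) a) (hb : Vl S (sD D v u') (sY D y v u') b) :
    a * (S.g D v u)⁻¹ = b * (S.g D v u')⁻¹ := by
  have hD := h.2.dg
  obtain ⟨n1, n2, n3, n4⟩ := d1.1.ne hD
  obtain ⟨m1, m2, m3, m4⟩ := d2.1.ne hD
  have hv := hD.ne v d1.1.1
  have hu' := hD.ne u' d2.1.2.1
  have k : u ≠ D u' := fun e => n' (by rw [e, hD.inv])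
  have x : nu ((y u)⁻¹ * y u') < nu (y v) :=
    (nu_lens (y u') d1.2.1 d1.2.2).trans_le (max3 le_rfl d2.2.1.le (by rw [nu_swap]; exact d2.2.2.le))
  have A1 := (Lw0.refl y v).top D u d1.2.2
  have A2 := A1.up D u' u (by rw [up_ne _ _ n1 n2, up_ne _ _ m1 m2]; exact x)
  have A3 := A2.up D v u' (by
    rw [up_v, up_ne _ _ n1 n2, up_ne _ _ m1 m2, up_ne _ _ m1.symm m3.symm, up_v,
      show ((y u)⁻¹ * y u')⁻¹ * ((y u)⁻¹ * y v) = (y u')⁻¹ * y v by group]
    exact d2.2.2)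
  have B1 := (Lw0.refl y v).top D u' d2.2.2
  have B2 := B1.up D u' u (by rw [up_ne _ _ n1 n2, up_ne _ _ m1 m2]; exact x)
  have hv12 := d1.1.1
  refine cell_use (Q := fun n => n < mu y) H h hc ⟨A1.mu hv12, A2.mu hv12, A3.mu hv12⟩
    ⟨B1.mu hv12, B2.mu hv12⟩ (fun k _ => ?_) ha hb
  simp only [ups, up]
  split_ifs <;> first | rfl | (exfalso; omega) | group

/-- The pentagon for a slide over a side that slides at the same end. -/
theorem pentB {D : ℕ → ℕ} {y : ℕ → F} (h : St S D y)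
    (H : ∀ D' y', St S D' y' → mu y' < mu y → Un S D' y') {v u u' : ℕ}
    (d1 : Down D y v u) (d2 : Down D y u u') (m1 : u' ≠ v) (m2 : u' ≠ D v)
    (hc : Cell S.g D [(u,u'),(v,u'),(v,u)] [(v,u),(u,u')])
    {a b : G} (ha : Vl S (sD D v u) (sY D y v u) a) (hb : Vl S (sD D u u') (sY D y u u') b) :
    a * (S.g D v u)⁻¹ = b * (S.g D u u')⁻¹ := by
  have hD := h.2.dg
  obtain ⟨n1, n2, n3, n4⟩ := d1.1.ne hD
  obtain ⟨k1, k2, k3, k4⟩ := d2.1.ne hD
  have hv := hD.ne v d1.1.1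
  have hu := hD.ne u d2.1.1
  have x : nu ((y u')⁻¹ * y v) < nu (y v) :=
    (nu_lens (y v) d2.2.1 d2.2.2).trans_le (max3 d1.2.1.le le_rfl d1.2.2.le)
  have A0 := (Lw0.refl y v).up D u u' (d2.2.2.trans d1.2.1)
  have A2 := A0.top D u' (by rw [up_ne _ _ k1 k2, up_ne _ _ n1.symm n3.symm]; exact x)
  have A3 := A2.up D v u (by
    rw [up_v, up_ne _ _ n1 n2, up_v, up_ne _ _ k1 k2, up_ne _ _ n1.symm n3.symm,
      show ((y u')⁻¹ * y u)⁻¹ * ((y u')⁻¹ * y v) = (y u)⁻¹ * y v by group]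
    exact d1.2.2)
  have B1 := (Lw0.refl y v).top D u d1.2.2
  have B2 := B1.up D u u' (by
    rw [up_ne _ _ n1 n2, up_ne _ _ m1 m2]; exact d2.2.2.trans d1.2.1)
  have hv12 := d1.1.1
  refine (cell_use (Q := fun n => n < mu y) H h hc ⟨d2.mu_up, A2.mu hv12, A3.mu hv12⟩
    ⟨B1.mu hv12, B2.mu hv12⟩ (fun k _ => ?_) hb ha).symm
  simp only [ups, up, n1, n2, k1, k2, m1, m2, n1.symm, n3.symm, ↓reduceIte]
  clear * - n1 n2 n3 n4 hv hu
  split_ifs <;> first | rfl | (exfalso; omega) | group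

/-- The pentagons for a slide over a side that slides at the other end. -/
theorem pentC {D : ℕ → ℕ} {y : ℕ → F} (h : St S D y)
    (H : ∀ D' y', St S D' y' → mu y' < mu y → Un S D' y') {v u u' : ℕ}
    (d1 : Down D y v u) (d2 : Down D y (D u) u') (m1 : u' ≠ v) (m2 : u' ≠ D v)
    (hc : Cell S.g D [(v,u),(D u,u'),(v,u')] [(D u,u'),(v,u)] ∨
      Cell S.g D [(v,u),(v,u'),(D u,u')] [(D u,u'),(v,u)])
    {a b : G} (ha : Vl S (sD D v u) (sY D y v u) a)
    (hb : Vl S (sD D (D u) u') (sY D y (D u) u') b) :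
    a * (S.g D v u)⁻¹ = b * (S.g D (D u) u')⁻¹ := by
  have hD := h.2.dg
  obtain ⟨n1, n2, n3, n4⟩ := d1.1.ne hD
  obtain ⟨k1, k2, k3, k4⟩ := d2.1.ne hD
  have hv := hD.ne v d1.1.1
  have hu := hD.ne u d1.1.2.1
  have i1 := hD.inv u
  have e1 : y (D u) = (y u)⁻¹ := h.2.inv d1.1.2.1
  have g1 : nu (y (D u)) < nu (y v) := by rw [e1, nu_inv]; exact d1.2.1
  have w2 : nu ((y u')⁻¹ * y (D u)) < nu (y v) := d2.2.2.trans g1
  have x : nu ((y u')⁻¹ * ((y u)⁻¹ * y v)) < nu (y v) :=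
    (nu_lens ((y u)⁻¹ * y v) d2.2.1 d2.2.2).trans_le (max3 g1.le d1.2.2.le (by
      rw [e1, show ((y u)⁻¹)⁻¹ * ((y u)⁻¹ * y v) = y v by group]))
  have n5 : v ≠ D (D u) := by rw [i1]; exact n1.symm
  have A1 := (Lw0.refl y v).top D u d1.2.2
  have B0 := (Lw0.refl y v).up D (D u) u' w2
  have q : up D y (D u) u' u = y u * y u' := by
    have := up_Dv y u' (D := D) (v := D u) (by rw [i1]; exact hu.symm)
    rw [i1, e1, inv_inv] at this
    exact this
  have B2 := B0.top D u (by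
    rw [q, up_ne _ _ n3.symm n5, show (y u * y u')⁻¹ * y v = (y u')⁻¹ * ((y u)⁻¹ * y v) by group]
    exact x)
  have hv12 := d1.1.1
  rw [i1] at k2 n5
  rcases hc with hc | hc
  · have A2 := A1.up D (D u) u' (by rw [up_ne _ _ m1 m2, up_ne _ _ n3 n4]; exact w2)
    have A3 := A2.up D v u' (by
      rw [up_ne _ _ k1 (by rw [i1]; exact k2), up_ne _ _ m1 m2,
        up_ne _ _ n3.symm (by rw [i1]; exact n5), up_v]
      exact x)
    refine cell_use (Q := fun n => n < mu y) H h hc ⟨A1.mu hv12, A2.mu hv12, A3.mu hv12⟩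
      ⟨d2.mu_up, B2.mu hv12⟩ (fun k _ => ?_) ha hb
    simp only [ups, up, i1, e1, n1, n2, n3, n4, k1, k2, m1, m2, n1.symm, n3.symm, hu, hu.symm,
      ↓reduceIte]
    clear * - n1 n2 n3 n4 hv hu
    split_ifs <;> first | rfl | (exfalso; omega) | group
  · have A2 := A1.up D v u' (by rw [up_ne _ _ m1 m2, up_v]; exact x)
    have A3 := A2.up D (D u) u' (by
      rw [up_ne _ _ m1 m2, up_ne _ _ m1 m2, up_ne _ _ n3 n4, up_ne _ _ n3 n4]; exact w2)
    refine cell_use (Q := fun n => n < mu y) H h hc ⟨A1.mu hv12, A2.mu hv12, A3.mu hv12⟩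
      ⟨d2.mu_up, B2.mu hv12⟩ (fun k _ => ?_) ha hb
    simp only [ups, up, i1, e1, n1, n2, n3, n4, k1, k2, m1, m2, n1.symm, n3.symm, hu, hu.symm,
      ↓reduceIte]
    clear * - n1 n2 n3 n4 hv hu
    split_ifs <;> first | rfl | (exfalso; omega) | group

/-- The squares. -/
theorem square {D : ℕ → ℕ} {y : ℕ → F} (h : St S D y)
    (H : ∀ D' y', St S D' y' → mu y' < mu y → Un S D' y') {v u v' u' : ℕ}
    (d1 : Down D y v u) (d2 : Down D y v' u') (le : nu (y v') ≤ nu (y v))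
    (m1 : u' ≠ v) (m2 : u' ≠ D v) (p1 : v' ≠ v) (p2 : v' ≠ u) (p3 : v' ≠ D u)
    (hc : Cell S.g D [(v,u),(v',u')] [(v',u'),(v,u)])
    {a b : G} (ha : Vl S (sD D v u) (sY D y v u) a) (hb : Vl S (sD D v' u') (sY D y v' u') b) :
    a * (S.g D v u)⁻¹ = b * (S.g D v' u')⁻¹ := by
  have hD := h.2.dg
  obtain ⟨n1, n2, n3, n4⟩ := d1.1.ne hD
  obtain ⟨k1, k2, k3, k4⟩ := d2.1.ne hD
  have hv := hD.ne v d1.1.1
  have hv' := hD.ne v' d2.1.1
  have p4 : u ≠ D v' := fun e => p3 (by rw [e, hD.inv])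
  have p5 : v ≠ D v' ∨ v' = D v := by
    by_cases e : v = D v'
    · exact Or.inr (by rw [e, hD.inv])
    · exact Or.inl e
  have hv12 := d1.1.1
  have A1 := (Lw0.refl y v).top D u d1.2.2
  have B0 := (Lw0.refl y v).up D v' u' (d2.2.2.trans_le le)
  by_cases c : v' = D v
  · subst c
    have i1 := hD.inv v
    have e1 : y (D v) = (y v)⁻¹ := h.2.inv hv12
    have x : nu ((y u')⁻¹ * ((y v)⁻¹ * y u)) < nu (y v) :=
      (nu_lens ((y v)⁻¹ * y u) d2.2.1 d2.2.2).trans_le (max3 le (by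
        rw [nu_swap]; exact d1.2.2.le) (by
        rw [e1, show ((y v)⁻¹)⁻¹ * ((y v)⁻¹ * y u) = y u by group]; exact d1.2.1.le))
    have A2 := A1.up D (D v) u' (by rw [up_ne _ _ m1 m2, up_Dv _ _ hv]; exact x)
    have q : up D y (D v) u' v = y v * y u' := by
      have := up_Dv y u' (D := D) (v := D v) hv'
      rw [i1, e1, inv_inv] at this
      exact this
    have B2 := B0.top D u (by
      rw [q, up_ne _ _ n2 p4, nu_swap,
        show (y v * y u')⁻¹ * y u = (y u')⁻¹ * ((y v)⁻¹ * y u) by group]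
      exact x)
    refine cell_use (Q := fun n => n < mu y) H h hc ⟨A1.mu hv12, A2.mu hv12⟩
      ⟨d2.mu_up, B2.mu hv12⟩ (fun k _ => ?_) ha hb
    have hu : u ≠ v := by rwa [i1] at p4
    simp only [ups, up, i1, e1, m1, m2, hv, hv.symm, n2, hu, ↓reduceIte]
    clear * - hv
    split_ifs <;> first | rfl | (exfalso; omega) | group
  · have p6 : v ≠ D v' := p5.resolve_right c
    have p7 : D v ≠ D v' := fun e => p1 (by rw [← hD.inv v', ← e, hD.inv])
    have A2 := A1.up D v' u' (by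
      rw [up_ne _ _ m1 m2, up_ne _ _ p1 c]; exact d2.2.2.trans_le le)
    have B2 := B0.top D u (by
      rw [up_ne _ _ p2.symm p4, up_ne _ _ p1.symm p6]; exact d1.2.2)
    refine cell_use (Q := fun n => n < mu y) H h hc ⟨A1.mu hv12, A2.mu hv12⟩
      ⟨d2.mu_up, B2.mu hv12⟩ (fun k _ => ?_) ha hb
    simp only [ups, up, m1, m2, p1, c, p2.symm, p4, p1.symm, p6, ↓reduceIte]
    clear * - p1 c p6 p7
    split_ifs <;> first | rfl | (exfalso; omega)

theorem confl {D : ℕ → ℕ} {y : ℕ → F} (h : St S D y)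
    (H : ∀ D' y', St S D' y' → mu y' < mu y → Un S D' y') {v u v' u' : ℕ}
    (d1 : Down D y v u) (d2 : Down D y v' u') (le : nu (y v') ≤ nu (y v))
    {a b : G} (ha : Vl S (sD D v u) (sY D y v u) a) (hb : Vl S (sD D v' u') (sY D y v' u') b) :
    a * (S.g D v u)⁻¹ = b * (S.g D v' u')⁻¹ := by
  have m1 : u' ≠ v := fun e => absurd (d2.2.1.trans_le le) (by rw [e]; exact lt_irrefl _)
  have m2 : u' ≠ D v := fun e => absurd (d2.2.1.trans_le le) (by
    rw [e, h.2.inv d1.1.1, nu_inv]; exact lt_irrefl _)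
  have hp := St.pl D y h
  by_cases c0 : v' = v ∧ u' = u
  · obtain ⟨rfl, rfl⟩ := c0
    rw [H _ _ (h.step d1.1) (d1.mu_sY h.2.dg) _ _ ha hb]
  rcases S.cPair D h.1 v u v' u' d1.1 d2.1 with c | c | c | c | c | ⟨rfl, c1, c⟩ | ⟨rfl, c⟩ |
    ⟨rfl, c⟩ | ⟨p1, p2, p3, c⟩
  · exact absurd c c0
  · exact absurd c m1
  · exact absurd c m2
  · exact absurd c (not_conf h.2 hp d1 d2)
  · exact absurd c (not_conf h.2 hp d2 d1)
  · have n : u' ≠ u := fun e => c0 ⟨rfl, e⟩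
    rcases c with c | c
    · exact pentA h H d1 d2 n c1 c ha hb
    · exact (pentA h H d2 d1 n.symm (fun e => c1 (by rw [e, h.2.dg.inv])) c hb ha).symm
  · exact pentB h H d1 d2 m1 m2 c ha hb
  · exact pentC h H d1 d2 m1 m2 c ha hb
  · exact square h H d1 d2 le m1 m2 p1 p2 p3 c ha hb

theorem Vl.inv {D : ℕ → ℕ} {y : ℕ → F} {a : G} (h : Vl S D y a) : (D = D0 ∧ y = y0 ∧ a = 1) ∨
    ∃ v u b, Down D y v u ∧ Vl S (sD D v u) (sY D y v u) b ∧ a = b * (S.g D v u)⁻¹ := by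
  cases h with
  | base => exact Or.inl ⟨rfl, rfl, rfl⟩
  | step d h => exact Or.inr ⟨_, _, _, d, h, rfl⟩

theorem St.un : ∀ D y, St S D y → Un S D y := by
  suffices H : ∀ n D y, mu y = n → St S D y → Un S D y from fun D y => H _ D y rfl
  intro n
  induction n using Nat.strong_induction_on with
  | _ n ih =>
    rintro D y rfl h a b ha hb
    have H : ∀ D' y', St S D' y' → mu y' < mu y → Un S D' y' := fun D' y' s l => ih _ l D' y' rfl s
    rcases ha.inv with ⟨rfl, rfl, rfl⟩ | ⟨v, u, a', d1, ha', rfl⟩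
    · rcases hb.inv with ⟨_, _, rfl⟩ | ⟨v, u, b', d, _⟩
      · rfl
      · exact absurd d (base_sink v u)
    · rcases hb.inv with ⟨rfl, rfl, _⟩ | ⟨v', u', b', d2, hb', rfl⟩
      · exact absurd d1 (base_sink v u)
      · rcases le_total (nu (y v')) (nu (y v)) with l | l
        · exact confl h H d1 d2 l ha' hb'
        · exact (confl h H d2 d1 l hb' ha').symm

theorem low_true (B : ℕ → ℕ) : ∀ (ms : List (ℕ × ℕ)) (Y : ℕ → F), low (fun _ => True) B Y ms
  | [], _ => trivial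
  | _ :: ms, _ => ⟨trivial, low_true B ms _⟩

theorem St.map {D : ℕ → ℕ} {y : ℕ → F} (h : St S D y) (γ : Stab) :
    St S D (fun k => (γ : MulAut F) (y k)) := ⟨h.1, h.2.map γ⟩

theorem st_base : St S D0 y0 := ⟨S.base, ok_base⟩

theorem vl_map (γ : Stab) {c : G} (hc : Vl S D0 (fun k => (γ : MulAut F) (y0 k)) c) :
    ∀ D y, St S D y → ∀ a, Vl S D y a → Vl S D (fun k => (γ : MulAut F) (y k)) (c * a) := by
  refine St.induct (fun a ha => ?_) fun D y v u h d ih a ha => ?_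
  · rw [St.un _ _ st_base _ _ ha Vl.base, mul_one]; exact hc
  · have e := edge h d.1 (St.un _ _ h) (St.un _ _ (h.step d.1)) ha
    obtain ⟨b, hb⟩ := exists_vl _ _ (h.map γ)
    have e2 := edge (h.map γ) d.1 (St.un _ _ (h.map γ)) (St.un _ _ ((h.map γ).step d.1)) hb
    have e3 : sY D (fun k => (γ : MulAut F) (y k)) v u =
        fun k => (γ : MulAut F) (sY D y v u k) := by
      funext k
      simp only [sY, up]
      split_ifs <;> simp
    have := St.un _ _ ((h.map γ).step d.1) _ _ e2 (by rw [e3]; exact ih _ e)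
    rw [← mul_assoc, mul_left_inj] at this
    exact this ▸ hb

theorem vl_mem (H : Subgroup G) (hH : ∀ D v u, S.g D v u ∈ H) {D : ℕ → ℕ} {y : ℕ → F} {a : G}
    (h : Vl S D y a) : a ∈ H := by
  induction h with
  | base => exact H.one_mem
  | step _ _ ih => exact H.mul_mem ih (H.inv_mem (hH _ _ _))

theorem exists_Phi (S : Sys G) : ∃ Φ : Stab →* G,
    (∀ (γ : Stab) (ms : List (ℕ × ℕ)), okrun D0 id ms →
      (∀ k, k < 12 → ∃ j, j < 12 ∧ (γ : MulAut F) (y0 k) = ups D0 y0 ms j) →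
      Φ γ = run S.g D0 id ms) ∧
    ∀ H : Subgroup G, (∀ D v u, S.g D v u ∈ H) → ∀ γ, Φ γ ∈ H := by
  choose φ hφ using fun γ : Stab => exists_vl _ _ ((st_base (S := S)).map γ)
  refine ⟨MonoidHom.mk' φ fun γ δ => ?_, fun γ ms ho hr => ?_, fun H hH γ => vl_mem H hH (hφ γ)⟩
  · exact St.un _ _ (st_base.map (γ * δ)) _ _ (hφ (γ * δ))
      (vl_map γ (hφ γ) _ _ (st_base.map δ) _ (hφ δ))
  · obtain ⟨y', f', s, t, _, w⟩ := run_val (Q := fun _ => True) (fun D y s _ => St.un D y s) ms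
      D0 id y0 y0 1 (st_base (S := S)) (Trk.refl D0 y0) ho (low_true _ _ _) Vl.base
    obtain ⟨e1, e2⟩ := rigid s.2 (st_base.map (S := S) γ).2 fun k hk => by
      obtain ⟨j, hj, e⟩ := hr k hk
      exact ⟨f' j, t.lt j hj, by rw [t.val, e]⟩
    rw [← e1, ← e2, one_mul] at w
    exact St.un _ _ (st_base.map γ) _ _ (hφ γ) w

end Pool.Agent.IvT
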