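import Pool.Agent.Work.MP_497bf6_gt.Glue
import Pool.Agent.Work.MP_497bf6_gt.Chk.All
import Pool.Agent.Work.MP_497bf6_gt.GLat
import Pool.Agent.Work.MP_497bf6_gt.Top.Final

/-! Assembly: the labelled slide system with values in affine isometries. -/

namespace Pool.Agent.IvT

theorem q_id : allLt 28 (fun p => allLt 8 fun i => rowIs (dat 0) p i 0) = true := by
  decide +kernel
private def h14_t (A j : Nat) : Nat :=
  Nat.add (Nat.shiftLeft (Nat.shiftRight A j) 32) (Nat.mod (Nat.shiftRight A j) 4294967291)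
private def h14_d (A t : Nat) : Nat := Nat.land (Nat.shiftRight A t) 15
private def h14_s (f : Nat → Nat) : Nat :=
  Nat.add (Nat.add (Nat.add (f 32) (f 212)) (Nat.add (f 392) (f 572)))
    (Nat.add (Nat.add (f 752) (f 932)) (Nat.add (f 1112) (f 1292)))
private noncomputable def h14_e (X X' Y Y' : Nat) (c : Nat) : Bool :=
  bnd (Nat.beq
    (Nat.add (h14_s fun t => Nat.add (Nat.mul (h14_d X t) (h14_d Y t)) (Nat.mul (h14_d X' t) (h14_d Y' t))) 1024)
    (Nat.add (Nat.mul 8 (Nat.add (Nat.add (h14_s (h14_d X)) (h14_s (h14_d X')))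
      (Nat.add (h14_s (h14_d Y)) (h14_s (h14_d Y'))))) c))
    (Nat.beq
    (Nat.add (h14_s fun t => Nat.mul (h14_d X t) (h14_d Y' t))
      (Nat.mul 8 (Nat.add (h14_s (h14_d X')) (h14_s (h14_d Y)))))
    (Nat.add (h14_s fun t => Nat.mul (h14_d X' t) (h14_d Y t))
      (Nat.mul 8 (Nat.add (h14_s (h14_d X)) (h14_s (h14_d Y'))))))
private noncomputable def h14_U (d d' : ℕ → ℕ) : Bool :=
  allLt 28 fun p => frc (d p) fun A => bnd (Nat.beq (sbk (d' (sbk A))) p)
    (allLt 8 fun j => frc (h14_t A (Nat.mul 20 j)) fun X =>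
      frc (h14_t A (Nat.mul 20 (Nat.add 72 j))) fun X' => allLt 8 fun k =>
      frc (h14_t A (Nat.mul 20 k)) fun Y => frc (h14_t A (Nat.mul 20 (Nat.add 72 k))) fun Y' =>
      h14_e X X' Y Y' (cn (Nat.beq j k) 16 0))

private theorem h14_d1 (A j t s : Nat) (h : s = 32 + 20 * t) :
    h14_d (h14_t A (Nat.mul 20 j)) s = dig A (t + j) := by
  have e : ∀ X : ℕ, (X * 2 ^ 32 + X % 4294967291) / 2 ^ 32 = X := fun X => by omega
  rw [h14_d, h14_t, land_15, shr_eq, shr_eq, shl_eq, h, pow_add, ← Nat.div_div_eq_div_mul]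
  refine (congrArg (· / 2 ^ (20 * t) % 16) (e _)).trans ?_
  rw [dig, Nat.div_div_eq_div_mul, ← pow_add, Nat.mul_eq]
  congr 3; ring
private theorem h14_d2 (A j t s : Nat) (h : s = 32 + 20 * t) :
    h14_d (h14_t A (Nat.mul 20 (Nat.add 72 j))) s = dig A (72 + t + j) := by
  rw [h14_d1 A _ t s h, Nat.add_eq]
  congr 1; ring

private theorem h14_U_sound {d d' : ℕ → ℕ} (h : h14_U d d' = true) : chkU d d' = true := by
  simp only [h14_U, chkU, frc_eq, bnd_eq, Bool.and_eq_true, allLt_iff] at h ⊢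
  intro p hp
  refine ⟨(h p hp).1, fun j hj k hk => ?_⟩
  have e := (h p hp).2 j hj k hk
  generalize d p = A at e ⊢
  simp only [h14_e, h14_s, frc_eq, bnd_eq, Bool.and_eq_true, Nat.beq_eq, cn_eq,
    h14_d2 A j (9 * 0) 32 rfl, h14_d2 A j (9 * 1) 212 rfl,
    h14_d2 A j (9 * 2) 392 rfl, h14_d2 A j (9 * 3) 572 rfl,
    h14_d2 A j (9 * 4) 752 rfl, h14_d2 A j (9 * 5) 932 rfl,
    h14_d2 A j (9 * 6) 1112 rfl, h14_d2 A j (9 * 7) 1292 rfl,
    h14_d2 A k (9 * 0) 32 rfl, h14_d2 A k (9 * 1) 212 rfl,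
    h14_d2 A k (9 * 2) 392 rfl, h14_d2 A k (9 * 3) 572 rfl,
    h14_d2 A k (9 * 4) 752 rfl, h14_d2 A k (9 * 5) 932 rfl,
    h14_d2 A k (9 * 6) 1112 rfl, h14_d2 A k (9 * 7) 1292 rfl,
    h14_d1 A j (9 * 0) 32 rfl, h14_d1 A j (9 * 1) 212 rfl,
    h14_d1 A j (9 * 2) 392 rfl, h14_d1 A j (9 * 3) 572 rfl,
    h14_d1 A j (9 * 4) 752 rfl, h14_d1 A j (9 * 5) 932 rfl,
    h14_d1 A j (9 * 6) 1112 rfl, h14_d1 A j (9 * 7) 1292 rfl,
    h14_d1 A k (9 * 0) 32 rfl, h14_d1 A k (9 * 1) 212 rfl,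
    h14_d1 A k (9 * 2) 392 rfl, h14_d1 A k (9 * 3) 572 rfl,
    h14_d1 A k (9 * 4) 752 rfl, h14_d1 A k (9 * 5) 932 rfl,
    h14_d1 A k (9 * 6) 1112 rfl, h14_d1 A k (9 * 7) 1292 rfl] at e
  obtain ⟨e1, e2⟩ := e
  simp only [Nat.add_eq, Nat.mul_eq] at e1 e2
  have f1 := congrArg (Nat.cast : ℕ → ℤ) e1
  have f2 := congrArg (Nat.cast : ℕ → ℤ) e2
  push_cast at f1 f2
  rw [geq_iff, show List.range 8 = [0, 1, 2, 3, 4, 5, 6, 7] from rfl]
  refine Zsqrtd.ext ?_ ?_
  · have : (if j = k then (16 : GaussianInt) else 0).re = if j = k then 16 else 0 := by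
      split_ifs <;> rfl
    rw [this]
    simp only [List.map, List.sum_cons, List.sum_nil, Zsqrtd.re_add, Zsqrtd.re_mul, Zsqrtd.re_star,
      Zsqrtd.im_star, ent, Zsqrtd.re_zero]
    linear_combination f1
  · have : (if j = k then (16 : GaussianInt) else 0).im = 0 := by
      split_ifs <;> rfl
    rw [this]
    simp only [List.map, List.sum_cons, List.sum_nil, Zsqrtd.im_add, Zsqrtd.im_mul, Zsqrtd.re_star,
      Zsqrtd.im_star, ent, Zsqrtd.im_zero]
    linear_combination f2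

private theorem h14_g (l : List ℕ) (D : ℕ → ℕ → ℕ)
    (h : l.all (fun b => bnd (h14_U (D b) (D (b + 1))) (chkL (D b))) = true) :
    l.all (fun b => bnd (chkU (D b) (D (b + 1))) (chkL (D b))) = true := by
  refine List.all_eq_true.2 fun b hb => ?_
  have h' := List.all_eq_true.1 h b hb
  rw [bnd_eq, Bool.and_eq_true] at h' ⊢
  exact ⟨h14_U_sound h'.1, h'.2⟩
theorem q_base : [2, 4, 8, 32].all (fun b => bnd (chkU (dat b) (dat (b + 1))) (chkL (dat b))) = true :=
  h14_g _ dat (by decide +kernel)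
theorem q_dag : dagK db dagL 12884902719 = true := by decide +kernel
theorem q_r : runC tb db 0 msr hs_r 0 id 0 = true := by decide +kernel
theorem q_1 : runC tb db 4 SurfMod.ms1 hs_t1 0 id 0 = true := by decide +kernel
theorem q_2 : runC tb db 6 SurfMod.ms2 hs_t2 0 id 0 = true := by decide +kernel
theorem q_3 : runC tb db 946 SurfMod.ms3 hs_t3 0 id 0 = true := by decide +kernel
theorem q_d : bnd (fin db (sp (sp (sp (sp 0 (iv 948)) 946) (iv 6)) 4))
    (bnd (fin db (sp (sp (sp 0 (iv 950)) 948) 948)) (fin db (sp (sp (sp 0 (iv 952)) 950) 950))) = true := by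
  decide +kernel
theorem q_t : rowIs (dat 952) (18 : Fin 28) (0 : Fin 8) ⟨0, -4⟩ = true := by decide +kernel
theorem q_0 : tabD (tb 0) = D0 := by
  funext k
  rcases Nat.lt_or_ge k 12 with hk | hk
  · revert k; decide +kernel
  · rw [tabD, D0, if_neg (by omega), if_neg (by omega)]

theorem fmap_zero (v : V) : fmap (dat 0) v = v := by
  ext ⟨p, i⟩
  have := rowIs_sound ((allLt_iff _ _).1 ((allLt_iff _ _).1 q_id p p.2) i i.2) v
  simpa using this

/-- Affine isometries as permutations. -/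
noncomputable def jP : IV.LatG →* Equiv.Perm V :=
  MonoidHom.mk' (fun e => (e : V ≃ᵃⁱ[ℂ] V).toEquiv) fun _ _ => rfl

theorem jP_apply (e : IV.LatG) (v : V) : jP e v = (e : V ≃ᵃⁱ[ℂ] V) v := rfl

theorem jP_inj : Function.Injective jP := fun a b h =>
  Subtype.ext (AffineIsometryEquiv.ext fun v => by rw [← jP_apply, h, jP_apply])

theorem gP_db (c : ℕ) : Wd (gP dat) (db.get c) = 1 :=
  relK_sound fmap_zero inv_all (Tr.all_get db_all c)

theorem gP_mem : ∀ x, x < 1024 → gP dat x ∈ jP.range := by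
  have hl := gP_lab fmap_zero inv_all
  have b : ∀ b ∈ [2, 4, 8, 32], gP dat b ∈ jP.range := fun b hb => by
    have h := List.all_eq_true.1 q_base b hb
    rw [bnd_eq, Bool.and_eq_true] at h
    obtain ⟨e, he⟩ := chkU_sound h.1
    refine ⟨⟨e, chkL_sound h.2 he⟩, Equiv.ext fun v => ?_⟩
    rw [gP_apply fmap_zero inv_all (by simp at hb; omega), jP_apply, he]
  have b' : ∀ b ∈ [2, 4, 8, 32], gP dat (iv b) ∈ jP.range := fun c hc => by
    rw [hl.inv]; exact inv_mem (b c hc)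
  refine dagK_spec hl gP_db _ dagL _ (fun i hi => ?_) q_dag
  have h1 : i < 34 := by
    by_contra h
    rw [Nat.testBit_lt_two_pow (lt_of_lt_of_le (by norm_num)
      (Nat.pow_le_pow_right (by norm_num) (not_lt.1 h)))] at hi
    exact absurd hi (by simp)
  have h2 : ∀ i, i < 34 → Nat.testBit 12884902719 i = true →
      i = 0 ∨ i = 1 ∨ ∃ c ∈ [2, 4, 8, 32], i = c ∨ i = iv c := by decide +kernel
  rcases h2 i h1 hi with rfl | rfl | ⟨c, hc, rfl | rfl⟩
  · rw [hl.zero]; exact one_mem _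
  · rw [hl.one]; exact one_mem _
  · exact b _ hc
  · exact b' _ hc

theorem exists_sys : ∃ S : Sys IV.LatG, run S.g D0 id msr = 1 ∧
    ∀ v, IV.LatG.subtype (SurfMod.chain S.g ^ 4) v ≠ v := by
  have hl : Lab (liftL (gP dat) jP) := liftL_lab jP_inj (gP_lab fmap_zero inv_all)
  have hdb : ∀ c, Wd (liftL (gP dat) jP) (db.get c) = 1 := fun c => liftL_wd jP_inj gP_mem (gP_db c)
  have H : ∀ n, n < 1485 → k1 tb fd n = true := fun n h => (k12_all n h).1
  have R : ∀ z ms hs, runC tb db z ms hs 0 id 0 = true →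
      run (gT (liftL (gP dat) jP) tb fd) D0 id ms = liftL (gP dat) jP z := fun z ms hs h => by
    have := runC_spec H hl hdb z ms hs 0 id 0 (by norm_num) (by norm_num) h
    rwa [hl.zero, one_mul, q_0] at this
  refine ⟨mkSys hl hdb H (fun n h => (k12_all n h).2) q_0, (R _ _ _ q_r).trans hl.zero, fun v => ?_⟩
  have e : SurfMod.chain (gT (liftL (gP dat) jP) tb fd) ^ 4 = liftL (gP dat) jP 952 := by
    have h := q_d
    simp only [bnd_eq, Bool.and_eq_true] at h
    have e1 := hl.fin hdb h.1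
    have e2 := hl.fin hdb h.2.1
    have e3 := hl.fin hdb h.2.2
    rw [hl.sp _ (by norm_num), hl.sp _ (iv_lt (by norm_num)), hl.sp _ (by norm_num),
      hl.sp _ (iv_lt (by norm_num)), hl.inv, hl.inv, Wd_zero, mul_one, ← mul_assoc, ← mul_assoc,
      mul_inv_eq_one] at e1
    rw [hl.sp _ (by norm_num), hl.sp _ (by norm_num), hl.sp _ (iv_lt (by norm_num)), hl.inv,
      Wd_zero, mul_one, ← mul_assoc, mul_inv_eq_one] at e2 e3
    rw [SurfMod.chain, R _ _ _ q_1, R _ _ _ q_2, R _ _ _ q_3, e1, ← e3, ← e2, pow_succ, pow_succ,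
      pow_two, mul_assoc]
  have e0 : (mkSys hl hdb H (fun n h => (k12_all n h).2) q_0).g = gT (liftL (gP dat) jP) tb fd := rfl
  rw [e0, e, Subgroup.subtype_apply, ← jP_apply, liftL_spec (gP_mem _ (by norm_num)), gP_apply fmap_zero inv_all (by norm_num)]
  intro h
  have h1 := rowIs_sound q_t v
  rw [h, left_eq_add, div_eq_zero_iff] at h1
  rcases h1 with h1 | h1
  · exact absurd (GaussianInt.toComplex_eq_zero.1 h1) (by decide)
  · norm_num at h1

/-- A unitary representation with finite image of the mapping class group of the surface of genus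
three with one marked point, and a cocycle that is not a coboundary. -/
theorem main : ∃ (ρ : SurfMod.Mod 3 →* (V ≃ₗᵢ[ℂ] V)) (c : SurfMod.Mod 3 → V),
    (Set.range ρ).Finite ∧ (∀ a b, c (a * b) = c a + ρ a (c b)) ∧
      ¬ ∃ v : V, ∀ a, c a = ρ a v - v := by
  obtain ⟨S, h1, h2⟩ := exists_sys
  exact SurfMod.final IV.LatG.subtype finite_subtype S h1 h2

end Pool.Agent.IvT
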