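import Pool.Agent.Work.MP_497bf6_gt.Chk.All
import Pool.Agent.Work.MP_497bf6_gt.M0.Snd

/-! Plan (programs in K0.lean). `X = 2 ^ 20`, `NN = X ^ 144 + 1`, `ev : GaussianInt →+* ZMod NN` with `i ↦ X ^ 72` (`Zsqrtd.lift`).
Homogeneous matrix `hm a : Matrix (Fin 9) (Fin 9) GaussianInt`, rows `i < 8` from `ent a i k`, last row `(0,..,0,4)`;
`val M = ∑ i < 8, ∑ k < 9, ev (M i k) * X ^ (9 i + k)`.
(L0) mask lemma: `n &&& rep (2 ^ b - 1) s m = ∑ i < m, (n / 2 ^ (s i) % 2 ^ b) * 2 ^ (s i)` for `b ≤ s` (induction on `m`, `Nat.and_div_two_pow`,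
`Nat.and_mod_two_pow` or `testBit`); `dup (rep c 20 9)` likewise.
(L1) `(col a (20 j) : ZMod NN) = ∑ i < 8, ev (ent a i j) * X ^ (9 i)`, `(row a (180 j)) = ∑ k < 9, ev (ent a j k) * X ^ k`, so
`dot a b = val (hm a * hm b)` in `ZMod NN`.
(L2) uniqueness: integers `d t`, `|d t| < X`, `∑ t < 144, d t * X ^ t ≡ 0 mod NN` gives `d = 0`; so `val M = val M'` and all parts of `M - M'` below `X`
in absolute value give equal first eight rows. Bounds: parts of `ent` lie in `[-8, 7]`; a product of two has parts at most `9 * 2 * 64 = 1152`,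
of three at most `9 * 2 * 8 * 1152`.
(L3) for `chk32`: `h < X ^ 144` has full digits; the matrix `H` with entries digit minus `2 ^ 19` has `val H = val (hm B * hm C)`, so equals it by (L2)
(`2 ^ 19 + 1152 < X`); `slt h >>> (s + 64) = h >>> s`; the corner of `hm B * hm C` is `16`.
(L4) `fmap d (fmap d' v) (p, i)` is `(row i of hm (d p) * hm (d' (sbk (d p)))` applied to `(v (s, ·), 1)`, over `16`. -/

namespace Pool.Agent.IvT

open Finset Pool.Agent.IV

theorem GChk_split (n c r s : ℕ) (hc : c < 2 ^ s) :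
    n &&& (c + r * 2 ^ s) = (n &&& c) + (n / 2 ^ s &&& r) * 2 ^ s := by
  have hp : 0 < 2 ^ s := Nat.two_pow_pos s
  have h1 : (c + r * 2 ^ s) % 2 ^ s = c := by
    rw [Nat.add_mul_mod_self_right, Nat.mod_eq_of_lt hc]
  have h2 : (c + r * 2 ^ s) / 2 ^ s = r := by
    rw [Nat.add_mul_div_right _ _ hp, Nat.div_eq_of_lt hc, zero_add]
  have h3 : n % 2 ^ s &&& c = n &&& c := by
    have := Nat.and_mod_two_pow (a := n) (b := c) (n := s)
    rw [Nat.mod_eq_of_lt hc, Nat.mod_eq_of_lt (Nat.and_le_right.trans_lt hc)] at this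
    exact this.symm
  rw [← Nat.mod_add_div' (n &&& (c + r * 2 ^ s)) (2 ^ s), Nat.and_mod_two_pow,
    Nat.and_div_two_pow, h1, h2, h3]

theorem GChk_rep_succ (c s m : ℕ) : rep c s (m + 1) = c + rep c s m * 2 ^ s := by
  rw [← Nat.shiftLeft_eq]; rfl

theorem GChk_rep (c s m : ℕ) : rep c s m = ∑ i ∈ range m, c * 2 ^ (s * i) := by
  induction m with
  | zero => rfl
  | succ m ih =>
    rw [GChk_rep_succ, ih, sum_range_succ', sum_mul, add_comm, mul_zero, pow_zero, mul_one]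
    congr 1
    exact sum_congr rfl fun i _ => by rw [mul_add, mul_one, pow_add, mul_assoc]

theorem GChk_mask {b s : ℕ} (hb : b ≤ s) (m n : ℕ) :
    n &&& rep (2 ^ b - 1) s m = ∑ i ∈ range m, n / 2 ^ (s * i) % 2 ^ b * 2 ^ (s * i) := by
  induction m generalizing n with
  | zero => simp [rep]
  | succ m ih =>
    have hc : 2 ^ b - 1 < 2 ^ s := by
      have := Nat.pow_le_pow_right (show 0 < 2 by norm_num) hb
      have := Nat.two_pow_pos b
      omega
    rw [GChk_rep_succ, GChk_split _ _ _ _ hc, ih, Nat.and_two_pow_sub_one_eq_mod, sum_range_succ',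
      sum_mul, add_comm, mul_zero, pow_zero, mul_one, Nat.div_one]
    congr 1
    exact sum_congr rfl fun i _ => by
      rw [Nat.div_div_eq_div_mul, mul_add, mul_one, pow_add, mul_assoc, mul_comm (2 ^ s)]

/-- The base. -/
def xx : ZMod NN := 2 ^ 20

theorem GChk_pow (t : ℕ) : (2 : ZMod NN) ^ (20 * t) = xx ^ t := pow_mul _ _ _

theorem GChk_NN : NN = 2 ^ (20 * 144) + 1 := by decide +kernel

theorem GChk_sq : xx ^ 72 * xx ^ 72 = ((-1 : ℤ) : ZMod NN) := by
  have h : ((2 ^ (20 * 144) + 1 : ℕ) : ZMod NN) = 0 := by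
    rw [← GChk_NN]; exact ZMod.natCast_self _
  rw [Nat.cast_add, Nat.cast_pow, Nat.cast_ofNat, GChk_pow, Nat.cast_one] at h
  rw [← pow_add, Int.cast_neg, Int.cast_one]
  exact eq_neg_of_add_eq_zero_left h

/-- Reduction modulo `NN`. -/
def ev : GaussianInt →+* ZMod NN := Zsqrtd.lift ⟨xx ^ 72, GChk_sq⟩

theorem ev_apply (z : GaussianInt) : ev z = z.re + z.im * xx ^ 72 := rfl

/-- The low `b` bits of digit `t`. -/
def dg (b a t : ℕ) : ℕ := a / 2 ^ (20 * t) % 2 ^ b

theorem dg_div (b a t k : ℕ) : dg b (a / 2 ^ (20 * t)) k = dg b a (t + k) := by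
  rw [dg, dg, Nat.div_div_eq_div_mul, ← pow_add, mul_add]

theorem GChk_sub {y : ℕ} (hy : y ≤ NN) : ((Nat.sub NN y : ℕ) : ZMod NN) = -(y : ZMod NN) := by
  rw [Nat.sub_eq, Nat.cast_sub hy, ZMod.natCast_self, zero_sub]

theorem GChk_dup (x : ℕ) : dup x = x + x * 2 ^ (20 * 72) := by
  rw [← Nat.shiftLeft_eq]; rfl

theorem GChk_col (a j : ℕ) :
    ((col a (20 * j) : ℕ) : ZMod NN) = ∑ i ∈ range 8, ev (ent a i j) * xx ^ (9 * i) := by
  have h1 : col a (20 * j) = (a / 2 ^ (20 * j) &&& rep (2 ^ 4 - 1) 180 (8 + 8)) +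
      Nat.sub NN (rep 8 180 (8 + 8)) := by
    rw [← Nat.shiftRight_eq_div_pow]; rfl
  have h2 : ∀ i, a / 2 ^ (20 * j) / 2 ^ (180 * i) % 2 ^ 4 = dig a (9 * i + j) := fun i => by
    rw [Nat.div_div_eq_div_mul, ← pow_add, dig, show 20 * j + 180 * i = 20 * (9 * i + j) by ring,
      show 2 ^ 4 = 16 from rfl]
  have h3 : ∀ i, (2 : ZMod NN) ^ (180 * i) = xx ^ (9 * i) := fun i => by
    rw [← GChk_pow, show 180 * i = 20 * (9 * i) by ring]
  rw [h1, Nat.cast_add, GChk_sub (by decide +kernel), GChk_mask (by norm_num), GChk_rep]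
  simp only [h2, Nat.cast_sum, Nat.cast_mul, Nat.cast_pow, Nat.cast_ofNat, h3, sum_range_add,
    Nat.cast_add]
  rw [← sub_eq_add_neg, ← sum_add_distrib, ← sum_add_distrib, ← sum_sub_distrib]
  refine sum_congr rfl fun i _ => ?_
  rw [ev_apply, ent, show 9 * (8 + i) = 72 + 9 * i by ring, pow_add]
  push_cast
  ring

theorem GChk_rowg {b c : ℕ} (hb : b ≤ 20) (h1 : rep (2 ^ b - 1) 20 9 < 2 ^ (20 * 72))
    (h2 : dup (rep c 20 9) ≤ NN) (n : ℕ) :
    (((n &&& dup (rep (2 ^ b - 1) 20 9)) + Nat.sub NN (dup (rep c 20 9)) : ℕ) : ZMod NN) =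
      ∑ k ∈ range 9, ev ⟨(dg b n k : ℤ) - c, (dg b n (72 + k) : ℤ) - c⟩ * xx ^ k := by
  rw [Nat.cast_add, GChk_sub h2, GChk_dup, GChk_dup, GChk_split _ _ _ _ h1, GChk_mask hb,
    GChk_mask hb, GChk_rep]
  simp only [← dg.eq_1, dg_div, Nat.cast_add, Nat.cast_sum, Nat.cast_mul, Nat.cast_pow,
    Nat.cast_ofNat, GChk_pow, sum_mul]
  rw [← sub_eq_add_neg, ← sum_add_distrib, ← sum_add_distrib, ← sum_sub_distrib]
  refine sum_congr rfl fun k _ => ?_
  rw [ev_apply]
  push_cast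
  ring

theorem GChk_row (a j : ℕ) :
    ((row a (180 * j) : ℕ) : ZMod NN) = ∑ k ∈ range 9, ev (ent a j k) * xx ^ k := by
  have h1 : row a (180 * j) = (a / 2 ^ (20 * (9 * j)) &&& dup (rep (2 ^ 4 - 1) 20 9)) +
      Nat.sub NN (dup (rep 8 20 9)) := by
    rw [← Nat.shiftRight_eq_div_pow, show 20 * (9 * j) = 180 * j by ring]; rfl
  rw [h1, GChk_rowg (by norm_num) (by decide +kernel) (by decide +kernel)]
  refine sum_congr rfl fun k _ => ?_
  rw [dg_div, dg_div, show 9 * j + (72 + k) = 72 + 9 * j + k by ring]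
  rfl

/-- The matrix read from the full digits. -/
def entH (h i k : ℕ) : GaussianInt :=
  ⟨(dg 20 h (9 * i + k) : ℤ) - (524288 : ℕ), (dg 20 h (72 + 9 * i + k) : ℤ) - (524288 : ℕ)⟩

theorem GChk_rowH (h j : ℕ) :
    ((rowH (slt h) (180 * j) : ℕ) : ZMod NN) = ∑ k ∈ range 9, ev (entH h j k) * xx ^ k := by
  have h0 : slt h / 2 ^ (180 * j + 64) = h / 2 ^ (20 * (9 * j)) := by
    have e : slt h = h % 18446744073709551557 + h * 2 ^ 64 := by
      rw [← Nat.shiftLeft_eq, add_comm]; rfl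
    have : h % 18446744073709551557 < 2 ^ 64 :=
      (Nat.mod_lt _ (by norm_num)).trans (by norm_num)
    rw [e, pow_add, mul_comm (2 ^ (180 * j)), ← Nat.div_div_eq_div_mul,
      Nat.add_mul_div_right _ _ (Nat.two_pow_pos _), Nat.div_eq_of_lt this, zero_add,
      show 20 * (9 * j) = 180 * j by ring]
  have h1 : rowH (slt h) (180 * j) =
      (h / 2 ^ (20 * (9 * j)) &&& dup (rep (2 ^ 20 - 1) 20 9)) +
        Nat.sub NN (dup (rep 524288 20 9)) := by
    rw [← h0, ← Nat.shiftRight_eq_div_pow]; rfl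
  rw [h1, GChk_rowg le_rfl (by decide +kernel) (by decide +kernel)]
  refine sum_congr rfl fun k _ => ?_
  rw [dg_div, dg_div, show 9 * j + (72 + k) = 72 + 9 * j + k by ring]
  rfl

/-- The homogeneous matrix of a block. -/
def hm (a i k : ℕ) : GaussianInt := if i < 8 then ent a i k else if k = 8 then 4 else 0

/-- The product of matrices. -/
def pr (A B : ℕ → ℕ → GaussianInt) (i k : ℕ) : GaussianInt := ∑ j ∈ range 9, A i j * B j k

/-- The packed value of the first eight rows. -/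
def val (M : ℕ → ℕ → GaussianInt) : ZMod NN :=
  ∑ i ∈ range 8, ∑ k ∈ range 9, ev (M i k) * (xx ^ (9 * i) * xx ^ k)

theorem GChk_dotw (a : ℕ) (w : ℕ → ℕ) (z : ℕ) (N : ℕ → ℕ → GaussianInt)
    (hw : ∀ j, j < 8 → (w (180 * j) : ZMod NN) = ∑ k ∈ range 9, ev (N j k) * xx ^ k)
    (hz : (z : ZMod NN) = ∑ k ∈ range 9, ev (N 8 k) * xx ^ k) :
    ((dotw a w z : ℕ) : ZMod NN) = val (pr (hm a) N) := by
  have h1 : dotw a w z = ∑ j ∈ range 8, col a (20 * j) * w (180 * j) + col a (20 * 8) * z := by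
    simp only [sum_range_succ, range_zero, sum_empty, zero_add, add_assoc, dotw, Nat.add_eq,
      Nat.mul_eq, Nat.reduceMul, mul_zero, mul_one]
  have h2 : ((dotw a w z : ℕ) : ZMod NN) = ∑ j ∈ range 9,
      (∑ i ∈ range 8, ev (ent a i j) * xx ^ (9 * i)) * ∑ k ∈ range 9, ev (N j k) * xx ^ k := by
    rw [h1, sum_range_succ _ 8, Nat.cast_add, Nat.cast_mul, Nat.cast_sum, GChk_col, hz]
    rw [sum_congr rfl fun j hj => by rw [Nat.cast_mul, GChk_col, hw j (mem_range.1 hj)]]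
  rw [h2, val]
  simp only [sum_mul_sum]
  simp only [pr, map_sum, map_mul, sum_mul]
  rw [sum_comm]
  refine sum_congr rfl fun i hi => ?_
  rw [sum_comm]
  refine sum_congr rfl fun k _ => sum_congr rfl fun j _ => ?_
  simp only [hm, if_pos (mem_range.1 hi)]
  ring

theorem GChk_corner (c : ℕ) (N : ℕ → ℕ → GaussianInt)
    (h : ∀ k, N 8 k = if k = 8 then (c : GaussianInt) else 0) :
    ((Nat.shiftLeft c 160 : ℕ) : ZMod NN) = ∑ k ∈ range 9, ev (N 8 k) * xx ^ k := by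
  have e : Nat.shiftLeft c 160 = c * 2 ^ (20 * 8) := Nat.shiftLeft_eq _ _
  rw [e, Nat.cast_mul, Nat.cast_pow, Nat.cast_ofNat, GChk_pow, sum_eq_single 8, h, if_pos rfl,
    map_natCast]
  · intro k _ hk
    rw [h, if_neg hk, map_zero, zero_mul]
  · simp

theorem GChk_dot4 (a b : ℕ) : ((dotw a (row b) x4 : ℕ) : ZMod NN) = val (pr (hm a) (hm b)) :=
  GChk_dotw a _ _ _ (fun j hj => by simp only [GChk_row, hm, if_pos hj])
    (GChk_corner 4 _ fun k => by simp [hm])

theorem GChk_dot (a b : ℕ) : ((dot a b : ℕ) : ZMod NN) = val (pr (hm a) (hm b)) :=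
  (ZMod.natCast_mod _ _).trans (GChk_dot4 a b)

theorem GChk_sum9 {M : Type*} [AddCommMonoid M] (f : ℕ → M) (m : ℕ) :
    ∑ t ∈ range (9 * m), f t = ∑ i ∈ range m, ∑ k ∈ range 9, f (9 * i + k) := by
  induction m with
  | zero => rfl
  | succ m ih => rw [mul_add, mul_one, sum_range_add, ih, sum_range_succ _ m]

theorem GChk_val {M : ℕ → ℕ → GaussianInt} {d : ℕ → ℤ}
    (h : ∀ i, i < 8 → ∀ k, k < 9 → M i k = ⟨d (9 * i + k), d (72 + 9 * i + k)⟩) :
    val M = ∑ t ∈ range 144, (d t : ZMod NN) * xx ^ t := by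
  rw [show 144 = 9 * 8 + 9 * 8 from rfl, sum_range_add, GChk_sum9, GChk_sum9, ← sum_add_distrib]
  refine sum_congr rfl fun i hi => ?_
  rw [← sum_add_distrib]
  refine sum_congr rfl fun k hk => ?_
  rw [h i (mem_range.1 hi) k (mem_range.1 hk), ev_apply,
    show 9 * 8 + (9 * i + k) = 72 + 9 * i + k by ring]
  simp only [pow_add]
  ring

theorem GChk_uniq {M M' : ℕ → ℕ → GaussianInt} (h : val M = val M')
    (hb : ∀ i k, |(M i k - M' i k).re| < 2 ^ 20 ∧ |(M i k - M' i k).im| < 2 ^ 20)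
    {i k : ℕ} (hi : i < 8) (hk : k < 9) : M i k = M' i k := by
  let d : ℕ → ℤ := fun t => if t < 72 then (M (t / 9) (t % 9) - M' (t / 9) (t % 9)).re
    else (M ((t - 72) / 9) ((t - 72) % 9) - M' ((t - 72) / 9) ((t - 72) % 9)).im
  have hd : ∀ i, i < 8 → ∀ k, k < 9 →
      M i k - M' i k = ⟨d (9 * i + k), d (72 + 9 * i + k)⟩ := by
    intro i hi k hk
    simp only [d]
    rw [if_pos (by omega), if_neg (by omega), show (9 * i + k) / 9 = i by omega,
      show (9 * i + k) % 9 = k by omega, show (72 + 9 * i + k - 72) / 9 = i by omega,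
      show (72 + 9 * i + k - 72) % 9 = k by omega]
  have h0 : val (fun i k => M i k - M' i k) = 0 := by
    rw [← sub_self (val M')]
    nth_rewrite 1 [← h]
    simp only [val, map_sub, sub_mul, sum_sub_distrib]
  obtain ⟨h1, h2⟩ := digits (2 ^ 20) d 144 fun t _ => by
    simp only [d]
    split_ifs
    exacts [(hb _ _).1, (hb _ _).2]
  have h3 : ((∑ t ∈ range 144, d t * (2 ^ 20) ^ t : ℤ) : ZMod NN) = 0 := by
    rw [← h0, GChk_val hd, Int.cast_sum]
    refine sum_congr rfl fun t _ => ?_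
    rw [Int.cast_mul, Int.cast_pow, Int.cast_pow, Int.cast_ofNat, xx]
  rw [ZMod.intCast_zmod_eq_zero_iff_dvd] at h3
  have h4 := h2 (Int.eq_zero_of_abs_lt_dvd h3 (h1.trans (by
    rw [GChk_NN, Nat.cast_add, Nat.cast_pow, Nat.cast_ofNat, pow_mul, Nat.cast_one]
    exact lt_add_one _)))
  rw [← sub_eq_zero, hd i hi k hk, h4 _ (by omega), h4 _ (by omega)]
  rfl

theorem GChk_nrm_hm (a i k : ℕ) : nrm (hm a i k) ≤ 16 := by
  rw [hm]
  split_ifs
  · have h1 : dig a (9 * i + k) < 16 := Nat.mod_lt _ (by norm_num)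
    have h2 : dig a (72 + 9 * i + k) < 16 := Nat.mod_lt _ (by norm_num)
    have h3 : |(dig a (9 * i + k) : ℤ) - 8| ≤ 8 := by rw [abs_le]; omega
    have h4 : |(dig a (72 + 9 * i + k) : ℤ) - 8| ≤ 8 := by rw [abs_le]; omega
    simp only [nrm, ent]
    linarith
  · decide
  · decide

theorem GChk_nrm_pr {A B : ℕ → ℕ → GaussianInt} {c c' : ℤ} (hA : ∀ i k, nrm (A i k) ≤ c)
    (hB : ∀ i k, nrm (B i k) ≤ c') (i k : ℕ) : nrm (pr A B i k) ≤ 9 * (c * c') := by
  refine (nrm_sum _ _).trans ((sum_le_card_nsmul _ _ (c * c') fun j _ => (nrm_mul _ _).trans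
    (mul_le_mul (hA _ _) (hB _ _) (nrm_nonneg _) ((nrm_nonneg _).trans (hA i j)))).trans ?_)
  simp

theorem GChk_parts {z w : GaussianInt} {c : ℤ} (h : nrm z + nrm w < c) :
    |(z - w).re| < c ∧ |(z - w).im| < c := by
  have h1 := nrm_add z (-w)
  rw [nrm_neg, ← sub_eq_add_neg] at h1
  have h2 := abs_nonneg (z - w).re
  have h3 := abs_nonneg (z - w).im
  have h4 : nrm (z - w) = |(z - w).re| + |(z - w).im| := rfl
  constructor <;> linarith

theorem GChk_ones : rep (2 ^ 20 - 1) 20 144 = 2 ^ (20 * 144) - 1 := by decide +kernel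

theorem GChk_digits {h m n : ℕ} (e : rep (2 ^ 20 - 1) 20 m = 2 ^ n - 1) (hl : h < 2 ^ n) :
    h = ∑ t ∈ range m, dg 20 h t * 2 ^ (20 * t) := by
  have := GChk_mask (le_refl 20) m h
  rwa [e, Nat.and_two_pow_sub_one_eq_mod, Nat.mod_eq_of_lt hl] at this

theorem GChk_H {B C h : ℕ} (e : h = (dotw B (row C) x4 + pH) % NN) (hl : h < 2 ^ (20 * 144))
    {i k : ℕ} (hi : i < 8) (hk : k < 9) : entH h i k = pr (hm B) (hm C) i k := by
  refine GChk_uniq (M := entH h) ?_ (fun i k => ?_) hi hk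
  · have h1 := GChk_digits GChk_ones hl
    have h2 : (h : ZMod NN) = val (pr (hm B) (hm C)) + (rep 524288 20 144 : ℕ) := by
      rw [e, ZMod.natCast_mod, Nat.cast_add, GChk_dot4]; rfl
    rw [GChk_val (M := entH h) (d := fun t => (dg 20 h t : ℤ) - (524288 : ℕ)) fun _ _ _ _ => rfl,
      eq_sub_of_add_eq h2.symm, GChk_rep]
    conv_rhs => rw [h1]
    simp only [Nat.cast_sum, Nat.cast_mul, Nat.cast_pow, Nat.cast_ofNat, GChk_pow,
      ← sum_sub_distrib, Int.cast_sub, Int.cast_natCast, Int.cast_ofNat, sub_mul]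
  · have h1 := GChk_nrm_pr (GChk_nrm_hm B) (GChk_nrm_hm C) i k
    have h2 : dg 20 h (9 * i + k) < 2 ^ 20 := Nat.mod_lt _ (by norm_num)
    have h3 : dg 20 h (72 + 9 * i + k) < 2 ^ 20 := Nat.mod_lt _ (by norm_num)
    have h4 := abs_nonneg (pr (hm B) (hm C) i k).re
    have h5 := abs_nonneg (pr (hm B) (hm C) i k).im
    have h6 := abs_le.1 (show |(pr (hm B) (hm C) i k).re| ≤ 2304 by rw [nrm] at h1; linarith)
    have h7 := abs_le.1 (show |(pr (hm B) (hm C) i k).im| ≤ 2304 by rw [nrm] at h1; linarith)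
    simp only [Zsqrtd.re_sub, Zsqrtd.im_sub, entH, abs_lt]
    omega

/-- Homogeneous coordinates on a block. -/
noncomputable def hc (v : V) (p : Fin 28) (k : ℕ) : ℂ := if h : k < 8 then v (p, ⟨k, h⟩) else 1

/-- A matrix applied to a vector. -/
noncomputable def app (M : ℕ → ℕ → GaussianInt) (u : ℕ → ℂ) (i : ℕ) : ℂ :=
  ∑ j ∈ range 9, GaussianInt.toComplex (M i j) * u j

/-- The source block. -/
def sb (d : ℕ → ℕ) (p : Fin 28) : Fin 28 := ⟨sbk (d p), sbk_lt _⟩

theorem app_pr (M N : ℕ → ℕ → GaussianInt) (u : ℕ → ℂ) (c : ℂ) (i : ℕ) :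
    app M (fun j => app N u j / c) i = app (pr M N) u i / c := by
  simp only [app, pr, map_sum, map_mul, sum_mul, sum_div, mul_sum]
  rw [sum_comm]
  exact sum_congr rfl fun k _ => sum_congr rfl fun j _ => by ring

theorem hc_fmap (d : ℕ → ℕ) (v : V) (p : Fin 28) :
    hc (fmap d v) p = fun i => app (hm (d p)) (hc v (sb d p)) i / 4 := by
  funext i
  by_cases hi : i < 8
  · rw [hc, dif_pos hi, app, sum_range_succ, ← Fin.sum_univ_eq_sum_range
      (fun j => GaussianInt.toComplex (hm (d p) i j) * hc v (sb d p) j) 8]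
    simp only [hm, if_pos hi, hc, Fin.is_lt, dif_pos, lt_self_iff_false, dif_neg,
      not_false_eq_true, mul_one]
    rfl
  · rw [hc, dif_neg hi, app, sum_eq_single 8]
    · simp only [hm, if_neg hi, if_true, hc, lt_self_iff_false, dif_neg, not_false_eq_true,
        mul_one, map_ofNat]
      norm_num
    · intro k _ hk
      rw [hm, if_neg hi, if_neg hk, map_zero, zero_mul]
    · simp

theorem hc_ext {v w : V} (h : ∀ p i, i < 8 → hc v p i = hc w p i) : v = w := by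
  ext ⟨p, i⟩
  simpa only [hc, i.2, dif_pos] using h p i i.2

theorem chk22_sound {dat : ℕ → ℕ → ℕ} {a b c d : ℕ} (h : chk22 dat a b c d = true) (v : V) :
    fmap (dat a) (fmap (dat b) v) = fmap (dat c) (fmap (dat d) v) := by
  refine hc_ext fun p i hi => ?_
  have h1 := (allLt_iff _ _).1 h p p.2
  simp only [frc_eq, bnd_eq, Bool.and_eq_true, Nat.beq_eq] at h1
  have h2 := congrArg (Nat.cast : ℕ → ZMod NN) h1.2
  rw [GChk_dot, GChk_dot] at h2
  have h3 : sb (dat b) (sb (dat a) p) = sb (dat d) (sb (dat c) p) := Fin.ext h1.1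
  simp only [hc_fmap, app_pr, h3]
  congr 2
  refine sum_congr rfl fun k hk => ?_
  congr 2
  refine GChk_uniq h2 (fun i k => GChk_parts ?_) hi (mem_range.1 hk)
  have := GChk_nrm_pr (GChk_nrm_hm (dat a p)) (GChk_nrm_hm (dat b (sbk (dat a p)))) i k
  have := GChk_nrm_pr (GChk_nrm_hm (dat c p)) (GChk_nrm_hm (dat d (sbk (dat c p)))) i k
  linarith

theorem chk32_sound {dat : ℕ → ℕ → ℕ} {a b c d e : ℕ} (h : chk32 dat a b c d e = true) (v : V) :
    fmap (dat a) (fmap (dat b) (fmap (dat c) v)) = fmap (dat d) (fmap (dat e) v) := by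
  refine hc_ext fun p i hi => ?_
  have h1 := (allLt_iff _ _).1 h p p.2
  simp only [frc_eq, bnd_eq, Bool.and_eq_true, Nat.beq_eq] at h1
  obtain ⟨h1, hl, h2⟩ := h1
  have h3 : sb (dat c) (sb (dat b) (sb (dat a) p)) = sb (dat e) (sb (dat d) p) := Fin.ext h1
  simp only [hc_fmap, app_pr, h3, div_div]
  change app (pr (hm (dat a p)) (pr (hm (dat b (sbk (dat a p))))
      (hm (dat c (sbk (dat b (sbk (dat a p)))))))) _ i / _ =
    app (pr (hm (dat d p)) (hm (dat e (sbk (dat d p))))) _ i / _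
  generalize dat c (sbk (dat b (sbk (dat a p)))) = C at hl h2 ⊢
  generalize dat b (sbk (dat a p)) = B at hl h2 ⊢
  generalize dat e (sbk (dat d p)) = E at h2 ⊢
  generalize dat a p = A at h2 ⊢
  generalize dat d p = D at h2 ⊢
  generalize hh : (Nat.add (dotw B (row C) x4) pH).mod NN = g at hl h2
  have hg : g < 2 ^ (20 * 144) := by
    have : g / 2 ^ (20 * 144) = 0 := by rw [← Nat.shiftRight_eq_div_pow]; exact hl
    exact (Nat.div_eq_zero_iff_lt (Nat.two_pow_pos _)).1 this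
  have h4 : ((dotw A (rowH (slt g)) x16 : ℕ) : ZMod NN) = val (pr (hm A) (pr (hm B) (hm C))) := by
    refine GChk_dotw A _ _ _ (fun j hj => ?_) (GChk_corner 16 _ fun k => ?_)
    · rw [GChk_rowH]
      exact sum_congr rfl fun k hk => by rw [GChk_H hh.symm hg hj (mem_range.1 hk)]
    · rw [pr, sum_eq_single 8]
      · simp only [hm, lt_self_iff_false, if_false, if_true]
        split_ifs <;> norm_num
      · intro j _ hj
        simp only [hm, lt_self_iff_false, if_false, if_neg hj, zero_mul]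
      · simp
  have h5 : val (pr (hm A) (pr (hm B) (hm C))) = val fun i k => 4 * pr (hm D) (hm E) i k := by
    have := congrArg (Nat.cast : ℕ → ZMod NN) h2
    rw [← h4, ← ZMod.natCast_mod]
    refine this.trans ((ZMod.natCast_mod _ _).trans ?_)
    rw [Nat.mul_eq, Nat.cast_mul, GChk_dot]
    simp only [val, map_mul, map_ofNat, mul_sum, mul_assoc, Nat.cast_ofNat]
  have h6 : ∀ u, app (pr (hm A) (pr (hm B) (hm C))) u i = 4 * app (pr (hm D) (hm E)) u i := by
    intro u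
    rw [app, app, mul_sum]
    refine sum_congr rfl fun k hk => ?_
    rw [GChk_uniq h5 (fun i k => GChk_parts ?_) hi (mem_range.1 hk), map_mul, map_ofNat, mul_assoc]
    have a1 := GChk_nrm_pr (GChk_nrm_hm A) (GChk_nrm_pr (GChk_nrm_hm B) (GChk_nrm_hm C)) i k
    have a2 := GChk_nrm_pr (GChk_nrm_hm D) (GChk_nrm_hm E) i k
    have a3 := nrm_mul 4 (pr (hm D) (hm E) i k)
    rw [show nrm 4 = 4 by decide] at a3
    linarith
  rw [h6]
  ring

end Pool.Agent.IvT
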