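import Pool.Agent.Work.MP_497bf6_gt.Chk.All
import Pool.Agent.Work.MP_497bf6_gt.GChk

/-! The labels as permutations of `V`; long paths; membership of all labels in a subgroup. -/

namespace Pool.Agent.IvT

section perm
variable (dat : ℕ → ℕ → ℕ)

open Classical in
/-- The permutation given by two maps that are inverse to each other. -/
noncomputable def mkP (f g : V → V) : Equiv.Perm V :=
  if h : (∀ v, f (g v) = v) ∧ (∀ v, g (f v) = v) then ⟨f, g, h.2, h.1⟩ else 1

theorem mkP_inv (f g : V → V) : mkP g f = (mkP f g)⁻¹ := by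
  unfold mkP
  split_ifs with h1 h2 h2
  · rfl
  · exact absurd h1.symm h2
  · exact absurd h2.symm h1
  · rfl

/-- The permutation of `V` with label `x`. -/
noncomputable def gP (x : ℕ) : Equiv.Perm V := mkP (fmap (dat x)) (fmap (dat (iv x)))

theorem gP_inv (x : ℕ) : gP dat (iv x) = (gP dat x)⁻¹ := by
  rw [gP, gP, iv_iv, mkP_inv]

variable {dat} (h0 : ∀ v, fmap (dat 0) v = v) (hi : ∀ m, m < 512 → invK dat m = true)
include h0 hi

theorem gP_apply {x : ℕ} (hx : x < 1024) (v : V) : gP dat x v = fmap (dat x) v := by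
  have h := hi (x / 2) (by omega)
  simp only [invK, frc_eq, bnd_eq, Bool.and_eq_true, Nat.mul_eq, Nat.succ_eq_add_one] at h
  have a1 := fun v => chk22_sound h.1 v
  have a2 := fun v => chk22_sound h.2 v
  simp only [h0] at a1 a2
  have e : ∀ x, x < 1024 → iv x = if x % 2 = 0 then x + 1 else x - 1 := by decide +kernel
  have e1 := e x hx
  unfold gP mkP
  rw [dif_pos]
  · rfl
  · split_ifs at e1 with h2
    · rw [show 2 * (x / 2) = x by omega, ← e1] at a1 a2
      exact ⟨a1, a2⟩
    · rw [show 2 * (x / 2) + 1 = x by omega, show 2 * (x / 2) = x - 1 by omega, ← e1] at a1 a2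
      exact ⟨a2, a1⟩

theorem gP_lab : Lab (gP dat) := by
  have z : gP dat 0 = 1 := Equiv.ext fun v => by rw [gP_apply h0 hi (by norm_num), h0]; rfl
  exact ⟨z, by rw [show 1 = iv 0 from rfl, gP_inv, z, inv_one], gP_inv dat⟩

theorem relK_sound {k : ℕ} (h : relK dat k = true) : Wd (gP dat) k = 1 := by
  have hl := gP_lab h0 hi
  have ap := fun x hx v => gP_apply h0 hi (x := x) hx v
  have b := fun i => dk_lt k i
  have b' := fun i => iv_lt (dk_lt k i)
  simp only [relK, frc_eq] at h
  cases c : Nat.beq (Nat.shiftRight k 40) 0 <;> rw [c] at h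
  · have h : bnd (Nat.ble (Nat.shiftRight k 40) 1023) (chk32 dat (dk k 0) (dk k 10) (dk k 20)
      (iv (Nat.shiftRight k 40)) (iv (dk k 30))) = true := h
    simp only [bnd_eq, Bool.and_eq_true, Nat.ble_eq, shr_eq] at h
    have e : k / 2 ^ 40 = dk k 40 := by rw [dk_eq]; omega
    have e2 : gP dat (dk k 0) * (gP dat (dk k 10) * gP dat (dk k 20)) =
        gP dat (iv (dk k 40)) * gP dat (iv (dk k 30)) := Equiv.ext fun v => by
      simp only [Equiv.Perm.mul_apply, ap _ (b _), ap _ (b' _)]
      exact chk32_sound (e ▸ h.2) v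
    rw [hl.five (by omega), ← mul_assoc (gP dat (dk k 10)), ← mul_assoc, ← mul_assoc (gP dat (dk k 0)),
      mul_assoc (gP dat (dk k 0)), e2, hl.inv, hl.inv]
    group
  · have h : chk22 dat (dk k 0) (dk k 10) (iv (dk k 30)) (iv (dk k 20)) = true := h
    simp only [Nat.beq_eq, shr_eq] at c
    have e : dk k 40 = 0 := by rw [dk_eq]; omega
    have e2 : gP dat (dk k 0) * gP dat (dk k 10) =
        gP dat (iv (dk k 30)) * gP dat (iv (dk k 20)) := Equiv.ext fun v => by
      simp only [Equiv.Perm.mul_apply, ap _ (b _), ap _ (b' _)]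
      exact chk22_sound h v
    rw [hl.five (by omega), ← mul_assoc, e2, hl.inv, hl.inv, e, hl.zero]
    group

end perm

variable {G : Type} [Group G] {gl : ℕ → G} {tb : ℕ → ℕ} {fd db : Tr}

theorem runC_spec (H : ∀ n, n < 1485 → k1 tb fd n = true) (hl : Lab gl)
    (hdb : ∀ c, Wd gl (db.get c) = 1) (z : ℕ) : ∀ (ms : List (ℕ × ℕ)) (hs : List ℕ) (n : ℕ)
    (f : ℕ → ℕ) (acc : ℕ), n < 1485 → acc < 1024 → runC tb db z ms hs n f acc = true →
    gl acc * run (gT gl tb fd) (tabD (tb n)) f ms = gl z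
  | [], hs, n, f, acc, _, _, h => by
    have h : Nat.beq acc z = true := h
    rw [Nat.eq_of_beq_eq_true h, run, mul_one]
  | m :: ms, hs, n, f, acc, hn, ha, h => by
    have h : frc (f m.1) (fun v => frc (f m.2) fun u => frc (hs.headD 0) fun h =>
      bnd (Nat.ble v 11) (bnd (Nat.ble u 11) (bnd (Nat.ble h 1023) (r1 (tb n) v u fun w =>
        bnd (fin db (sp (sp (sp 0 (iv h)) (lb w)) acc))
          (frc (tg w) fun n' => runC tb db z ms hs.tail n' (fun p => nx w (f p)) h))))) = true := h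
    simp only [frc_eq, bnd_eq, Bool.and_eq_true, Nat.ble_eq] at h
    obtain ⟨h1, h2, h3, h4⟩ := h
    obtain ⟨w, hk, _, g1, t1, s1, p1, _⟩ := r1_spec (gl := gl) H hn (by omega) (by omega) h4
    simp only [Bool.and_eq_true, p1] at hk
    have e := hl.fin hdb hk.1
    rw [hl.sp _ ha, hl.sp _ (lb_lt _), hl.sp _ (iv_lt (by omega)), hl.inv, Wd_zero, mul_one,
      ← mul_assoc, mul_inv_eq_one] at e
    rw [run, g1, s1, ← mul_assoc, e]
    exact runC_spec H hl hdb z ms _ _ _ _ t1 (by omega) hk.2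

theorem tbit_iff (m i : ℕ) : tbit m i = true ↔ m.testBit i = true := by
  rw [tbit, land_1, shr_eq, Nat.beq_eq, Nat.testBit_eq_decide_div_mod_eq, decide_eq_true_eq]

theorem dagK_spec (hl : Lab gl) (hdb : ∀ c, Wd gl (db.get c) = 1) (K : Subgroup G) :
    ∀ (ks : List ℕ) (m : ℕ), (∀ i, m.testBit i = true → gl i ∈ K) → dagK db ks m = true →
      ∀ i, i < 1024 → gl i ∈ K
  | [], m, hm, h => fun i hi => hm i ((tbit_iff _ _).1 ((allLt_iff 1024 fun i => tbit m i).1 h i hi))
  | k :: ks, m, hm, h => by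
    have h : bnd (Nat.ble k 1125899906842623) (bnd (fin db k)
      (bnd (tbit m (dk k 10)) (bnd (tbit m (dk k 20)) (bnd (tbit m (dk k 30)) (bnd (tbit m (dk k 40))
        (frc (Nat.lor m (Nat.lor (Nat.shiftLeft 1 (dk k 0)) (Nat.shiftLeft 1 (iv (dk k 0)))))
          (dagK db ks))))))) = true := h
    simp only [frc_eq, bnd_eq, Bool.and_eq_true, Nat.ble_eq, tbit_iff, shl_eq, one_mul] at h
    obtain ⟨h1, h2, h3, h4, h5, h6, h7⟩ := h
    have e := hl.fin hdb h2
    rw [hl.five (by omega)] at e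
    have m0 : gl (dk k 0) ∈ K := by
      rw [eq_inv_of_mul_eq_one_left e]
      exact K.inv_mem (K.mul_mem (hm _ h3) (K.mul_mem (hm _ h4) (K.mul_mem (hm _ h5) (hm _ h6))))
    refine dagK_spec hl hdb K ks _ (fun i hi => ?_) h7
    simp only [Nat.lor_eq, Nat.testBit_or, Nat.testBit_two_pow, Bool.or_eq_true,
      decide_eq_true_eq] at hi
    rcases hi with hi | rfl | rfl
    · exact hm i hi
    · exact m0
    · rw [hl.inv]; exact K.inv_mem m0

section lift
variable {G' : Type} [Group G'] (j : G' →* G) (gl)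

open Classical in
/-- Labels lifted along an injective homomorphism. -/
noncomputable def liftL (x : ℕ) : G' := if h : ∃ e, j e = gl x then h.choose else 1

variable {j gl}
theorem liftL_spec {x : ℕ} (h : gl x ∈ j.range) : j (liftL gl j x) = gl x := by
  have h' : ∃ e, j e = gl x := h
  rw [liftL, dif_pos h']; exact h'.choose_spec

theorem liftL_lab (hj : Function.Injective j) (hl : Lab gl) : Lab (liftL gl j) := by
  refine ⟨hj ?_, hj ?_, fun x => ?_⟩
  · rw [liftL_spec (hl.zero ▸ one_mem _), hl.zero, map_one]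
  · rw [liftL_spec (hl.one ▸ one_mem _), hl.one, map_one]
  · by_cases h : gl x ∈ j.range
    · apply hj
      rw [map_inv, liftL_spec h, liftL_spec (by rw [hl.inv]; exact inv_mem h), hl.inv]
    · have h1 : ¬ ∃ e, j e = gl x := h
      have h2 : ¬ ∃ e, j e = gl (iv x) := fun c => h (by
        have c' : gl (iv x) ∈ j.range := c
        rwa [hl.inv, inv_mem_iff] at c')
      rw [liftL, liftL, dif_neg h1, dif_neg h2, inv_one]

theorem liftL_wd (hj : Function.Injective j) (h : ∀ x, x < 1024 → gl x ∈ j.range) {k : ℕ}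
    (w : Wd gl k = 1) : Wd (liftL gl j) k = 1 := by
  apply hj
  rw [map_one, ← w, Wd, Wd, map_list_prod, List.map_map]
  congr 1
  exact List.map_congr_left fun x hx => liftL_spec (h x (Nat.digits_lt_base (by norm_num) hx))

end lift

end Pool.Agent.IvT
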