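import Mathlib

-- merged part: Pool.Agent.Work.MP_497bf6_gt.Defs
section
/-! Basic definitions: the free group of rank six, the surface relator, polygons (states) and
elementary slides. -/

namespace Pool.Agent.IvT

abbrev F := FreeGroup (Fin 6)
abbrev L := Fin 6 × Bool

/-- The inverse letter. -/
def bar (l : L) : L := (l.1, !l.2)
/-- The group element of a letter. -/
def lt (l : L) : F := FreeGroup.mk [l]

/-- The word of the relator. -/
def rw0 : List L := [(0,true),(1,true),(0,false),(1,false),(2,true),(3,true),(2,false),(3,false),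
  (4,true),(5,true),(4,false),(5,false)]
/-- The relator, a product of three commutators. -/
def r : F := FreeGroup.mk rw0
/-- The letter of the relator at position `k`. -/
def e0 (k : ℕ) : L := rw0.getD k (0,true)
/-- The pairing of positions of the relator. -/
def D0 (k : ℕ) : ℕ := if k < 12 then (if k % 4 < 2 then k + 2 else k - 2) else k
/-- The sides of the base polygon. -/
def y0 (k : ℕ) : F := if k < 12 then lt (e0 k) else 1

/-- Length of the longest common initial segment. -/
def lcp : List L → List L → ℕ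
  | a :: x, b :: y => if a = b then lcp x y + 1 else 0
  | _, _ => 0
/-- Gromov product based at the identity. -/
def gp (u v : F) : ℕ := lcp u.toWord v.toWord

/-- Code of a letter, below twelve. -/
def code (l : L) : ℕ := 2 * l.1.val + (if l.2 then 1 else 0)
/-- Base twelve value of a word. -/
def rk (w : List L) : ℕ := w.foldl (fun a l => 12 * a + code l) 0
/-- Length, refined by the ranks of the left halves of the word and of its inverse. -/
def nu (w : F) : ℕ :=
  4 * 12 ^ w.norm + rk (w.toWord.take (w.norm / 2)) + rk ((w⁻¹).toWord.take (w.norm / 2))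

/-- Vertices of the polygon with sides `y`. -/
def P (y : ℕ → F) : ℕ → F
  | 0 => 1
  | k + 1 => P y k * y k

/-- Position map of moving the entry at position `m` to position `q`. -/
def mv (m q p : ℕ) : ℕ :=
  if p = m then q else if m < p ∧ p ≤ q then p - 1 else if q ≤ p ∧ p < m then p + 1 else p

/-- The slide of side `v` over side `u` is available. -/
def Adj (D : ℕ → ℕ) (v u : ℕ) : Prop := v < 12 ∧ u < 12 ∧ (D u + 1 = v ∨ D v + 1 = u)
/-- The position that is moved. -/
def src (D : ℕ → ℕ) (v u : ℕ) : ℕ := if D u + 1 = v then D u else u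
/-- Its new position. -/
def dst (D : ℕ → ℕ) (v u : ℕ) : ℕ :=
  if D u + 1 = v then (if D u < D v then D v else D v + 1) else (if u < v then v - 1 else v)
/-- Old position to new position. -/
def fw (D : ℕ → ℕ) (v u : ℕ) : ℕ → ℕ := mv (src D v u) (dst D v u)
/-- New position to old position. -/
def bw (D : ℕ → ℕ) (v u : ℕ) : ℕ → ℕ := mv (dst D v u) (src D v u)
/-- The change of the sides, positions not moved. -/
def up (D : ℕ → ℕ) (y : ℕ → F) (v u : ℕ) : ℕ → F := fun k =>
  if k = v then (y u)⁻¹ * y v else if k = D v then (y v)⁻¹ * y u else y k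
/-- The pairing after a slide. -/
def sD (D : ℕ → ℕ) (v u : ℕ) : ℕ → ℕ := fun k => fw D v u (D (bw D v u k))
/-- The sides after a slide. -/
def sY (D : ℕ → ℕ) (y : ℕ → F) (v u : ℕ) : ℕ → F := fun k => up D y v u (bw D v u k)

/-- Pairings of the twelve positions with no cancelling neighbours. -/
structure Dg (D : ℕ → ℕ) : Prop where
  lt : ∀ k, k < 12 → D k < 12
  inv : ∀ k, D (D k) = k
  ne : ∀ k, k < 12 → D k ≠ k
  ne1 : ∀ k, k < 12 → D k ≠ k + 1
  out : ∀ k, 12 ≤ k → D k = k

/-- Valid states: polygons with product `r` whose sides are the letters of a basis. -/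
structure Ok (D : ℕ → ℕ) (y : ℕ → F) : Prop where
  dg : Dg D
  prod : P y 12 = r
  out : ∀ k, 12 ≤ k → y k = 1
  free : ∃ (φ : MulAut F) (e : ℕ → L), (∀ k, k < 12 → y k = φ (lt (e k))) ∧
    (∀ k j, k < 12 → j < 12 → e k = e j → k = j) ∧ ∀ k, k < 12 → e (D k) = bar (e k)

/-- A descending slide. -/
def Down (D : ℕ → ℕ) (y : ℕ → F) (v u : ℕ) : Prop :=
  Adj D v u ∧ nu (y u) < nu (y v) ∧ nu ((y u)⁻¹ * y v) < nu (y v)

/-- The potential. -/
def mu (y : ℕ → F) : ℕ := ∑ k ∈ Finset.range 12, 13 ^ nu (y k)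

/-- Place of a letter on the line. -/
def pos (l : L) : ℚ :=
  match l with
  | (0, true) => 11 | (1, false) => 10 | (0, false) => 9 | (1, true) => 8
  | (2, true) => 7 | (3, false) => 6 | (2, false) => 5 | (3, true) => 4
  | (4, true) => 3 | (5, false) => 2 | (4, false) => 1 | (5, true) => 0
/-- The point of the line attached to a word (a Schottky action). -/
def thw (w : List L) : ℚ := w.foldr (fun l t => pos l - (1 / 9) / (t - pos (bar l))) (-1)
/-- The point of the line attached to a group element. -/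
def th (g : F) : ℚ := thw g.toWord
/-- Planar polygons. -/
def Pl (y : ℕ → F) : Prop := ∀ k, k < 12 → th (P y k) < th (P y (k + 1))

section run
variable {G : Type} [Group G]

/-- Availability of a list of slides, named by the positions in the first polygon; `f` sends these
to the current positions. -/
def okrun : (ℕ → ℕ) → (ℕ → ℕ) → List (ℕ × ℕ) → Prop
  | _, _, [] => True
  | D, f, m :: ms => Adj D (f m.1) (f m.2) ∧
      okrun (sD D (f m.1) (f m.2)) (fun p => fw D (f m.1) (f m.2) (f p)) ms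
/-- The product of the labels along a list of slides. -/
def run (g : (ℕ → ℕ) → ℕ → ℕ → G) : (ℕ → ℕ) → (ℕ → ℕ) → List (ℕ × ℕ) → G
  | _, _, [] => 1
  | D, f, m :: ms => g D (f m.1) (f m.2) *
      run g (sD D (f m.1) (f m.2)) (fun p => fw D (f m.1) (f m.2) (f p)) ms
/-- The last pairing. -/
def endD : (ℕ → ℕ) → (ℕ → ℕ) → List (ℕ × ℕ) → ℕ → ℕ
  | D, _, [] => D
  | D, f, m :: ms => endD (sD D (f m.1) (f m.2)) (fun p => fw D (f m.1) (f m.2) (f p)) ms
/-- The sides after a list of slides, named by the first positions. -/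
def ups (D : ℕ → ℕ) : (ℕ → F) → List (ℕ × ℕ) → ℕ → F
  | y, [] => y
  | y, m :: ms => ups D (up D y m.1 m.2) ms

/-- Two available lists of slides with the same product of labels. -/
def Cell (g : (ℕ → ℕ) → ℕ → ℕ → G) (D : ℕ → ℕ) (p q : List (ℕ × ℕ)) : Prop :=
  okrun D id p ∧ okrun D id q ∧ run g D id p = run g D id q

/-- The configuration excluded by planarity. -/
def Conf (D : ℕ → ℕ) (v u v' u' : ℕ) : Prop := D v + 1 = u ∧ D u' = u ∧ v' = u + 1

/-- The cell needed for a pair of slides, the first removing the larger side. -/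
def PairOK (g : (ℕ → ℕ) → ℕ → ℕ → G) (D : ℕ → ℕ) (v u v' u' : ℕ) : Prop :=
  (v' = v ∧ u' = u) ∨ u' = v ∨ u' = D v ∨ Conf D v u v' u' ∨ Conf D v' u' v u ∨
  (v' = v ∧ u' ≠ D u ∧ (Cell g D [(v,u),(u',u),(v,u')] [(v,u'),(u',u)] ∨
      Cell g D [(v,u'),(u,u'),(v,u)] [(v,u),(u,u')])) ∨
  (v' = u ∧ Cell g D [(u,u'),(v,u'),(v,u)] [(v,u),(u,u')]) ∨
  (v' = D u ∧ (Cell g D [(v,u),(v',u'),(v,u')] [(v',u'),(v,u)] ∨
      Cell g D [(v,u),(v,u'),(v',u')] [(v',u'),(v,u)])) ∨
  (v' ≠ v ∧ v' ≠ u ∧ v' ≠ D u ∧ Cell g D [(v,u),(v',u')] [(v',u'),(v,u)])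

/-- A labelling of the slides by elements of `G` that kills the elementary cells. -/
structure Sys (G : Type) [Group G] where
  T : Set (ℕ → ℕ)
  g : (ℕ → ℕ) → ℕ → ℕ → G
  base : D0 ∈ T
  dg : ∀ D ∈ T, Dg D
  closed : ∀ D ∈ T, ∀ v u, Adj D v u → sD D v u ∈ T
  cInv : ∀ D ∈ T, ∀ v u, Adj D v u → Cell g D [(v,u),(v,D u)] []
  cTri : ∀ D ∈ T, ∀ v u, Adj D v u → Cell g D [(v,u),(D u,v)] [(u,v)]
  cPair : ∀ D ∈ T, ∀ v u v' u', Adj D v u → Adj D v' u' → PairOK g D v u v' u'

end run

/-- The stabiliser of the relator in the automorphism group. -/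
abbrev Stab : Subgroup (MulAut F) := MulAction.stabilizer (MulAut F) r

end Pool.Agent.IvT
end

-- merged part: Pool.Agent.Work.MP_497bf6_gt.Word
section
namespace Pool.Agent.IvT
open FreeGroup

theorem bar_bar (l : L) : bar (bar l) = l := by cases l; simp [bar]
theorem bar_ne (l : L) : bar l ≠ l := by rcases l with ⟨a, _ | _⟩ <;> simp [bar]
theorem lt_bar (l : L) : lt (bar l) = (lt l)⁻¹ := by
  simp [lt, bar, FreeGroup.inv_mk, FreeGroup.invRev]
theorem toWord_lt (l : L) : (lt l).toWord = [l] := rfl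
theorem lt_inj {a b : L} (h : lt a = lt b) : a = b := by
  have := congrArg FreeGroup.toWord h
  simpa [toWord_lt] using this
theorem norm_lt (l : L) : (lt l).norm = 1 := rfl
theorem invRev_cons' (a : L) (x : List L) : invRev (a :: x) = invRev x ++ [bar a] := by
  simp [invRev, bar]
theorem isReduced_iff (w : List L) : FreeGroup.IsReduced w ↔ w.IsChain (fun a b => b ≠ bar a) := by
  unfold FreeGroup.IsReduced
  congr! 3 with a b
  rcases a with ⟨a, _ | _⟩ <;> rcases b with ⟨b, _ | _⟩ <;> simp [bar, eq_comm]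
theorem toWord_mk_of_reduced {w : List L} (h : FreeGroup.IsReduced w) : (FreeGroup.mk w).toWord = w := by
  rw [toWord_mk, h.reduce_eq]
theorem norm_def (g : F) : g.norm = g.toWord.length := rfl
theorem isReduced_invRev {w : List L} (h : FreeGroup.IsReduced w) : FreeGroup.IsReduced (invRev w) := by
  rw [isReduced_iff_reduce_eq] at h ⊢
  rw [reduce_invRev, h]

theorem lcp_comm : ∀ x y : List L, lcp x y = lcp y x
  | [], [] => rfl
  | [], _ :: _ => rfl
  | _ :: _, [] => rfl
  | a :: x, b :: y => by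
    simp only [lcp, lcp_comm x y]
    by_cases h : a = b
    · simp [h]
    · simp [h, Ne.symm h]

theorem le_lcp : ∀ (n : ℕ) (x y : List L),
    n ≤ lcp x y ↔ n ≤ x.length ∧ n ≤ y.length ∧ x.take n = y.take n
  | 0, _, _ => by simp
  | n + 1, [], y => by simp [lcp]
  | n + 1, a :: x, [] => by simp [lcp]
  | n + 1, a :: x, b :: y => by
    by_cases h : a = b
    · simp [lcp, h, le_lcp n x y]
    · simp [lcp, h]

theorem lcp_drop : ∀ (x y : List L) (a b : L), (x.drop (lcp x y)).head? = some a →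
    (y.drop (lcp x y)).head? = some b → a ≠ b
  | [], _, _, _ => by simp
  | _ :: _, [], _, _ => by simp
  | c :: x, d :: y, a, b => by
    by_cases h : c = d
    · simp only [lcp, h, if_true, List.drop_succ_cons]
      exact lcp_drop x y a b
    · simp only [lcp, h, if_false, List.drop_zero, List.head?_cons, Option.some.injEq]
      rintro rfl rfl; exact h

theorem gp_comm (u v : F) : gp u v = gp v u := lcp_comm _ _
theorem le_gp (n : ℕ) (u v : F) :
    n ≤ gp u v ↔ n ≤ u.norm ∧ n ≤ v.norm ∧ u.toWord.take n = v.toWord.take n := le_lcp _ _ _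
theorem gp_le_left (u v : F) : gp u v ≤ u.norm := ((le_gp _ u v).1 le_rfl).1
theorem gp_le_right (u v : F) : gp u v ≤ v.norm := ((le_gp _ u v).1 le_rfl).2.1
theorem gp_take (u v : F) : u.toWord.take (gp u v) = v.toWord.take (gp u v) :=
  ((le_gp _ u v).1 le_rfl).2.2
/-- The letters that follow the common initial segment differ. -/
theorem gp_drop (u v : F) (a b : L) (ha : (u.toWord.drop (gp u v)).head? = some a)
    (hb : (v.toWord.drop (gp u v)).head? = some b) : a ≠ b := lcp_drop _ _ a b ha hb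

theorem gp_ultra (u v x : F) : min (gp u v) (gp v x) ≤ gp u x := by
  obtain ⟨h1, h2, h3⟩ := (le_gp _ u v).1 (min_le_left (gp u v) (gp v x))
  obtain ⟨h4, h5, h6⟩ := (le_gp _ v x).1 (min_le_right (gp u v) (gp v x))
  exact (le_gp _ _ _).2 ⟨h1, h5, h3.trans h6⟩

theorem reduced_join {p s : List L} (hp : FreeGroup.IsReduced p) (hs : FreeGroup.IsReduced s)
    (h : ∀ a b, p.head? = some a → s.head? = some b → a ≠ b) : FreeGroup.IsReduced (invRev p ++ s) := by
  have hp' := isReduced_invRev hp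
  rw [isReduced_iff] at hp' hs ⊢
  refine List.IsChain.append hp' hs ?_
  intro x hx y hy
  cases p with
  | nil => simp at hx
  | cons a p =>
    rw [invRev_cons'] at hx
    simp at hx
    subst hx
    rw [bar_bar]
    exact (h a y rfl hy).symm

theorem toWord_inv_mul (u v : F) : (u⁻¹ * v).toWord =
    invRev (u.toWord.drop (gp u v)) ++ v.toWord.drop (gp u v) := by
  have hu : FreeGroup.IsReduced (u.toWord.drop (gp u v)) :=
    List.IsChain.drop isReduced_toWord _
  have hv : FreeGroup.IsReduced (v.toWord.drop (gp u v)) :=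
    List.IsChain.drop isReduced_toWord _
  rw [← toWord_mk_of_reduced (reduced_join hu hv (gp_drop u v))]
  congr 1
  have e1 : u = FreeGroup.mk (u.toWord.take (gp u v)) * FreeGroup.mk (u.toWord.drop (gp u v)) := by
    rw [FreeGroup.mul_mk, List.take_append_drop, mk_toWord]
  have e2 : v = FreeGroup.mk (u.toWord.take (gp u v)) * FreeGroup.mk (v.toWord.drop (gp u v)) := by
    rw [gp_take, FreeGroup.mul_mk, List.take_append_drop, mk_toWord]
  rw [← FreeGroup.mul_mk, ← FreeGroup.inv_mk]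
  generalize FreeGroup.mk (u.toWord.drop (gp u v)) = a at e1 ⊢
  generalize FreeGroup.mk (v.toWord.drop (gp u v)) = b at e2 ⊢
  generalize FreeGroup.mk (u.toWord.take (gp u v)) = c at e1 e2
  rw [e1, e2]; group

theorem norm_gp (u v : F) : (u⁻¹ * v).norm + 2 * gp u v = u.norm + v.norm := by
  have h1 := gp_le_left u v
  have h2 := gp_le_right u v
  rw [norm_def, toWord_inv_mul]
  simp only [norm_def] at h1 h2 ⊢
  simp only [List.length_append, invRev_length, List.length_drop]
  omega

/-- The four point condition. -/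
theorem four_pt (u v x : F) : (u⁻¹ * x).norm + v.norm ≤
    max (x.norm + (u⁻¹ * v).norm) (u.norm + (v⁻¹ * x).norm) := by
  have h1 := norm_gp u x
  have h2 := norm_gp u v
  have h3 := norm_gp v x
  have h4 := gp_ultra u v x
  omega

end Pool.Agent.IvT
end

-- merged part: Pool.Agent.Work.MP_497bf6_gt.ModDefs
section
/-! The pure mapping class group of a surface of genus `g` with `n` marked points in the
Dehn-Nielsen-Baer model. -/

namespace Pool.Agent.IvT

/-- The relator `[a₁,b₁]⋯[a_g,b_g] c₁⋯c_n`. -/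
def surfRel (g n : ℕ) : FreeGroup ((Fin g ⊕ Fin g) ⊕ Fin n) :=
  ((List.finRange g).map (fun i : Fin g =>
    FreeGroup.of (Sum.inl (Sum.inl i)) * FreeGroup.of (Sum.inl (Sum.inr i)) *
      (FreeGroup.of (Sum.inl (Sum.inl i)))⁻¹ * (FreeGroup.of (Sum.inl (Sum.inr i)))⁻¹)).prod *
  ((List.finRange n).map (fun j : Fin n => FreeGroup.of (Sum.inr j))).prod

/-- The fundamental group of the surface of genus `g` with `n` points removed. -/
abbrev SurfPi (g n : ℕ) : Type :=
  PresentedGroup ({surfRel g n} : Set (FreeGroup ((Fin g ⊕ Fin g) ⊕ Fin n)))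

/-- Automorphisms that fix the conjugacy class of the loop around each removed point. -/
def PeriAut (g n : ℕ) : Subgroup (MulAut (SurfPi g n)) where
  carrier := {φ | ∀ j : Fin n,
    IsConj (PresentedGroup.of (Sum.inr j) : SurfPi g n) (φ (PresentedGroup.of (Sum.inr j)))}
  one_mem' := fun _ => IsConj.refl _
  mul_mem' := fun {φ ψ} hφ hψ j => (hφ j).trans (φ.toMonoidHom.map_isConj (hψ j))
  inv_mem' := fun {φ} hφ j => by
    have := (φ⁻¹ : MulAut (SurfPi g n)).toMonoidHom.map_isConj (hφ j)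
    simpa using this.symm

/-- Inner automorphisms, as a subgroup of `PeriAut g n`. -/
def PeriInn (g n : ℕ) : Subgroup (PeriAut g n) :=
  (MulAut.conj : SurfPi g n →* MulAut (SurfPi g n)).range.subgroupOf (PeriAut g n)

instance periInn_normal (g n : ℕ) : (PeriInn g n).Normal := ⟨by
  rintro a ⟨x, hx⟩ b
  refine ⟨(b : MulAut (SurfPi g n)) x, ?_⟩
  have hx' : MulAut.conj x = (a : MulAut (SurfPi g n)) := hx
  ext z
  simp [← hx']⟩

/-- The mapping class group. -/
abbrev ModS (g n : ℕ) : Type := PeriAut g n ⧸ PeriInn g n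

end Pool.Agent.IvT
end

-- merged part: Pool.Agent.Work.MP_497bf6_gt.Wrap
section
/-! Plan. `comm_r`: induction on `norm z`. One of `z * r`, `z * r⁻¹` has no cancellation; then `z ++ s = s ++ z` as words for
`s = r` or `r⁻¹`; if `0 < length z < 12` the first letter of `s` would occur twice in `s`; else `z = s * z'` with `z'` shorter.
`wrap`: `SurfPi 3 1 ≃* F` (`a_i ↦ x_{2i}`, `b_i ↦ x_{2i+1}`, `c ↦ r⁻¹`; `PresentedGroup.toGroup` and `FreeGroup.lift`), so `PeriAut 3 1` is
`{φ | IsConj r (φ r)}`. For such `φ` choose `x` with `(conj x)⁻¹ * φ ∈ Stab` and put `Ψ φ = Φ` of it; two choices differ by `conj z`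
with `z` central for `r`, which `Φ` kills; multiplicativity: `conj x γ conj x' γ' = conj (x * γ x') γ γ'`. Then `QuotientGroup.lift`. -/

namespace Pool.Agent.IvT

theorem Wrap_list {s : List L} (hn : s.Nodup) (h0 : s ≠ []) :
    ∀ (k : ℕ) (w : List L), w.length ≤ k → w ++ s = s ++ w →
      ∃ n : ℕ, FreeGroup.mk w = FreeGroup.mk s ^ n := by
  intro k
  induction k with
  | zero =>
    intro w hw _
    have : w = [] := List.length_eq_zero_iff.mp (by omega)
    subst this
    exact ⟨0, rfl⟩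
  | succ k ih =>
    intro w hw h
    rcases List.append_eq_append_iff.mp h with ⟨a, h1, h2⟩ | ⟨b, h1, h2⟩
    · cases w with
      | nil => exact ⟨0, rfl⟩
      | cons x w =>
        cases a with
        | nil => exact ⟨1, by rw [h1]; simp⟩
        | cons y a =>
          exfalso
          have hxy : x = y := by
            have h3 := h1.symm.trans h2
            simp only [List.cons_append, List.cons.injEq] at h3
            exact h3.1
          rw [h1, hxy] at hn
          simp at hn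
    · have hl : b.length ≤ k := by
        have h3 := congrArg List.length h1
        have h4 := List.length_pos_of_ne_nil h0
        simp only [List.length_append] at h3
        omega
      obtain ⟨n, hn'⟩ := ih b hl (h2.symm.trans h1)
      exact ⟨n + 1, by rw [h1, ← FreeGroup.mul_mk, hn', pow_succ']⟩

theorem Wrap_comm {s : List L} (hs : FreeGroup.IsReduced s) (hn : s.Nodup) (h0 : s ≠ []) {z : F}
    (hc : z * FreeGroup.mk s = FreeGroup.mk s * z)
    (hl : ∀ a ∈ z.toWord.getLast?, ∀ b ∈ s.head?, b ≠ bar a) :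
    ∃ n : ℕ, z = FreeGroup.mk s ^ n := by
  have h1 : FreeGroup.IsReduced (z.toWord ++ s) := by
    have hz : FreeGroup.IsReduced z.toWord := FreeGroup.isReduced_toWord
    rw [isReduced_iff] at hz hs ⊢
    exact List.IsChain.append hz hs hl
  have h2 : FreeGroup.mk (z.toWord ++ s) = FreeGroup.mk (s ++ z.toWord) := by
    rw [← FreeGroup.mul_mk, ← FreeGroup.mul_mk, FreeGroup.mk_toWord, hc]
  have h3 : z.toWord ++ s = FreeGroup.reduce (s ++ z.toWord) := by
    rw [← FreeGroup.toWord_mk, ← h2, toWord_mk_of_reduced h1]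
  have h4 : List.Sublist (z.toWord ++ s) (s ++ z.toWord) := by
    rw [h3]
    exact FreeGroup.reduce.red.sublist
  have h5 : z.toWord ++ s = s ++ z.toWord := h4.eq_of_length (by simp [add_comm])
  obtain ⟨n, hn'⟩ := Wrap_list hn h0 _ z.toWord le_rfl h5
  exact ⟨n, by rw [← hn', FreeGroup.mk_toWord]⟩

/-- The centraliser of the relator is generated by it. -/
theorem comm_r {z : F} (h : z * r = r * z) : ∃ n : ℤ, z = r ^ n := by
  have hr : FreeGroup.IsReduced rw0 := by
    rw [isReduced_iff]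
    decide
  by_cases hz : z.toWord.getLast? = some (0, false)
  · have hc : z * FreeGroup.mk (FreeGroup.invRev rw0) = FreeGroup.mk (FreeGroup.invRev rw0) * z := by
      rw [← FreeGroup.inv_mk]
      exact (Commute.inv_right (show Commute z r from h)).eq
    obtain ⟨n, hn⟩ := Wrap_comm (isReduced_invRev hr) (by decide) (by decide) hc (by
      intro a ha b hb
      rw [hz] at ha
      have ha' : a = (0, false) := (Option.some.inj ha).symm
      have hb' : b = (5, true) := (Option.some.inj hb).symm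
      rw [ha', hb']
      decide)
    refine ⟨-(n : ℤ), ?_⟩
    rw [hn, ← FreeGroup.inv_mk, zpow_neg, zpow_natCast, inv_pow]
    rfl
  · obtain ⟨n, hn⟩ := Wrap_comm hr (by decide) (by decide) h (by
      intro a ha b hb hab
      have hb' : b = (0, true) := (Option.some.inj hb).symm
      apply hz
      rw [ha, ← bar_bar a, ← hab, hb']
      rfl)
    exact ⟨n, by rw [zpow_natCast]; exact hn⟩

/-- Images of the generators of the surface group. -/
def Wrap_f : (Fin 3 ⊕ Fin 3) ⊕ Fin 1 → F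
  | Sum.inl (Sum.inl i) => FreeGroup.of (![0, 2, 4] i)
  | Sum.inl (Sum.inr i) => FreeGroup.of (![1, 3, 5] i)
  | Sum.inr _ => r⁻¹

/-- Images of the free generators. -/
def Wrap_g : Fin 6 → SurfPi 3 1 :=
  ![PresentedGroup.of (Sum.inl (Sum.inl 0)), PresentedGroup.of (Sum.inl (Sum.inr 0)),
    PresentedGroup.of (Sum.inl (Sum.inl 1)), PresentedGroup.of (Sum.inl (Sum.inr 1)),
    PresentedGroup.of (Sum.inl (Sum.inl 2)), PresentedGroup.of (Sum.inl (Sum.inr 2))]

theorem Wrap_r : r = FreeGroup.of 0 * FreeGroup.of 1 * (FreeGroup.of 0)⁻¹ * (FreeGroup.of 1)⁻¹ *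
    (FreeGroup.of 2 * FreeGroup.of 3 * (FreeGroup.of 2)⁻¹ * (FreeGroup.of 3)⁻¹ *
    (FreeGroup.of 4 * FreeGroup.of 5 * (FreeGroup.of 4)⁻¹ * (FreeGroup.of 5)⁻¹)) := rfl

theorem Wrap_rel {M : Type} [Group M] (f : FreeGroup ((Fin 3 ⊕ Fin 3) ⊕ Fin 1) →* M)
    (a : (Fin 3 ⊕ Fin 3) ⊕ Fin 1 → M) (ha : ∀ i, f (FreeGroup.of i) = a i) :
    f (surfRel 3 1) =
      a (.inl (.inl 0)) * a (.inl (.inr 0)) * (a (.inl (.inl 0)))⁻¹ * (a (.inl (.inr 0)))⁻¹ *
      (a (.inl (.inl 1)) * a (.inl (.inr 1)) * (a (.inl (.inl 1)))⁻¹ * (a (.inl (.inr 1)))⁻¹ *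
      (a (.inl (.inl 2)) * a (.inl (.inr 2)) * (a (.inl (.inl 2)))⁻¹ * (a (.inl (.inr 2)))⁻¹)) *
      a (.inr 0) := by
  have h3 : List.finRange 3 = [0, 1, 2] := rfl
  have h1 : List.finRange 1 = [0] := rfl
  simp only [surfRel, h3, h1, List.map_cons, List.map_nil, List.prod_cons, List.prod_nil, mul_one,
    map_mul, map_inv, ha]

theorem Wrap_hf : ∀ x ∈ ({surfRel 3 1} : Set (FreeGroup ((Fin 3 ⊕ Fin 3) ⊕ Fin 1))),
    FreeGroup.lift Wrap_f x = 1 := by
  intro x hx
  rw [Set.mem_singleton_iff.mp hx, Wrap_rel _ Wrap_f (fun i => FreeGroup.lift_apply_of)]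
  exact mul_inv_cancel r

theorem Wrap_gr : FreeGroup.lift Wrap_g r⁻¹ = PresentedGroup.of (Sum.inr 0) := by
  have h1 : PresentedGroup.mk ({surfRel 3 1} : Set (FreeGroup ((Fin 3 ⊕ Fin 3) ⊕ Fin 1)))
      (surfRel 3 1) = 1 := PresentedGroup.one_of_mem (Set.mem_singleton _)
  rw [Wrap_rel _ PresentedGroup.of (fun _ => rfl)] at h1
  rw [map_inv, inv_eq_iff_mul_eq_one, ← h1, Wrap_r]
  simp only [map_mul, map_inv, FreeGroup.lift_apply_of]
  rfl

/-- The surface group is free. -/
def Wrap_e : SurfPi 3 1 ≃* F :=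
  MonoidHom.toMulEquiv (PresentedGroup.toGroup Wrap_hf) (FreeGroup.lift Wrap_g)
    (by
      apply PresentedGroup.ext
      intro x
      rw [MonoidHom.comp_apply, PresentedGroup.toGroup.of, MonoidHom.id_apply]
      rcases x with (i | i) | i
      · fin_cases i <;> exact FreeGroup.lift_apply_of
      · fin_cases i <;> exact FreeGroup.lift_apply_of
      · fin_cases i
        exact Wrap_gr)
    (by
      apply FreeGroup.ext_hom
      intro x
      rw [MonoidHom.comp_apply, FreeGroup.lift_apply_of, MonoidHom.id_apply]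
      fin_cases x <;> exact PresentedGroup.toGroup.of Wrap_hf)

theorem Wrap_e_c (j : Fin 1) : Wrap_e (PresentedGroup.of (Sum.inr j)) = r⁻¹ :=
  PresentedGroup.toGroup.of Wrap_hf (x := Sum.inr j)

/-- `g` is the value attached to the automorphism `φ`. -/
def Wrap_R {G : Type} [Group G] (Φ : Stab →* G) (φ : MulAut F) (g : G) : Prop :=
  ∃ (x : F) (γ : Stab), φ = MulAut.conj x * γ ∧ g = Φ γ

theorem Wrap_fix (γ : Stab) : (γ : MulAut F) r = r := γ.2

theorem Wrap_R_unique {G : Type} [Group G] (Φ : Stab →* G)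
    (h : ∀ γ : Stab, (γ : MulAut F) = MulAut.conj r → Φ γ = 1) {φ : MulAut F} {g g' : G}
    (h1 : Wrap_R Φ φ g) (h2 : Wrap_R Φ φ g') : g = g' := by
  obtain ⟨x, γ, e1, rfl⟩ := h1
  obtain ⟨x', γ', e2, rfl⟩ := h2
  have e3 : (γ' : MulAut F) = MulAut.conj (x'⁻¹ * x) * γ := by
    rw [map_mul, map_inv, mul_assoc, ← e1, e2, inv_mul_cancel_left]
  have e4 : x'⁻¹ * x * r = r * (x'⁻¹ * x) := by
    have e5 := Wrap_fix γ'
    rw [e3, MulAut.mul_apply, Wrap_fix γ, MulAut.conj_apply] at e5
    exact mul_inv_eq_iff_eq_mul.mp e5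
  obtain ⟨n, hn⟩ := comm_r e4
  have hc : MulAut.conj r ∈ Stab := by
    show MulAut.conj r r = r
    rw [MulAut.conj_apply, mul_inv_cancel_right]
  have e6 : γ' = (⟨MulAut.conj r, hc⟩ : Stab) ^ n * γ := by
    apply Subtype.ext
    rw [e3, hn, map_zpow]
    simp
  rw [e6, map_mul, map_zpow, h ⟨MulAut.conj r, hc⟩ rfl, one_zpow, one_mul]

theorem Wrap_R_mul {G : Type} [Group G] (Φ : Stab →* G) {φ φ' : MulAut F} {g g' : G}
    (h1 : Wrap_R Φ φ g) (h2 : Wrap_R Φ φ' g') : Wrap_R Φ (φ * φ') (g * g') := by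
  obtain ⟨x, γ, rfl, rfl⟩ := h1
  obtain ⟨x', γ', rfl, rfl⟩ := h2
  refine ⟨x * (γ : MulAut F) x', γ * γ', ?_, (map_mul Φ γ γ').symm⟩
  ext z
  simp [mul_assoc]

theorem Wrap_R_ex {G : Type} [Group G] (Φ : Stab →* G) (φ : PeriAut 3 1) :
    ∃ g, Wrap_R Φ (MulAut.congr Wrap_e φ) g := by
  have h1 := Wrap_e.toMonoidHom.map_isConj (φ.2 0)
  obtain ⟨x, hx⟩ := isConj_iff.mp h1
  have h2 : MulAut.congr Wrap_e φ r⁻¹ = x * r⁻¹ * x⁻¹ := by
    have h3 : Wrap_e.symm r⁻¹ = PresentedGroup.of (Sum.inr 0) := by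
      rw [← Wrap_e_c 0, MulEquiv.symm_apply_apply]
    have h4 : MulAut.congr Wrap_e φ r⁻¹ = Wrap_e ((φ : MulAut (SurfPi 3 1)) (Wrap_e.symm r⁻¹)) := rfl
    rw [h4, h3, ← Wrap_e_c 0]
    exact hx.symm
  have h5 : (MulAut.conj x)⁻¹ * MulAut.congr Wrap_e φ ∈ Stab := by
    show ((MulAut.conj x)⁻¹ * MulAut.congr Wrap_e φ : MulAut F) r = r
    apply inv_injective
    rw [← map_inv, MulAut.mul_apply, h2, MulAut.conj_inv_apply]
    group
  exact ⟨_, x, ⟨_, h5⟩, (mul_inv_cancel_left _ _).symm, rfl⟩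

theorem wrap {G : Type} [Group G] (Φ : Stab →* G)
    (h : ∀ γ : Stab, (γ : MulAut F) = MulAut.conj r → Φ γ = 1) :
    ∃ Ψ : ModS 3 1 →* G, Ψ.range = Φ.range := by
  choose ψ hψ using Wrap_R_ex Φ
  let Ψ1 : PeriAut 3 1 →* G := MonoidHom.mk' ψ (fun a b => by
    refine Wrap_R_unique Φ h (hψ (a * b)) ?_
    rw [Subgroup.coe_mul, map_mul]
    exact Wrap_R_mul Φ (hψ a) (hψ b))
  have hk : PeriInn 3 1 ≤ Ψ1.ker := by
    rintro a ⟨y, hy⟩
    have hy' : MulAut.conj y = (a : MulAut (SurfPi 3 1)) := hy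
    refine Wrap_R_unique Φ h (hψ a) ⟨Wrap_e y, 1, ?_, (map_one Φ).symm⟩
    rw [← hy']
    ext z
    simp
  refine ⟨QuotientGroup.lift (PeriInn 3 1) Ψ1 hk, ?_⟩
  ext g
  constructor
  · rintro ⟨a, rfl⟩
    obtain ⟨φ, rfl⟩ := QuotientGroup.mk_surjective a
    obtain ⟨x, γ, -, hg⟩ := hψ φ
    exact ⟨γ, hg.symm⟩
  · rintro ⟨γ, rfl⟩
    have hm : (MulAut.congr Wrap_e).symm γ ∈ PeriAut 3 1 := by
      intro j
      have h1 : (MulAut.congr Wrap_e).symm γ (PresentedGroup.of (Sum.inr j))
          = Wrap_e.symm ((γ : MulAut F) (Wrap_e (PresentedGroup.of (Sum.inr j)))) := rfl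
      rw [h1, Wrap_e_c, map_inv, Wrap_fix, ← Wrap_e_c j, MulEquiv.symm_apply_apply]
    refine ⟨QuotientGroup.mk ⟨_, hm⟩, ?_⟩
    refine Wrap_R_unique Φ h (hψ ⟨_, hm⟩) ⟨1, γ, ?_, rfl⟩
    rw [map_one, one_mul]
    exact MulEquiv.apply_symm_apply _ _

/-- From an affine isometric action without fixed point to a cocycle that is no coboundary. -/
theorem cocycle_of_action {M H : Type} [Group M] [NormedAddCommGroup H] [InnerProductSpace ℂ H]
    (Ψ : M →* (H ≃ᵃⁱ[ℂ] H)) (h : ∀ v : H, ∃ a, Ψ a v ≠ v) :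
    ∃ (ρ : M →* (H ≃ₗᵢ[ℂ] H)) (c : M → H), (∀ a v, Ψ a v = ρ a v + c a) ∧
      (∀ a b, c (a * b) = c a + ρ a (c b)) ∧ ¬ ∃ v : H, ∀ a, c a = ρ a v - v := by
  have h1 : ∀ a v, Ψ a v = (Ψ a).linearIsometryEquiv v + Ψ a 0 := by
    intro a v
    have := (Ψ a).map_vadd 0 v
    simpa using this
  have h2 : ∀ a b v, Ψ (a * b) v = Ψ a (Ψ b v) := by
    intro a b v
    rw [map_mul]
    rfl
  let ρ : M →* (H ≃ₗᵢ[ℂ] H) := MonoidHom.mk' (fun a => (Ψ a).linearIsometryEquiv) (fun a b => by
    ext v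
    have e1 := h1 (a * b) v
    rw [h2, h2, h1 a (Ψ b v), h1 a (Ψ b 0), h1 b v, map_add] at e1
    have e2 : ((Ψ a).linearIsometryEquiv * (Ψ b).linearIsometryEquiv) v
        = (Ψ a).linearIsometryEquiv ((Ψ b).linearIsometryEquiv v) := rfl
    rw [e2]
    have e3 := e1.symm
    rw [add_assoc] at e3
    exact add_right_cancel e3)
  refine ⟨ρ, fun a => Ψ a 0, h1, ?_, ?_⟩
  · intro a b
    show Ψ (a * b) 0 = Ψ a 0 + (Ψ a).linearIsometryEquiv (Ψ b 0)
    rw [h2, h1 a (Ψ b 0), add_comm]
  · rintro ⟨v, hv⟩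
    obtain ⟨a, ha⟩ := h (-v)
    apply ha
    have e1 : Ψ a 0 = (Ψ a).linearIsometryEquiv v - v := hv a
    rw [h1, e1, map_neg]
    abel

end Pool.Agent.IvT
end

-- merged part: Pool.Agent.Work.MP_497bf6_gt.Nu
section
/-! Plan. All word lemmas needed are in Word.lean (`gp`, `le_gp`, `toWord_inv_mul`, `norm_gp`, `four_pt`).
`rk w < 12 ^ length w`; `rk (q ++ t) < rk (p ++ t) ↔ rk q < rk p` and `rk` injective for equal lengths
(generalise the accumulator of the fold). Key lemma TIE: put `tau u := rk (left half of u⁻¹) < rk (left half of u)`.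
If `u ≠ 1`, `norm u ≤ norm v`, `norm (u⁻¹ v) = norm v` then
`(tau u ∧ nu (u⁻¹ v) < nu v) ∨ (tau u⁻¹ ∧ nu v < nu (u⁻¹ v))`: with `m = gp u v`, `norm u = 2 m`,
`u = q ++ p`, `v = q ++ s`, `u⁻¹ v = invRev p ++ s`, `length q = length p = m ≤ n / 2 ≤ length s` (`n = norm v`), so the
halves of the inverses agree (both are `take (n/2) (invRev s)`), and `q ≠ invRev p` as `u ≠ 1`.
`tau u` and `tau u⁻¹` exclude each other. `nu_um`, `nu_cross` follow (if both length inequalities are equalities
apply TIE to `v` and to `w`). `nu_lens`: suppose not; `u ≠ 1`, `u ≠ v`; `nu_um` makes `nu x` and `nu (v⁻¹ x)` strictly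
smaller than `nu (u⁻¹ x)`; `nu_cross` with `(u, v, x)` and with `(v⁻¹ u, v⁻¹, v⁻¹ x)` contradict `four_pt u v x`. -/

namespace Pool.Agent.IvT

theorem Nu_fold (t : List L) (a : ℕ) :
    t.foldl (fun a l => 12 * a + code l) a = a * 12 ^ t.length + rk t := by
  induction t generalizing a with
  | nil => simp [rk]
  | cons l t ih =>
    unfold rk
    rw [List.foldl_cons, List.foldl_cons, ih, ih (12 * 0 + code l), List.length_cons]
    ring

theorem Nu_rk_append (q t : List L) : rk (q ++ t) = rk q * 12 ^ t.length + rk t := by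
  rw [← Nu_fold]
  unfold rk
  rw [List.foldl_append]

theorem Nu_code_lt (l : L) : code l < 12 := by
  have := l.1.2
  unfold code
  split_ifs <;> omega

theorem Nu_code_inj {a b : L} (h : code a = code b) : a = b := by
  rcases a with ⟨a, _ | _⟩ <;> rcases b with ⟨b, _ | _⟩ <;> simp [code] at h ⊢ <;> omega

theorem Nu_rk_concat (q : List L) (l : L) : rk (q ++ [l]) = 12 * rk q + code l := by
  unfold rk
  rw [List.foldl_append]
  rfl

theorem Nu_rk_lt (w : List L) : rk w < 12 ^ w.length := by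
  induction w using List.reverseRecOn with
  | nil => simp [rk]
  | append_singleton q l ih =>
    have := Nu_code_lt l
    rw [Nu_rk_concat, List.length_append, List.length_singleton, pow_succ]
    omega

theorem Nu_rk_inj (p : List L) : ∀ q : List L, p.length = q.length → rk p = rk q → p = q := by
  induction p using List.reverseRecOn with
  | nil => intro q h _; exact (List.length_eq_zero_iff.1 h.symm).symm
  | append_singleton p a ih =>
    intro q h e
    induction q using List.reverseRecOn with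
    | nil => simp at h
    | append_singleton q b _ =>
      have h1 := Nu_code_lt a
      have h2 := Nu_code_lt b
      rw [Nu_rk_concat, Nu_rk_concat] at e
      rw [ih q (by simpa using h) (by omega), Nu_code_inj (a := a) (b := b) (by omega)]

theorem Nu_half_lt (w : List L) (n : ℕ) : rk (w.take (n / 2)) < 12 ^ n :=
  (Nu_rk_lt _).trans_le (Nat.pow_le_pow_right (by norm_num)
    ((List.length_take_le _ _).trans (Nat.div_le_self _ _)))

/-- The rank of the left half. -/
def Nu_a (u : F) : ℕ := rk (u.toWord.take (u.norm / 2))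

theorem Nu_tie {u v : F} (hu : u ≠ 1) (h1 : u.norm ≤ v.norm) (h2 : (u⁻¹ * v).norm = v.norm) :
    (Nu_a u⁻¹ < Nu_a u ∧ nu (u⁻¹ * v) < nu v) ∨ (Nu_a u < Nu_a u⁻¹ ∧ nu v < nu (u⁻¹ * v)) := by
  have hg := norm_gp u v
  have hw := toWord_inv_mul u v
  have ht := gp_take u v
  have eu := (List.take_append_drop (gp u v) u.toWord).symm
  have ev := (List.take_append_drop (gp u v) v.toWord).symm
  rw [← ht] at ev
  have lq : (u.toWord.take (gp u v)).length = gp u v := by
    rw [List.length_take, ← norm_def]; omega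
  have lp : (u.toWord.drop (gp u v)).length = gp u v := by
    rw [List.length_drop, ← norm_def]; omega
  have ls : (v.toWord.drop (gp u v)).length = v.norm - gp u v := by
    rw [List.length_drop, ← norm_def]
  generalize u.toWord.take (gp u v) = q at eu ev lq
  generalize u.toWord.drop (gp u v) = p at eu hw lp
  generalize v.toWord.drop (gp u v) = s at ev hw ls
  generalize gp u v = m at hg lq lp ls
  have hm : u.norm / 2 = m := by omega
  have lp' : (FreeGroup.invRev p).length = m := by rw [FreeGroup.invRev_length, lp]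
  have ls' : v.norm / 2 ≤ (FreeGroup.invRev s).length := by
    rw [FreeGroup.invRev_length, ls]; omega
  have a1 : Nu_a u = rk q := by
    unfold Nu_a
    rw [hm, eu, List.take_left' lq]
  have a2 : Nu_a u⁻¹ = rk (FreeGroup.invRev p) := by
    unfold Nu_a
    rw [FreeGroup.norm_inv_eq, hm, FreeGroup.toWord_inv, eu, FreeGroup.invRev_append,
      List.take_left' lp']
  have n1 : nu v = 4 * 12 ^ v.norm + (rk q * 12 ^ (s.take (v.norm / 2 - m)).length +
      rk (s.take (v.norm / 2 - m))) + rk ((FreeGroup.invRev s).take (v.norm / 2)) := by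
    unfold nu
    rw [FreeGroup.toWord_inv, ev, FreeGroup.invRev_append, List.take_append_of_le_length ls',
      List.take_append, List.take_of_length_le (by omega), lq, Nu_rk_append]
  have n2 : nu (u⁻¹ * v) = 4 * 12 ^ v.norm +
      (rk (FreeGroup.invRev p) * 12 ^ (s.take (v.norm / 2 - m)).length +
      rk (s.take (v.norm / 2 - m))) + rk ((FreeGroup.invRev s).take (v.norm / 2)) := by
    unfold nu
    rw [FreeGroup.toWord_inv, h2, hw, FreeGroup.invRev_append, List.take_append_of_le_length ls',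
      List.take_append, List.take_of_length_le (by omega), lp', Nu_rk_append]
  have hne : rk (FreeGroup.invRev p) ≠ rk q := by
    intro e
    apply hu
    have e' := Nu_rk_inj _ _ (lp'.trans lq.symm) e
    rw [← FreeGroup.mk_toWord (x := u), eu, ← e', ← FreeGroup.mul_mk, ← FreeGroup.inv_mk,
      inv_mul_cancel]
  have hpos : 0 < 12 ^ (s.take (v.norm / 2 - m)).length := by positivity
  rw [a1, a2, n1, n2]
  rcases lt_or_gt_of_ne hne with h | h
  · have := Nat.mul_lt_mul_of_pos_right h hpos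
    exact Or.inl ⟨h, by omega⟩
  · have := Nat.mul_lt_mul_of_pos_right h hpos
    exact Or.inr ⟨h, by omega⟩

theorem nu_inv (w : F) : nu w⁻¹ = nu w := by
  unfold nu
  rw [FreeGroup.norm_inv_eq, inv_inv]
  omega

theorem nu_lt_of_norm_lt {a b : F} (h : a.norm < b.norm) : nu a < nu b := by
  have h1 := Nu_half_lt a.toWord a.norm
  have h2 := Nu_half_lt (a⁻¹).toWord a.norm
  have h3 : 12 ^ (a.norm + 1) ≤ 12 ^ b.norm := Nat.pow_le_pow_right (by norm_num) h
  rw [pow_succ] at h3
  unfold nu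
  omega

theorem norm_le_of_nu_le {a b : F} (h : nu a ≤ nu b) : a.norm ≤ b.norm := by
  by_contra hc
  exact absurd (nu_lt_of_norm_lt (not_le.1 hc)) (not_lt.2 h)

/-- The largest side of a nondegenerate triangle is unique. -/
theorem nu_um {u v : F} (h1 : nu (u⁻¹ * v) = nu v) (h2 : nu u ≤ nu v) : u = 1 := by
  by_contra hu
  have := Nu_tie hu (norm_le_of_nu_le h2)
    (le_antisymm (norm_le_of_nu_le h1.le) (norm_le_of_nu_le h1.ge))
  omega

theorem nu_cross {u v w : F} (h1 : nu (u⁻¹ * v) < nu v) (h2 : nu u < nu v)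
    (h3 : nu w < nu (u⁻¹ * w)) (h4 : nu u < nu (u⁻¹ * w)) :
    (u⁻¹ * v).norm + w.norm < v.norm + (u⁻¹ * w).norm := by
  have hu : u ≠ 1 := by
    rintro rfl
    simp at h1
  have a1 := norm_le_of_nu_le h1.le
  have a2 := norm_le_of_nu_le h2.le
  have a3 := norm_le_of_nu_le h3.le
  have a4 := norm_le_of_nu_le h4.le
  by_contra hc
  have t1 := Nu_tie (v := v) hu a2 (by omega)
  have t2 := Nu_tie (v := w) hu (by omega) (by omega)
  omega

theorem nu_lens {u v : F} (x : F) (h1 : nu u < nu v) (h2 : nu (u⁻¹ * v) < nu v) :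
    nu (u⁻¹ * x) < max (nu v) (max (nu x) (nu (v⁻¹ * x))) := by
  by_contra hc
  have hu : u ≠ 1 := by
    rintro rfl
    simp at h2
  have huv : v⁻¹ * u ≠ 1 := by
    intro e
    rw [inv_mul_eq_one] at e
    subst e
    exact lt_irrefl _ h1
  have e1 : (v⁻¹ * u)⁻¹ * (v⁻¹ * x) = u⁻¹ * x := by group
  have e2 : (v⁻¹ * u)⁻¹ * v⁻¹ = u⁻¹ := by group
  have e3 : nu (v⁻¹ * u) = nu (u⁻¹ * v) := by
    rw [← nu_inv]; congr 1; group
  have b1 : nu x < nu (u⁻¹ * x) := by
    by_contra h
    exact hu (nu_um (v := x) (by omega) (by omega))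
  have b2 : nu (v⁻¹ * x) < nu (u⁻¹ * x) := by
    by_contra h
    exact huv (nu_um (v := v⁻¹ * x) (by rw [e1]; omega) (by omega))
  have c1 := nu_cross h2 h1 b1 (by omega)
  have c2 := nu_cross (u := v⁻¹ * u) (v := v⁻¹) (w := v⁻¹ * x)
    (by rw [e2, nu_inv, nu_inv]; exact h1) (by rw [e3, nu_inv v]; exact h2)
    (by rw [e1]; exact b2) (by rw [e1]; omega)
  rw [e1, e2, FreeGroup.norm_inv_eq, FreeGroup.norm_inv_eq] at c2
  have := four_pt u v x
  omega

end Pool.Agent.IvT
end
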